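import Mathlib

/-!
# Local estimates for the factors
-/

namespace Pool.Agent.Helper13.Bsd

open Complex

lemma log_one_sub_approx {z : ℂ} (hz : ‖z‖ ≤ 1 / 2) :
    ‖log (1 - z) + z + z ^ 2 / 2‖ ≤ (2 / 3) * ‖z‖ ^ 3 := by
  have hz' : ‖-z‖ < 1 := by rw [norm_neg]; linarith
  have h := norm_log_sub_logTaylor_le 2 hz'
  have e : logTaylor (2 + 1) (-z) = -z - z ^ 2 / 2 := by
    simp [logTaylor_succ, logTaylor_zero]
    ring
  rw [e, norm_neg, ← sub_eq_add_neg] at h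
  have e2 : log (1 - z) + z + z ^ 2 / 2 = log (1 - z) - (-z - z ^ 2 / 2) := by ring
  rw [e2]
  refine h.trans ?_
  have h3 : (1 - ‖z‖)⁻¹ ≤ 2 := by
    rw [inv_le_comm₀ (by linarith) two_pos]; linarith
  have h4 : 0 ≤ ‖z‖ ^ 3 := by positivity
  calc ‖z‖ ^ (2 + 1) * (1 - ‖z‖)⁻¹ / ((2 : ℕ) + 1 : ℝ) ≤ ‖z‖ ^ 3 * 2 / 3 := by
        push_cast
        norm_num
        gcongr
    _ = _ := by ring

lemma core_bound (α β δ : ℝ) (hδ0 : 0 < δ) (hδ : δ ≤ 1 / 32) (hα : |α| ≤ 14 * δ) (hβ : β = δ ^ 2)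
    (X : ℂ) (hX : ‖X‖ ≤ 1) :
    ‖((Real.log (1 - α + β) : ℝ) : ℂ) * X - log (1 - ((α : ℂ) * X - (β : ℂ) * X ^ 2))‖
      ≤ 99 * δ ^ 2 * ‖X - X ^ 2‖ + 4000 * δ ^ 3 := by
  have hX0 := norm_nonneg X
  have hβ0 : 0 ≤ β := by rw [hβ]; positivity
  have hβδ : β ≤ δ / 32 := by rw [hβ]; nlinarith
  set y : ℝ := α - β with hy
  set z : ℂ := (α : ℂ) * X - (β : ℂ) * X ^ 2 with hz
  have hynorm : |y| ≤ 14.04 * δ := by
    calc |α - β| ≤ |α| + |β| := abs_sub _ _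
      _ ≤ 14 * δ + δ / 32 := by rw [abs_of_nonneg hβ0]; linarith
      _ ≤ _ := by nlinarith
  have hznorm : ‖z‖ ≤ 14.04 * δ := by
    calc ‖z‖ ≤ ‖(α : ℂ) * X‖ + ‖(β : ℂ) * X ^ 2‖ := norm_sub_le _ _
      _ = |α| * ‖X‖ + β * ‖X‖ ^ 2 := by
          rw [norm_mul, norm_mul, norm_pow, norm_real, norm_real, Real.norm_eq_abs,
            Real.norm_eq_abs, abs_of_nonneg hβ0]
      _ ≤ |α| * 1 + β * 1 := by
          gcongr
          exact pow_le_one₀ hX0 hX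
      _ ≤ 14 * δ + δ / 32 := by linarith
      _ ≤ _ := by nlinarith
  have hyhalf : ‖(y : ℂ)‖ ≤ 1 / 2 := by
    rw [norm_real, Real.norm_eq_abs]; linarith
  have hzhalf : ‖z‖ ≤ 1 / 2 := by linarith
  have hyle := (abs_le.mp hynorm).2
  have hpos : 0 ≤ 1 - α + β := by linarith
  have elog : ((Real.log (1 - α + β) : ℝ) : ℂ) = log (1 - (y : ℂ)) := by
    rw [ofReal_log hpos]
    congr 1
    rw [hy]
    push_cast
    ring
  have E1 := log_one_sub_approx hyhalf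
  have E2 := log_one_sub_approx hzhalf
  rw [elog]
  have hdecomp : log (1 - (y : ℂ)) * X - log (1 - z)
      = ((β : ℂ) - (α : ℂ) ^ 2 / 2) * (X - X ^ 2)
        + ((α : ℂ) * β * (X - X ^ 3) - (β : ℂ) ^ 2 / 2 * (X - X ^ 4))
        + (log (1 - (y : ℂ)) + y + (y : ℂ) ^ 2 / 2) * X
        - (log (1 - z) + z + z ^ 2 / 2) := by
    rw [hz, hy]
    push_cast
    ring
  rw [hdecomp]
  have B1 : ‖((β : ℂ) - (α : ℂ) ^ 2 / 2) * (X - X ^ 2)‖ ≤ 99 * δ ^ 2 * ‖X - X ^ 2‖ := by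
    rw [norm_mul]
    apply mul_le_mul_of_nonneg_right _ (norm_nonneg _)
    have : ((β : ℂ) - (α : ℂ) ^ 2 / 2) = ((β - α ^ 2 / 2 : ℝ) : ℂ) := by push_cast; ring
    rw [this, norm_real, Real.norm_eq_abs]
    have hα2 : α ^ 2 ≤ (14 * δ) ^ 2 := by
      rw [← sq_abs]
      exact pow_le_pow_left₀ (abs_nonneg _) hα 2
    rw [abs_le]
    constructor <;> nlinarith [sq_nonneg α]
  have hXn : ∀ n : ℕ, 1 ≤ n → ‖X - X ^ n‖ ≤ 2 := by
    intro n _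
    calc ‖X - X ^ n‖ ≤ ‖X‖ + ‖X ^ n‖ := norm_sub_le _ _
      _ ≤ 1 + 1 := by
          rw [norm_pow]
          exact add_le_add hX (pow_le_one₀ hX0 hX)
      _ = 2 := by norm_num
  have B2 : ‖(α : ℂ) * β * (X - X ^ 3) - (β : ℂ) ^ 2 / 2 * (X - X ^ 4)‖ ≤ 29 * δ ^ 3 := by
    refine (norm_sub_le _ _).trans ?_
    rw [norm_mul, norm_mul, norm_mul, norm_div, norm_pow, norm_real, norm_real, Real.norm_eq_abs,
      Real.norm_eq_abs, abs_of_nonneg hβ0]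
    have h3 := hXn 3 (by norm_num)
    have h4 := hXn 4 (by norm_num)
    have h2 : ‖(2 : ℂ)‖ = 2 := by simp
    rw [h2]
    calc |α| * β * ‖X - X ^ 3‖ + β ^ 2 / 2 * ‖X - X ^ 4‖
        ≤ (14 * δ) * β * 2 + β ^ 2 / 2 * 2 := by gcongr
      _ = 28 * δ ^ 3 + δ ^ 4 := by rw [hβ]; ring
      _ ≤ 29 * δ ^ 3 := by
          have : δ ^ 4 ≤ δ ^ 3 := pow_le_pow_of_le_one hδ0.le (by linarith) (by norm_num)
          linarith
  have hcube : ∀ u : ℝ, 0 ≤ u → u ≤ 14.04 * δ → u ^ 3 ≤ 2768 * δ ^ 3 := by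
    intro u hu hu2
    calc u ^ 3 ≤ (14.04 * δ) ^ 3 := pow_le_pow_left₀ hu hu2 3
      _ = 2767.587264 * δ ^ 3 := by ring
      _ ≤ 2768 * δ ^ 3 := by
          have : 0 ≤ δ ^ 3 := by positivity
          nlinarith
  have B3 : ‖(log (1 - (y : ℂ)) + y + (y : ℂ) ^ 2 / 2) * X‖ ≤ 1846 * δ ^ 3 := by
    rw [norm_mul]
    have h1 : ‖(y : ℂ)‖ ^ 3 ≤ 2768 * δ ^ 3 := by
      rw [norm_real, Real.norm_eq_abs]
      exact hcube _ (abs_nonneg _) hynorm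
    calc ‖log (1 - (y : ℂ)) + y + (y : ℂ) ^ 2 / 2‖ * ‖X‖
        ≤ ((2 / 3) * ‖(y : ℂ)‖ ^ 3) * 1 := by gcongr
      _ ≤ 1846 * δ ^ 3 := by
          have : 0 ≤ δ ^ 3 := by positivity
          nlinarith
  have B4 : ‖log (1 - z) + z + z ^ 2 / 2‖ ≤ 1846 * δ ^ 3 := by
    have h1 := hcube _ (norm_nonneg z) hznorm
    refine E2.trans ?_
    have : 0 ≤ δ ^ 3 := by positivity
    nlinarith
  refine (norm_sub_le _ _).trans ?_
  refine (add_le_add_left (norm_add₃_le) _).trans ?_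
  have : 0 ≤ δ ^ 3 := by positivity
  linarith

lemma norm_z_le (α β δ : ℝ) (hδ0 : 0 < δ) (hδ : δ ≤ 1 / 32) (hα : |α| ≤ 14 * δ) (hβ : β = δ ^ 2)
    (X : ℂ) (hX : ‖X‖ ≤ 1) : ‖(α : ℂ) * X - (β : ℂ) * X ^ 2‖ < 1 := by
  have hX0 := norm_nonneg X
  have hβ0 : 0 ≤ β := by rw [hβ]; positivity
  have hβδ : β ≤ δ / 32 := by rw [hβ]; nlinarith
  calc ‖(α : ℂ) * X - (β : ℂ) * X ^ 2‖ ≤ ‖(α : ℂ) * X‖ + ‖(β : ℂ) * X ^ 2‖ := norm_sub_le _ _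
    _ = |α| * ‖X‖ + β * ‖X‖ ^ 2 := by
        rw [norm_mul, norm_mul, norm_pow, norm_real, norm_real, Real.norm_eq_abs,
          Real.norm_eq_abs, abs_of_nonneg hβ0]
    _ ≤ |α| * 1 + β * 1 := by
        gcongr
        exact pow_le_one₀ hX0 hX
    _ ≤ 14 * δ + δ / 32 := by linarith
    _ < 1 := by linarith

end Pool.Agent.Helper13.Bsd
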