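import Mathlib

/-!
# Prime sums near the edge
-/

namespace Pool.Agent.Helper13.Bsd

open Filter Topology

lemma summable_primes_rpow {x : ℝ} (hx : 1 < x) : Summable fun p : Nat.Primes => ((p : ℕ) : ℝ) ^ (-x) :=
  Nat.Primes.summable_rpow.mpr (by linarith)

lemma prime_rpow_le_half (p : Nat.Primes) {x : ℝ} (hx : 0 ≤ x) :
    ((p : ℕ) : ℝ) ^ (-(1 + x)) ≤ 1 / 2 := by
  have h2 : (2 : ℝ) ≤ ((p : ℕ) : ℝ) := by exact_mod_cast p.2.two_le
  have h1 : (1 : ℝ) ≤ ((p : ℕ) : ℝ) := by linarith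
  calc ((p : ℕ) : ℝ) ^ (-(1 + x)) ≤ ((p : ℕ) : ℝ) ^ (-(1 : ℝ)) :=
        Real.rpow_le_rpow_of_exponent_le h1 (by linarith)
    _ = (((p : ℕ) : ℝ))⁻¹ := by rw [Real.rpow_neg_one]
    _ ≤ 2⁻¹ := inv_anti₀ (by norm_num) h2
    _ = 1 / 2 := by norm_num

lemma neg_log_bounds {u : ℝ} (_h0 : 0 ≤ u) (h1 : u ≤ 1 / 2) :
    u ≤ -Real.log (1 - u) ∧ -Real.log (1 - u) ≤ u + 2 * u ^ 2 := by
  constructor
  · have := Real.log_le_sub_one_of_pos (show (0 : ℝ) < 1 - u by linarith)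
    linarith
  · have h2 := Real.one_sub_inv_le_log_of_pos (show (0 : ℝ) < 1 - u by linarith)
    have h3 : (1 - u)⁻¹ ≤ 1 + u + 2 * u ^ 2 := by
      rw [inv_le_iff_one_le_mul₀ (by linarith)]
      nlinarith [mul_nonneg (sq_nonneg u) (show (0 : ℝ) ≤ 1 - 2 * u by linarith)]
    linarith

/-- Real prime log sum. -/
noncomputable def Asum (x : ℝ) : ℝ := ∑' p : Nat.Primes, -Real.log (1 - ((p : ℕ) : ℝ) ^ (-(1 + x)))

lemma summable_Asum {x : ℝ} (hx : 0 < x) :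
    Summable fun p : Nat.Primes => -Real.log (1 - ((p : ℕ) : ℝ) ^ (-(1 + x))) := by
  refine Summable.of_nonneg_of_le (f := fun p : Nat.Primes => 2 * ((p : ℕ) : ℝ) ^ (-(1 + x))) ?_ ?_ ?_
  · intro p
    have h0 : 0 ≤ ((p : ℕ) : ℝ) ^ (-(1 + x)) := by positivity
    exact h0.trans (neg_log_bounds h0 (prime_rpow_le_half p hx.le)).1
  · intro p
    have h0 : 0 ≤ ((p : ℕ) : ℝ) ^ (-(1 + x)) := by positivity
    have h1 := prime_rpow_le_half p hx.le
    refine (neg_log_bounds h0 h1).2.trans ?_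
    nlinarith
  · exact (summable_primes_rpow (by linarith)).mul_left 2

lemma norm_zeta_eq {x : ℝ} (hx : 0 < x) : ‖riemannZeta (1 + x)‖ = Real.exp (Asum x) := by
  have hs : 1 < ((1 : ℂ) + x).re := by simp; exact hx
  rw [← riemannZeta_eulerProduct_exp_log hs, Complex.norm_exp]
  congr 1
  have h1 : ∀ p : Nat.Primes, -Complex.log (1 - ((p : ℕ) : ℂ) ^ (-((1 : ℂ) + x)))
      = ((-Real.log (1 - ((p : ℕ) : ℝ) ^ (-(1 + x))) : ℝ) : ℂ) := by
    intro p
    have h0 : 0 ≤ ((p : ℕ) : ℝ) ^ (-(1 + x)) := by positivity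
    have h2 := prime_rpow_le_half p hx.le
    rw [Complex.ofReal_neg, Complex.ofReal_log (by linarith)]
    congr 2
    rw [Complex.ofReal_sub, Complex.ofReal_one, Complex.ofReal_cpow (by positivity)]
    push_cast
    rfl
  simp_rw [h1]
  rw [← Complex.ofReal_tsum, Complex.ofReal_re]
  rfl

theorem prime_diff_bounded : ∃ C δ : ℝ, 0 < δ ∧ ∀ w : ℝ, 0 < w → w < δ →
    ∑' p : Nat.Primes, (((p : ℕ) : ℝ) ^ (-(1 + w)) - ((p : ℕ) : ℝ) ^ (-(1 + 2 * w))) ≤ C := by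
  have hres := riemannZeta_residue_one
  rw [Metric.tendsto_nhdsWithin_nhds] at hres
  obtain ⟨δ, hδ, hres⟩ := hres (1 / 2) (by norm_num)
  have hz : ∀ x : ℝ, 0 < x → x < δ → 1 / 2 ≤ x * Real.exp (Asum x) ∧
      x * Real.exp (Asum x) ≤ 3 / 2 := by
    intro x hx hxδ
    have hne : ((1 : ℂ) + x) ∈ ({1}ᶜ : Set ℂ) := by
      simp only [Set.mem_compl_iff, Set.mem_singleton_iff, add_eq_left, Complex.ofReal_eq_zero]
      exact hx.ne'
    have h1 := hres hne (by simpa [dist_eq_norm, abs_of_pos hx] using hxδ)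
    rw [dist_eq_norm] at h1
    have h2 : ‖((1 : ℂ) + x - 1) * riemannZeta (1 + x)‖ = x * Real.exp (Asum x) := by
      rw [norm_mul, norm_zeta_eq hx]
      congr 1
      simp [abs_of_pos hx]
    have h3 := norm_sub_norm_le (((1 : ℂ) + x - 1) * riemannZeta (1 + x)) 1
    have h4 := norm_sub_norm_le 1 (((1 : ℂ) + x - 1) * riemannZeta (1 + x))
    rw [norm_sub_rev] at h4
    rw [h2, norm_one] at h3 h4
    constructor <;> linarith
  refine ⟨Real.log 6 + 2 * ∑' p : Nat.Primes, ((p : ℕ) : ℝ) ^ (-(2 : ℝ)), δ / 2, by positivity, ?_⟩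
  intro w hw hwδ
  obtain ⟨-, a2⟩ := hz w hw (by linarith)
  obtain ⟨b1, -⟩ := hz (2 * w) (by linarith) (by linarith)
  have hA : Asum w - Asum (2 * w) ≤ Real.log 6 := by
    rw [Real.le_log_iff_exp_le (by norm_num), Real.exp_sub, div_le_iff₀ (Real.exp_pos _)]
    have h5 : w * Real.exp (Asum w) ≤ w * (6 * Real.exp (Asum (2 * w))) := by nlinarith
    exact le_of_mul_le_mul_left h5 hw
  have hsum2 : Summable fun p : Nat.Primes => ((p : ℕ) : ℝ) ^ (-(2 : ℝ)) :=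
    summable_primes_rpow (by norm_num)
  have hsw := summable_Asum hw
  have hs2w := summable_Asum (show 0 < 2 * w by linarith)
  have hle : ∑' p : Nat.Primes, (((p : ℕ) : ℝ) ^ (-(1 + w)) - ((p : ℕ) : ℝ) ^ (-(1 + 2 * w)))
      ≤ ∑' p : Nat.Primes, ((-Real.log (1 - ((p : ℕ) : ℝ) ^ (-(1 + w)))
        - -Real.log (1 - ((p : ℕ) : ℝ) ^ (-(1 + 2 * w)))) + 2 * ((p : ℕ) : ℝ) ^ (-(2 : ℝ))) := by
    apply Summable.tsum_le_tsum
    · intro p
      have h0 : 0 ≤ ((p : ℕ) : ℝ) ^ (-(1 + w)) := by positivity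
      have h1 := prime_rpow_le_half p hw.le
      have h0' : 0 ≤ ((p : ℕ) : ℝ) ^ (-(1 + 2 * w)) := by positivity
      have h1' := prime_rpow_le_half p (show 0 ≤ 2 * w by linarith)
      have k1 := (neg_log_bounds h0 h1).1
      have k2 := (neg_log_bounds h0' h1').2
      have k3 : (((p : ℕ) : ℝ) ^ (-(1 + 2 * w))) ^ 2 ≤ ((p : ℕ) : ℝ) ^ (-(2 : ℝ)) := by
        have hp1 : (1 : ℝ) ≤ ((p : ℕ) : ℝ) := by exact_mod_cast p.2.one_le
        rw [← Real.rpow_natCast, ← Real.rpow_mul (by positivity)]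
        apply Real.rpow_le_rpow_of_exponent_le hp1
        push_cast
        linarith
      linarith
    · exact (summable_primes_rpow (by linarith)).sub (summable_primes_rpow (by linarith))
    · exact (hsw.sub hs2w).add (hsum2.mul_left 2)
  refine hle.trans ?_
  rw [(hsw.sub hs2w).tsum_add (hsum2.mul_left 2), hsw.tsum_sub hs2w, tsum_mul_left]
  have : (∑' p : Nat.Primes, -Real.log (1 - ((p : ℕ) : ℝ) ^ (-(1 + w))))
      - (∑' p : Nat.Primes, -Real.log (1 - ((p : ℕ) : ℝ) ^ (-(1 + 2 * w)))) = Asum w - Asum (2 * w) :=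
    rfl
  linarith

end Pool.Agent.Helper13.Bsd
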