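import Mathlib
import Pool.Agent.Helper13.Bsd.Local
import Pool.Agent.Helper13.Bsd.PrimeSums

/-!
# The Euler product and the auxiliary functions
-/

namespace Pool.Agent.Helper13.Bsd

open Complex Filter Topology

section

variable (N : ℕ → ℕ) (bad : ℕ → Prop) [DecidablePred bad]

/-- normalised trace of Frobenius -/
noncomputable def alp (p : ℕ) : ℝ := ((p : ℝ) + 1 - N p) / p

/-- `log (N_p / p)` -/
noncomputable def ell (p : ℕ) : ℝ := Real.log ((N p : ℝ) / p)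

/-- `z_p(w) = a_p p^{-1-w} - p^{-1-2w}` -/
noncomputable def zz (p : ℕ) (w : ℂ) : ℂ :=
  (alp N p : ℂ) * (p : ℂ) ^ (-w) - (((p : ℝ)⁻¹ : ℝ) : ℂ) * ((p : ℂ) ^ (-w)) ^ 2

/-- terms of `H` -/
noncomputable def hterm (p : ℕ) (w : ℂ) : ℂ :=
  if bad p ∨ p < 1024 then 0 else (ell N p : ℂ) * (p : ℂ) ^ (-w) - log (1 - zz N p w)

/-- The function `H`. -/
noncomputable def Hf (w : ℂ) : ℂ := ∑' p : Nat.Primes, hterm N bad p w

lemma finite_small : {p : Nat.Primes | (p : ℕ) < 1024}.Finite := by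
  have : Function.Injective (fun p : Nat.Primes => (p : ℕ)) := Subtype.coe_injective
  exact Set.Finite.preimage (this.injOn) (Set.finite_Iio 1024)

/-- small primes -/
noncomputable def smallP : Finset Nat.Primes := finite_small.toFinset

lemma mem_smallP (p : Nat.Primes) : p ∈ smallP ↔ (p : ℕ) < 1024 := by
  simp [smallP]

/-- contribution of small primes -/
noncomputable def D0 (w : ℂ) : ℂ := ∑ p ∈ smallP, if bad p then 0 else (ell N p : ℂ) * ((p : ℕ) : ℂ) ^ (-w)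

/-- `F(1+w)` with the small factors removed -/
noncomputable def Gf (F : ℂ → ℂ) (w : ℂ) : ℂ :=
  F (1 + w) * ∏ p ∈ smallP, if bad p then 1 else 1 - zz N p w

/-- The Dirichlet series `∑ ℓ_p p^{-w}` -/
noncomputable def Df (w : ℂ) : ℂ :=
  ∑' p : Nat.Primes, if bad p then 0 else (ell N p : ℂ) * ((p : ℕ) : ℂ) ^ (-w)

omit [DecidablePred bad] in
lemma factor_eq (p : ℕ) (hp : p.Prime) (w : ℂ) :
    1 - ((p : ℂ) + 1 - ((N p : ℕ) : ℂ)) * (p : ℂ) ^ (-(1 + w)) + (p : ℂ) ^ (1 - 2 * (1 + w))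
      = 1 - zz N p w := by
  have hp0 : (p : ℂ) ≠ 0 := by exact_mod_cast hp.ne_zero
  have e1 : (p : ℂ) ^ (-(1 + w)) = (p : ℂ)⁻¹ * (p : ℂ) ^ (-w) := by
    rw [neg_add, cpow_add _ _ hp0, cpow_neg_one]
  have e2 : (p : ℂ) ^ (1 - 2 * (1 + w)) = (p : ℂ)⁻¹ * ((p : ℂ) ^ (-w)) ^ 2 := by
    have : (1 : ℂ) - 2 * (1 + w) = -1 + (-w + -w) := by ring
    rw [this, cpow_add _ _ hp0, cpow_add _ _ hp0, cpow_neg_one]
    ring
  rw [e1, e2, zz, alp]
  push_cast
  field_simp
  ring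

omit [DecidablePred bad] in
lemma ell_eq (p : ℕ) (hp : p.Prime) : ell N p = Real.log (1 - alp N p + (p : ℝ)⁻¹) := by
  have hp0 : (p : ℝ) ≠ 0 := by exact_mod_cast hp.ne_zero
  rw [ell, alp]
  congr 1
  field_simp
  ring

variable (hN : ∀ p : ℕ, p.Prime → 1 ≤ N p)
  (hH : ∀ p : ℕ, p.Prime → |(p : ℝ) + 1 - N p| ≤ 14 * Real.sqrt p)

include hH in
lemma alp_bound (p : ℕ) (hp : p.Prime) : |alp N p| ≤ 14 * (Real.sqrt p)⁻¹ := by
  have hp0 : (0 : ℝ) < p := by exact_mod_cast hp.pos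
  rw [alp, abs_div, abs_of_pos hp0, div_le_iff₀ hp0]
  refine (hH p hp).trans_eq ?_
  have hs : Real.sqrt p ≠ 0 := (Real.sqrt_pos.mpr hp0).ne'
  have : (p : ℝ) = Real.sqrt p * Real.sqrt p := (Real.mul_self_sqrt hp0.le).symm
  conv_rhs => rw [this]
  rw [Real.sqrt_mul_self (Real.sqrt_nonneg _)]
  field_simp

omit [DecidablePred bad] in
lemma norm_X (p : ℕ) (hp : p.Prime) (w : ℂ) : ‖(p : ℂ) ^ (-w)‖ = (p : ℝ) ^ (-w.re) := by
  have hp0 : 0 < p := hp.pos
  rw [norm_natCast_cpow_of_pos hp0]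
  simp

lemma norm_X_le_one (p : ℕ) (hp : p.Prime) (w : ℂ) (hw : 0 ≤ w.re) : ‖(p : ℂ) ^ (-w)‖ ≤ 1 := by
  rw [norm_X p hp]
  exact Real.rpow_le_one_of_one_le_of_nonpos (by exact_mod_cast hp.one_le) (by linarith)

lemma delta_facts (p : ℕ) (hp : p.Prime) (hbig : ¬ p < 1024) :
    0 < (Real.sqrt p)⁻¹ ∧ (Real.sqrt p)⁻¹ ≤ 1 / 32 ∧ (p : ℝ)⁻¹ = ((Real.sqrt p)⁻¹) ^ 2 := by
  have hp0 : (0 : ℝ) < p := by exact_mod_cast hp.pos
  have hs : 0 < Real.sqrt p := Real.sqrt_pos.mpr hp0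
  refine ⟨by positivity, ?_, ?_⟩
  · rw [one_div]
    apply inv_anti₀ (by norm_num)
    rw [Real.le_sqrt' (by norm_num)]
    have : (1024 : ℝ) ≤ p := by
      push Not at hbig
      exact_mod_cast hbig
    linarith
  · rw [inv_pow, Real.sq_sqrt hp0.le]

include hH in
lemma zz_norm_lt (p : ℕ) (hp : p.Prime) (hbig : ¬ p < 1024) (w : ℂ) (hw : 0 ≤ w.re) :
    ‖zz N p w‖ < 1 := by
  obtain ⟨h1, h2, h3⟩ := delta_facts p hp hbig
  exact norm_z_le (alp N p) ((p : ℝ)⁻¹) _ h1 h2 (alp_bound N hH p hp) h3 _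
    (norm_X_le_one p hp w hw)

include hH in
lemma hterm_bound (p : ℕ) (hp : p.Prime) (w : ℂ) (hw : 0 ≤ w.re) :
    ‖hterm N bad p w‖ ≤ 99 * (p : ℝ)⁻¹ * ‖(p : ℂ) ^ (-w) - ((p : ℂ) ^ (-w)) ^ 2‖
      + 4000 * (p : ℝ) ^ (-(3 / 2 : ℝ)) := by
  unfold hterm
  split_ifs with h
  · rw [norm_zero]; positivity
  · push Not at h
    have hbig : ¬ p < 1024 := by omega
    obtain ⟨h1, h2, h3⟩ := delta_facts p hp hbig
    have h4 := core_bound (alp N p) ((p : ℝ)⁻¹) _ h1 h2 (alp_bound N hH p hp) h3 _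
      (norm_X_le_one p hp w hw)
    rw [← ell_eq N p hp] at h4
    have hp0 : (0 : ℝ) ≤ p := by positivity
    have e : ((Real.sqrt p)⁻¹) ^ 3 = (p : ℝ) ^ (-(3 / 2 : ℝ)) := by
      rw [Real.rpow_neg hp0, inv_pow]
      congr 1
      rw [Real.sqrt_eq_rpow, ← Real.rpow_natCast, ← Real.rpow_mul hp0]
      norm_num
    rw [← h3, e] at h4
    exact h4

lemma differentiable_X (p : ℕ) (hp : p.Prime) : Differentiable ℂ (fun w : ℂ => (p : ℂ) ^ (-w)) := by
  intro w
  have hp0 : (p : ℂ) ≠ 0 := by exact_mod_cast hp.ne_zero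
  exact (differentiableAt_id.neg).const_cpow (Or.inl hp0)

lemma differentiable_zz (p : ℕ) (hp : p.Prime) : Differentiable ℂ (zz N p) := by
  unfold zz
  have := differentiable_X p hp
  fun_prop

include hH in
lemma differentiableOn_hterm (p : ℕ) (hp : p.Prime) :
    DifferentiableOn ℂ (hterm N bad p) {w | 0 < w.re} := by
  unfold hterm
  split_ifs with h
  · exact differentiableOn_const _
  · push Not at h
    have hbig : ¬ p < 1024 := by omega
    intro w hw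
    apply DifferentiableAt.differentiableWithinAt
    apply DifferentiableAt.sub
    · exact ((differentiable_X p hp) w).const_mul _
    · apply DifferentiableAt.clog
      · exact (differentiableAt_const _).sub ((differentiable_zz N p hp) w)
      · have := zz_norm_lt N hH p hp hbig w (le_of_lt hw)
        rw [sub_eq_add_neg]
        exact mem_slitPlane_of_norm_lt_one (by rwa [norm_neg])

include hH in
lemma differentiableOn_Hf : DifferentiableOn ℂ (Hf N bad) {w | 0 < w.re} := by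
  intro w0 hw0
  have hw0' : 0 < w0.re := hw0
  set σ := w0.re / 2 with hσ
  have hσ0 : 0 < σ := by positivity
  have hopen : IsOpen {w : ℂ | σ < w.re} := isOpen_lt continuous_const continuous_re
  have hsum : Summable fun p : Nat.Primes =>
      198 * ((p : ℕ) : ℝ) ^ (-(1 + σ)) + 4000 * ((p : ℕ) : ℝ) ^ (-(3 / 2 : ℝ)) :=
    ((summable_primes_rpow (by linarith)).mul_left _).add
      ((summable_primes_rpow (by norm_num)).mul_left _)
  have key : DifferentiableOn ℂ (Hf N bad) {w : ℂ | σ < w.re} := by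
    unfold Hf
    apply differentiableOn_tsum_of_summable_norm hsum
    · intro p
      exact (differentiableOn_hterm N bad hH p p.2).mono fun w hw =>
        show 0 < w.re from hσ0.trans hw
    · exact hopen
    · intro p w hw
      have hw' : σ < w.re := hw
      refine (hterm_bound N bad hH p p.2 w (by linarith)).trans ?_
      have hp1 : (1 : ℝ) ≤ ((p : ℕ) : ℝ) := by exact_mod_cast p.2.one_le
      have hp0 : (0 : ℝ) < ((p : ℕ) : ℝ) := by linarith
      have hX : ‖((p : ℕ) : ℂ) ^ (-w)‖ ≤ ((p : ℕ) : ℝ) ^ (-σ) := by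
        rw [norm_X p p.2]
        exact Real.rpow_le_rpow_of_exponent_le hp1 (by linarith)
      have hX1 := norm_X_le_one p p.2 w (by linarith)
      have h2 : ‖((p : ℕ) : ℂ) ^ (-w) - (((p : ℕ) : ℂ) ^ (-w)) ^ 2‖ ≤ 2 * ((p : ℕ) : ℝ) ^ (-σ) := by
        refine (norm_sub_le _ _).trans ?_
        rw [norm_pow]
        nlinarith [norm_nonneg (((p : ℕ) : ℂ) ^ (-w))]
      have e : ((p : ℕ) : ℝ) ^ (-(1 + σ)) = (((p : ℕ) : ℝ))⁻¹ * ((p : ℕ) : ℝ) ^ (-σ) := by
        rw [neg_add, Real.rpow_add hp0, Real.rpow_neg_one]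
      rw [e]
      have h3 : (0 : ℝ) ≤ (((p : ℕ) : ℝ))⁻¹ := by positivity
      nlinarith [mul_le_mul_of_nonneg_left h2 h3]
  exact ((key w0 (by show σ < w0.re; linarith)).differentiableAt
    (hopen.mem_nhds (by show σ < w0.re; linarith))).differentiableWithinAt

include hH in
lemma Hf_bounded : ∃ C δ : ℝ, 0 < δ ∧ ∀ w : ℝ, 0 < w → w < δ → ‖Hf N bad (w : ℂ)‖ ≤ C := by
  obtain ⟨C, δ, hδ, hC⟩ := prime_diff_bounded
  refine ⟨99 * C + 4000 * ∑' p : Nat.Primes, ((p : ℕ) : ℝ) ^ (-(3 / 2 : ℝ)), δ, hδ, ?_⟩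
  intro w hw hwδ
  have hs1 : Summable fun p : Nat.Primes =>
      (((p : ℕ) : ℝ) ^ (-(1 + w)) - ((p : ℕ) : ℝ) ^ (-(1 + 2 * w))) :=
    (summable_primes_rpow (by linarith)).sub (summable_primes_rpow (by linarith))
  have hs2 : Summable fun p : Nat.Primes => ((p : ℕ) : ℝ) ^ (-(3 / 2 : ℝ)) :=
    summable_primes_rpow (by norm_num)
  have hb : ∀ p : Nat.Primes, ‖hterm N bad p (w : ℂ)‖ ≤
      99 * (((p : ℕ) : ℝ) ^ (-(1 + w)) - ((p : ℕ) : ℝ) ^ (-(1 + 2 * w)))
      + 4000 * ((p : ℕ) : ℝ) ^ (-(3 / 2 : ℝ)) := by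
    intro p
    refine (hterm_bound N bad hH p p.2 w (by simpa using hw.le)).trans ?_
    have hp1 : (1 : ℝ) ≤ ((p : ℕ) : ℝ) := by exact_mod_cast p.2.one_le
    have hp0 : (0 : ℝ) < ((p : ℕ) : ℝ) := by linarith
    have e0 : ((p : ℕ) : ℂ) ^ (-(w : ℂ)) = ((((p : ℕ) : ℝ) ^ (-w) : ℝ) : ℂ) := by
      rw [ofReal_cpow hp0.le]
      push_cast
      rfl
    have hX1 : ((p : ℕ) : ℝ) ^ (-w) ≤ 1 :=
      Real.rpow_le_one_of_one_le_of_nonpos hp1 (by linarith)
    have hX0 : 0 ≤ ((p : ℕ) : ℝ) ^ (-w) := by positivity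
    have e1 : ‖((p : ℕ) : ℂ) ^ (-(w : ℂ)) - (((p : ℕ) : ℂ) ^ (-(w : ℂ))) ^ 2‖
        = ((p : ℕ) : ℝ) ^ (-w) - (((p : ℕ) : ℝ) ^ (-w)) ^ 2 := by
      rw [e0, ← ofReal_pow, ← ofReal_sub, norm_real, Real.norm_eq_abs, abs_of_nonneg]
      nlinarith
    have e2 : ((p : ℕ) : ℝ) ^ (-(1 + w)) = (((p : ℕ) : ℝ))⁻¹ * ((p : ℕ) : ℝ) ^ (-w) := by
      rw [neg_add, Real.rpow_add hp0, Real.rpow_neg_one]
    have e3 : ((p : ℕ) : ℝ) ^ (-(1 + 2 * w)) = (((p : ℕ) : ℝ))⁻¹ * (((p : ℕ) : ℝ) ^ (-w)) ^ 2 := by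
      rw [neg_add, Real.rpow_add hp0, Real.rpow_neg_one, ← Real.rpow_natCast,
        ← Real.rpow_mul hp0.le]
      congr 2
      push_cast
      ring
    rw [e1, e2, e3]
    apply le_of_eq
    ring
  have hs3 := (hs1.mul_left 99).add (hs2.mul_left 4000)
  have hs4 : Summable fun p : Nat.Primes => ‖hterm N bad p (w : ℂ)‖ :=
    Summable.of_nonneg_of_le (fun _ => norm_nonneg _) hb hs3
  calc ‖Hf N bad (w : ℂ)‖ ≤ ∑' p : Nat.Primes, ‖hterm N bad p (w : ℂ)‖ := norm_tsum_le_tsum_norm hs4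
    _ ≤ _ := hs4.tsum_le_tsum hb hs3
    _ = 99 * (∑' p : Nat.Primes, (((p : ℕ) : ℝ) ^ (-(1 + w)) - ((p : ℕ) : ℝ) ^ (-(1 + 2 * w))))
        + 4000 * ∑' p : Nat.Primes, ((p : ℕ) : ℝ) ^ (-(3 / 2 : ℝ)) := by
        rw [(hs1.mul_left 99).tsum_add (hs2.mul_left 4000), tsum_mul_left, tsum_mul_left]
    _ ≤ _ := by
        have := hC w hw hwδ
        linarith

omit [DecidablePred bad] in
include hN in
/-- The local factors do not vanish on the nonnegative real axis. -/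
lemma one_sub_zz_ne_zero (p : ℕ) (hp : p.Prime) (x : ℝ) (hx : 0 ≤ x) : 1 - zz N p (x : ℂ) ≠ 0 := by
  have hp1 : (1 : ℝ) ≤ (p : ℝ) := by exact_mod_cast hp.one_le
  have hp0 : (0 : ℝ) < p := by linarith
  have e0 : (p : ℂ) ^ (-(x : ℂ)) = (((p : ℝ) ^ (-x) : ℝ) : ℂ) := by
    rw [ofReal_cpow hp0.le]
    push_cast
    rfl
  have hX1 : (p : ℝ) ^ (-x) ≤ 1 := Real.rpow_le_one_of_one_le_of_nonpos hp1 (by linarith)
  have hX0 : 0 < (p : ℝ) ^ (-x) := by positivity
  set X := (p : ℝ) ^ (-x)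
  have hN1 : (1 : ℝ) ≤ N p := by exact_mod_cast hN p hp
  have halp : alp N p ≤ 1 := by
    rw [alp, div_le_one hp0]
    linarith
  have hinv : 0 < (p : ℝ)⁻¹ := by positivity
  have e1 : 1 - zz N p (x : ℂ) = ((1 - (alp N p * X - (p : ℝ)⁻¹ * X ^ 2) : ℝ) : ℂ) := by
    rw [zz, e0]
    push_cast
    ring
  rw [e1]
  have hpos : 0 < 1 - (alp N p * X - (p : ℝ)⁻¹ * X ^ 2) := by
    have h1 : alp N p * X ≤ 1 * X := mul_le_mul_of_nonneg_right halp hX0.le
    have h2 : 0 < (p : ℝ)⁻¹ * X ^ 2 := by positivity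
    linarith
  exact_mod_cast hpos.ne'

include hN hH in
lemma ell_bound (p : ℕ) (hp : p.Prime) : |ell N p| ≤ 2 * p := by
  have hp2 : (2 : ℝ) ≤ (p : ℝ) := by exact_mod_cast hp.two_le
  have hp0 : (0 : ℝ) < p := by linarith
  have hN1 : (1 : ℝ) ≤ N p := by exact_mod_cast hN p hp
  have hs : Real.sqrt p ≤ p := by
    rw [Real.sqrt_le_left hp0.le]
    nlinarith
  have hN2 : (N p : ℝ) ≤ 16 * p := by
    have := (abs_le.mp (hH p hp)).1
    linarith
  rw [ell, abs_le]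
  constructor
  · have h1 : (p : ℝ)⁻¹ ≤ (N p : ℝ) / p := by
      rw [div_eq_mul_inv]
      have : 0 < (p : ℝ)⁻¹ := by positivity
      nlinarith
    have h2 := Real.log_le_log (by positivity) h1
    rw [Real.log_inv] at h2
    have h3 := Real.log_le_sub_one_of_pos hp0
    linarith
  · have h1 : (N p : ℝ) / p ≤ 16 := by
      rw [div_le_iff₀ hp0]
      exact hN2
    have h2 := Real.log_le_log (by positivity) h1
    have h3 : Real.log 16 ≤ 4 := by
      have e : (16 : ℝ) = 2 ^ 4 := by norm_num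
      rw [e, Real.log_pow]
      have := Real.log_two_lt_d9
      push_cast
      linarith
    linarith

include hN hH in
lemma summable_Df (x : ℝ) (hx : 2 < x) : Summable fun p : Nat.Primes =>
    (if bad p then 0 else |ell N p|) * ((p : ℕ) : ℝ) ^ (-x) := by
  refine Summable.of_nonneg_of_le (f := fun p : Nat.Primes => 2 * ((p : ℕ) : ℝ) ^ (-(x - 1))) ?_ ?_ ?_
  · intro p
    split_ifs <;> positivity
  · intro p
    have hp0 : (0 : ℝ) < ((p : ℕ) : ℝ) := by exact_mod_cast p.2.pos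
    have h1 : (if bad p then 0 else |ell N p|) ≤ 2 * ((p : ℕ) : ℝ) := by
      split_ifs
      · positivity
      · exact ell_bound N hN hH p p.2
    have e : ((p : ℕ) : ℝ) ^ (-(x - 1)) = ((p : ℕ) : ℝ) * ((p : ℕ) : ℝ) ^ (-x) := by
      have : -(x - 1) = 1 + -x := by ring
      rw [this, Real.rpow_add hp0, Real.rpow_one]
    rw [e]
    have h2 : 0 ≤ ((p : ℕ) : ℝ) ^ (-x) := by positivity
    nlinarith [mul_le_mul_of_nonneg_right h1 h2]
  · exact (summable_primes_rpow (by linarith)).mul_left _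

include hH in
lemma zz_norm_le_far (p : ℕ) (hp : p.Prime) (w : ℂ) (hw : 10 < w.re) :
    ‖zz N p w‖ ≤ 15 * (p : ℝ) ^ (-(10 : ℝ)) ∧ ‖zz N p w‖ ≤ 1 / 2 := by
  have hp2 : (2 : ℝ) ≤ (p : ℝ) := by exact_mod_cast hp.two_le
  have hp1 : (1 : ℝ) ≤ (p : ℝ) := by linarith
  have hp0 : (0 : ℝ) < p := by linarith
  have hX : ‖(p : ℂ) ^ (-w)‖ ≤ (p : ℝ) ^ (-(10 : ℝ)) := by
    rw [norm_X p hp]
    exact Real.rpow_le_rpow_of_exponent_le hp1 (by linarith)
  have hX1 := norm_X_le_one p hp w (by linarith)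
  have ha : |alp N p| ≤ 14 := by
    refine (alp_bound N hH p hp).trans ?_
    have : (Real.sqrt p)⁻¹ ≤ 1 := by
      apply inv_le_one_of_one_le₀
      rw [Real.one_le_sqrt]
      exact hp1
    linarith
  have hinv : (p : ℝ)⁻¹ ≤ 1 := inv_le_one_of_one_le₀ hp1
  have h1 : ‖zz N p w‖ ≤ 15 * ‖(p : ℂ) ^ (-w)‖ := by
    rw [zz]
    refine (norm_sub_le _ _).trans ?_
    rw [norm_mul, norm_mul, norm_pow, norm_real, norm_real, Real.norm_eq_abs, Real.norm_eq_abs,
      abs_of_pos (by positivity : 0 < (p : ℝ)⁻¹)]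
    have h0 := norm_nonneg ((p : ℂ) ^ (-w))
    calc |alp N p| * ‖(p : ℂ) ^ (-w)‖ + (p : ℝ)⁻¹ * ‖(p : ℂ) ^ (-w)‖ ^ 2
        ≤ 14 * ‖(p : ℂ) ^ (-w)‖ + 1 * ‖(p : ℂ) ^ (-w)‖ ^ 2 := by gcongr
      _ ≤ _ := by nlinarith
  have h2 : ‖zz N p w‖ ≤ 15 * (p : ℝ) ^ (-(10 : ℝ)) := h1.trans (by gcongr)
  refine ⟨h2, h2.trans ?_⟩
  have h3 : (p : ℝ) ^ (-(10 : ℝ)) ≤ (2 : ℝ) ^ (-(10 : ℝ)) :=
    Real.rpow_le_rpow_of_nonpos (by norm_num) hp2 (by norm_num)
  have h4 : (2 : ℝ) ^ (-(10 : ℝ)) = 1 / 1024 := by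
    rw [Real.rpow_neg (by norm_num)]
    norm_num
  rw [h4] at h3
  linarith

include hN hH in
theorem euler_identity (F : ℂ → ℂ)
    (hF : ∀ s : ℂ, 3 / 2 < s.re → HasProd (fun p : Nat.Primes =>
      if bad (p : ℕ) then (1 : ℂ)
      else (1 - (((p : ℕ) : ℂ) + 1 - ((N (p : ℕ) : ℕ) : ℂ)) * ((p : ℕ) : ℂ) ^ (-s)
              + ((p : ℕ) : ℂ) ^ (1 - 2 * s))⁻¹) (F s))
    (w : ℂ) (hw : 10 < w.re) :
    Gf N bad F w = exp (Hf N bad w + D0 N bad w - Df N bad w) := by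
  -- the log terms
  set lt : Nat.Primes → ℂ := fun p => if bad p then 0 else -log (1 - zz N p w) with hlt
  have hlt_bound : ∀ p : Nat.Primes, ‖lt p‖ ≤ 45 / 2 * ((p : ℕ) : ℝ) ^ (-(10 : ℝ)) := by
    intro p
    simp only [hlt]
    split_ifs
    · rw [norm_zero]; positivity
    · obtain ⟨h1, h2⟩ := zz_norm_le_far N hH p p.2 w hw
      have h3 := norm_log_one_add_half_le_self (z := -zz N p w) (by rwa [norm_neg])
      rw [norm_neg, ← sub_eq_add_neg] at h3
      rw [norm_neg]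
      linarith
  have hlt_sum : Summable lt := by
    apply Summable.of_norm
    exact Summable.of_nonneg_of_le (fun _ => norm_nonneg _) hlt_bound
      ((summable_primes_rpow (by norm_num)).mul_left _)
  have hprod := hlt_sum.hasSum.cexp
  have hFw : F (1 + w) = exp (∑' p, lt p) := by
    have h1 := hF (1 + w) (by simp; linarith)
    refine h1.unique ?_
    convert! hprod using 1
    funext p
    simp only [Function.comp, hlt]
    split_ifs
    · simp
    · rw [factor_eq N p p.2 w, exp_neg, exp_log]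
      intro h0
      have h2 := (zz_norm_le_far N hH p p.2 w hw).2
      have h3 : zz N p w = 1 := by linear_combination -h0
      rw [h3, norm_one] at h2
      norm_num at h2
  -- the decomposition
  set dt : Nat.Primes → ℂ := fun p => if bad p then 0 else (ell N p : ℂ) * ((p : ℕ) : ℂ) ^ (-w)
    with hdt
  have hdt_sum : Summable dt := by
    apply Summable.of_norm
    refine (summable_Df N bad hN hH w.re (by linarith)).congr fun p => ?_
    simp only [hdt]
    split_ifs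
    · simp
    · rw [norm_mul, norm_real, Real.norm_eq_abs, norm_X p p.2]
  set st : Nat.Primes → ℂ := fun p => if bad p ∨ ¬ (p : ℕ) < 1024 then 0 else
    (ell N p : ℂ) * ((p : ℕ) : ℂ) ^ (-w) - log (1 - zz N p w) with hst
  have hst_zero : ∀ p ∉ smallP, st p = 0 := by
    intro p hp
    rw [mem_smallP] at hp
    simp only [hst]
    rw [if_pos (Or.inr hp)]
  have hst_sum : Summable st := summable_of_ne_finset_zero hst_zero
  have hdecomp : ∀ p : Nat.Primes, hterm N bad p w = lt p + dt p - st p := by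
    intro p
    simp only [hterm, hlt, hdt, hst]
    by_cases h1 : bad p
    · simp [h1]
    · by_cases h2 : (p : ℕ) < 1024
      · simp [h1, h2]
        ring
      · simp [h1, h2]
        ring
  have hHf : Hf N bad w = (∑' p, lt p) + Df N bad w - ∑ p ∈ smallP, st p := by
    rw [Hf, tsum_congr hdecomp, (hlt_sum.add hdt_sum).tsum_sub hst_sum,
      hlt_sum.tsum_add hdt_sum, tsum_eq_sum hst_zero]
    rfl
  have hgoal : Hf N bad w + D0 N bad w - Df N bad w
      = (∑' p, lt p) + ∑ p ∈ smallP, (if bad p then 0 else log (1 - zz N p w)) := by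
    rw [hHf, D0]
    have : ∑ p ∈ smallP, (if bad p then 0 else (ell N p : ℂ) * ((p : ℕ) : ℂ) ^ (-w))
        = ∑ p ∈ smallP, st p + ∑ p ∈ smallP, (if bad p then 0 else log (1 - zz N p w)) := by
      rw [← Finset.sum_add_distrib]
      apply Finset.sum_congr rfl
      intro p hp
      rw [mem_smallP] at hp
      simp only [hst]
      by_cases h1 : bad p
      · simp [h1]
      · simp [h1, hp]
    rw [this]
    ring
  rw [hgoal, exp_add, ← hFw, Gf, exp_sum]
  congr 1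
  apply Finset.prod_congr rfl
  intro p _
  split_ifs
  · simp
  · rw [exp_log]
    intro h0
    have h2 := (zz_norm_le_far N hH p p.2 w hw).2
    have h3 : zz N p w = 1 := by linear_combination -h0
    rw [h3, norm_one] at h2
    norm_num at h2

lemma differentiable_D0 : Differentiable ℂ (D0 N bad) := by
  unfold D0
  apply Differentiable.fun_sum
  intro p _
  split_ifs
  · exact differentiable_const _
  · exact (differentiable_X p p.2).const_mul _

lemma differentiable_Gf (F : ℂ → ℂ) (hF : Differentiable ℂ F) : Differentiable ℂ (Gf N bad F) := by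
  unfold Gf
  apply Differentiable.mul
  · exact hF.comp (differentiable_id.const_add 1)
  · apply Differentiable.fun_finsetProd
    intro p _
    split_ifs
    · exact differentiable_const _
    · exact (differentiable_const _).sub (differentiable_zz N p p.2)

end

end Pool.Agent.Helper13.Bsd
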