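import Mathlib

/-!
# Landau's theorem for Laplace transforms of positive measures
-/

namespace Pool.Agent.Helper13.Bsd

open MeasureTheory ProbabilityTheory Filter Topology Metric
open scoped ENNReal

/-- A sum of nonnegative integrable functions with summable integrals is integrable. -/
lemma integrable_of_hasSum_nonneg {α : Type*} [MeasurableSpace α] {μ : Measure α}
    (F : ℕ → α → ℝ) (f : α → ℝ) (hF : ∀ n, Integrable (F n) μ) (h0 : ∀ n, ∀ᵐ a ∂μ, 0 ≤ F n a)
    (hsum : Summable fun n => ∫ a, F n a ∂μ) (hf : AEStronglyMeasurable f μ)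
    (hlim : ∀ᵐ a ∂μ, HasSum (fun n => F n a) (f a)) : Integrable f μ := by
  have h0' : ∀ᵐ a ∂μ, ∀ n, 0 ≤ F n a := ae_all_iff.mpr h0
  have hf0 : 0 ≤ᵐ[μ] f := by
    filter_upwards [h0', hlim] with a h1 h2
    exact h2.nonneg h1
  refine ⟨hf, ?_⟩
  rw [hasFiniteIntegral_iff_ofReal hf0]
  have e1 : ∫⁻ a, ENNReal.ofReal (f a) ∂μ = ∫⁻ a, ∑' n, ENNReal.ofReal (F n a) ∂μ := by
    apply lintegral_congr_ae
    filter_upwards [h0', hlim] with a h1 h2
    rw [← h2.tsum_eq, ENNReal.ofReal_tsum_of_nonneg h1 h2.summable]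
  rw [e1, lintegral_tsum (fun n => (hF n).aestronglyMeasurable.aemeasurable.ennreal_ofReal)]
  have e2 : ∀ n, ∫⁻ a, ENNReal.ofReal (F n a) ∂μ = ENNReal.ofReal (∫ a, F n a ∂μ) := fun n =>
    (ofReal_integral_eq_lintegral_ofReal (hF n) (h0 n)).symm
  simp_rw [e2]
  rw [← ENNReal.ofReal_tsum_of_nonneg (fun n => integral_nonneg_of_ae (h0 n)) hsum]
  exact ENNReal.ofReal_lt_top

/-- Landau's theorem: if the Laplace transform of a positive measure on `[0, ∞)` converges to
the left of `z0` and extends analytically around `z0`, it converges a bit to the right of `z0`. -/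
theorem landau (μ : Measure ℝ) (hμ : ∀ᵐ t ∂μ, 0 ≤ t) (z0 : ℝ)
    (hint : ∀ x < z0, Integrable (fun t => Real.exp (x * t)) μ) (Ψ : ℂ → ℂ) (ρ : ℝ) (hρ : 0 < ρ)
    (hΨ : DifferentiableOn ℂ Ψ (ball (z0 : ℂ) (3 * ρ)))
    (heq : ∀ z ∈ ball (z0 : ℂ) (3 * ρ), z.re < z0 → ∫ t, Complex.exp (z * t) ∂μ = Ψ z) :
    Integrable (fun t => Real.exp ((z0 + ρ / 2) * t)) μ := by
  set z1 : ℝ := z0 - ρ with hz1
  have hz1int : ((z1 : ℝ) : ℂ).re ∈ interior (integrableExpSet id μ) := by
    rw [mem_interior]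
    refine ⟨Set.Iio z0, ?_, isOpen_Iio, ?_⟩
    · intro x hx
      exact hint x hx
    · simp only [Complex.ofReal_re, Set.mem_Iio]
      linarith
  have hev : complexMGF id μ =ᶠ[𝓝 (z1 : ℂ)] Ψ := by
    have hmem : ball (z1 : ℂ) ρ ∈ 𝓝 (z1 : ℂ) := ball_mem_nhds _ hρ
    filter_upwards [hmem] with z hz
    have hz' : ‖z - z1‖ < ρ := by simpa [dist_eq_norm] using hz
    have hre : |(z - z1).re| ≤ ‖z - z1‖ := Complex.abs_re_le_norm _
    apply heq z
    · rw [mem_ball, dist_eq_norm]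
      have : z - (z0 : ℂ) = (z - z1) + ((z1 - z0 : ℝ) : ℂ) := by push_cast; ring
      rw [this]
      refine (norm_add_le _ _).trans_lt ?_
      rw [Complex.norm_real, Real.norm_eq_abs]
      have : z1 - z0 = -ρ := by rw [hz1]; ring
      rw [this, abs_neg, abs_of_pos hρ]
      linarith
    · have h1 := (abs_le.mp (hre.trans hz'.le)).2
      have h3 := (abs_lt.mp (hre.trans_lt hz')).2
      simp only [Complex.sub_re, Complex.ofReal_re] at h3
      linarith
  have hderiv : ∀ n, iteratedDeriv n Ψ (z1 : ℂ) = ((∫ t, t ^ n * Real.exp (z1 * t) ∂μ : ℝ) : ℂ) := by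
    intro n
    rw [← hev.iteratedDeriv_eq n, iteratedDeriv_complexMGF hz1int n, ← integral_complex_ofReal]
    apply integral_congr_ae
    filter_upwards with t
    push_cast
    simp
  have hΨ' : DifferentiableOn ℂ Ψ (ball (z1 : ℂ) (2 * ρ)) := by
    refine hΨ.mono ?_
    apply ball_subset_ball'
    rw [dist_eq_norm, ← Complex.ofReal_sub, Complex.norm_real, Real.norm_eq_abs]
    have : z1 - z0 = -ρ := by rw [hz1]; ring
    rw [this, abs_neg, abs_of_pos hρ]
    linarith
  have hzmem : ((z1 + 3 / 2 * ρ : ℝ) : ℂ) ∈ ball (z1 : ℂ) (2 * ρ) := by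
    rw [mem_ball, dist_eq_norm, ← Complex.ofReal_sub, Complex.norm_real, Real.norm_eq_abs]
    have : z1 + 3 / 2 * ρ - z1 = 3 / 2 * ρ := by ring
    rw [this, abs_of_pos (by positivity)]
    linarith
  have htaylor := Complex.hasSum_taylorSeries_on_ball hΨ' hzmem
  have hterm : ∀ n : ℕ, ((n.factorial : ℂ)⁻¹ • (((z1 + 3 / 2 * ρ : ℝ) : ℂ) - z1) ^ n •
      iteratedDeriv n Ψ (z1 : ℂ))
      = (((∫ t, ((n.factorial : ℝ)⁻¹ * (3 / 2 * ρ) ^ n) * (t ^ n * Real.exp (z1 * t)) ∂μ : ℝ)) : ℂ) := by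
    intro n
    rw [hderiv n, integral_const_mul, smul_eq_mul, smul_eq_mul]
    push_cast
    ring
  simp_rw [hterm] at htaylor
  have hsum : Summable fun n : ℕ =>
      ∫ t, ((n.factorial : ℝ)⁻¹ * (3 / 2 * ρ) ^ n) * (t ^ n * Real.exp (z1 * t)) ∂μ := by
    have := htaylor.summable
    exact Complex.summable_ofReal.mp this
  have hz1' : z1 ∈ interior (integrableExpSet id μ) := by simpa using hz1int
  refine integrable_of_hasSum_nonneg
    (fun (n : ℕ) (t : ℝ) => ((n.factorial : ℝ)⁻¹ * (3 / 2 * ρ) ^ n) * (t ^ n * Real.exp (z1 * t)))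
    _ ?_ ?_ hsum ?_ ?_
  · intro n
    exact (integrable_pow_mul_exp_of_mem_interior_integrableExpSet hz1' n).const_mul _
  · intro n
    filter_upwards [hμ] with t ht
    positivity
  · exact (by fun_prop : Measurable fun t : ℝ => Real.exp ((z0 + ρ / 2) * t)).aestronglyMeasurable
  · filter_upwards with t
    have h1 : HasSum (fun n : ℕ => (3 / 2 * ρ * t) ^ n / (n.factorial : ℝ))
        (Real.exp (3 / 2 * ρ * t)) := by
      rw [Real.exp_eq_exp_ℝ]
      exact NormedSpace.expSeries_div_hasSum_exp _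
    have h2 := h1.mul_right (Real.exp (z1 * t))
    have e : Real.exp ((z0 + ρ / 2) * t) = Real.exp (3 / 2 * ρ * t) * Real.exp (z1 * t) := by
      rw [← Real.exp_add]
      congr 1
      rw [hz1]
      ring
    rw [e]
    convert! h2 using 1
    funext n
    ring

end Pool.Agent.Helper13.Bsd
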