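import Mathlib
import Pool.Agent.Helper13.Bsd.Euler
import Pool.Agent.Helper13.Bsd.Landau

/-!
# Laplace transforms
-/

namespace Pool.Agent.Helper13.Bsd

open Complex Filter Topology MeasureTheory Set

/-- Laplace transform of a real function on `(0, ∞)`. -/
noncomputable def Lap (f : ℝ → ℝ) (w : ℂ) : ℂ := ∫ t in Ioi (0 : ℝ), (f t : ℂ) * cexp (-w * t)

/-- Absolute convergence of the Laplace transform at a real point. -/
def LapInt (f : ℝ → ℝ) (x : ℝ) : Prop := IntegrableOn (fun t => f t * Real.exp (-x * t)) (Ioi (0 : ℝ))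

lemma LapInt.mono {f : ℝ → ℝ} (hf : Measurable f) {x y : ℝ} (hxy : x ≤ y) (h : LapInt f x) :
    LapInt f y := by
  unfold LapInt at *
  refine Integrable.mono' h.norm ?_ ?_
  · exact (hf.mul (by fun_prop)).aestronglyMeasurable
  · rw [ae_restrict_iff' measurableSet_Ioi]
    filter_upwards with t ht
    have ht' : 0 < t := ht
    rw [norm_mul, norm_mul]
    apply mul_le_mul_of_nonneg_left _ (norm_nonneg _)
    rw [Real.norm_eq_abs, Real.norm_eq_abs, Real.abs_exp, Real.abs_exp, Real.exp_le_exp]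
    nlinarith

lemma LapInt.complex {f : ℝ → ℝ} (hf : Measurable f) {w : ℂ} (h : LapInt f w.re) :
    IntegrableOn (fun t : ℝ => (f t : ℂ) * cexp (-w * t)) (Ioi (0 : ℝ)) := by
  unfold LapInt at *
  refine Integrable.mono' h.norm ?_ ?_
  · exact ((measurable_ofReal.comp hf).mul (by fun_prop)).aestronglyMeasurable
  · filter_upwards with t
    rw [norm_mul, norm_mul, norm_real, norm_exp, Real.norm_eq_abs (Real.exp _), Real.abs_exp]
    simp

lemma differentiableOn_Lap {f : ℝ → ℝ} (hf : Measurable f) (θ : ℝ) (h : ∀ x, θ < x → LapInt f x) :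
    DifferentiableOn ℂ (Lap f) {w | θ < w.re} := by
  intro w0 hw0
  have hw0' : θ < w0.re := hw0
  apply DifferentiableAt.differentiableWithinAt
  set ε := (w0.re - θ) / 3 with hε
  have hε0 : 0 < ε := by rw [hε]; linarith
  have key := hasDerivAt_integral_of_dominated_loc_of_deriv_le (μ := volume.restrict (Ioi (0 : ℝ)))
    (F := fun (w : ℂ) (t : ℝ) => (f t : ℂ) * cexp (-w * t))
    (F' := fun (w : ℂ) (t : ℝ) => (f t : ℂ) * (cexp (-w * t) * (-t)))
    (x₀ := w0) (s := Metric.ball w0 ε)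
    (bound := fun t => ε⁻¹ * ‖f t * Real.exp (-(w0.re - 2 * ε) * t)‖)
    (Metric.ball_mem_nhds _ hε0) ?_ ?_ ?_ ?_ ?_ ?_
  · exact key.2.differentiableAt
  · filter_upwards with w
    exact ((measurable_ofReal.comp hf).mul (by fun_prop)).aestronglyMeasurable
  · exact (h w0.re hw0').complex hf
  · exact ((measurable_ofReal.comp hf).mul (by fun_prop)).aestronglyMeasurable
  · rw [ae_restrict_iff' measurableSet_Ioi]
    filter_upwards with t ht w hw
    have ht' : 0 < t := ht
    have h1 : w0.re - ε ≤ w.re := by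
      have h2 : ‖w - w0‖ < ε := by simpa [dist_eq_norm] using hw
      have h3 := (abs_le.mp ((abs_re_le_norm (w - w0)).trans h2.le)).1
      simp only [sub_re] at h3
      linarith
    rw [norm_mul, norm_mul, norm_mul, norm_real, norm_exp, norm_neg, norm_real,
      Real.norm_eq_abs t, abs_of_pos ht', Real.norm_eq_abs (Real.exp _), Real.abs_exp]
    have h4 : (-w * (t : ℂ)).re = -w.re * t := by simp
    rw [h4]
    have h5 : Real.exp (-w.re * t) * t ≤ ε⁻¹ * Real.exp (-(w0.re - 2 * ε) * t) := by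
      have h6 : ε * t ≤ Real.exp (ε * t) := by
        have := Real.add_one_le_exp (ε * t)
        linarith
      have h7 : Real.exp (-w.re * t) * Real.exp (ε * t) ≤ Real.exp (-(w0.re - 2 * ε) * t) := by
        rw [← Real.exp_add, Real.exp_le_exp]
        nlinarith
      rw [inv_mul_eq_div, le_div_iff₀ hε0]
      calc Real.exp (-w.re * t) * t * ε = Real.exp (-w.re * t) * (ε * t) := by ring
        _ ≤ Real.exp (-w.re * t) * Real.exp (ε * t) := by gcongr
        _ ≤ _ := h7
    calc ‖f t‖ * (Real.exp (-w.re * t) * t)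
        ≤ ‖f t‖ * (ε⁻¹ * Real.exp (-(w0.re - 2 * ε) * t)) := by gcongr
      _ = _ := by ring
  · exact ((h (w0.re - 2 * ε) (by rw [hε]; linarith)).norm).const_mul _
  · filter_upwards with t w _
    have h1 : HasDerivAt (fun w : ℂ => -w * (t : ℂ)) (-(t : ℂ)) w := by
      have := ((hasDerivAt_id w).neg).mul_const (t : ℂ)
      simpa using this
    exact (h1.cexp).const_mul _

section

variable (N : ℕ → ℕ) (bad : ℕ → Prop) [DecidablePred bad]

/-- `log P_E(e^t)`. -/
noncomputable def LLs (n : ℕ) : ℝ :=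
  ∑ p ∈ (Finset.range n).filter (fun p : ℕ => Nat.Prime p ∧ ¬ bad p), ell N p

/-- `log P_E(e^t)`. -/
noncomputable def LL (t : ℝ) : ℝ := LLs N bad ⌈Real.exp t⌉₊

lemma measurable_LL : Measurable (LL N bad) := by
  have h1 : Measurable (LLs N bad) := measurable_from_nat
  exact h1.comp (Nat.measurable_ceil.comp Real.measurable_exp)

variable (hN : ∀ p : ℕ, p.Prime → 1 ≤ N p)
  (hH : ∀ p : ℕ, p.Prime → |(p : ℝ) + 1 - N p| ≤ 14 * Real.sqrt p)

include hN hH in
lemma LL_bound (t : ℝ) (ht : 0 ≤ t) : |LL N bad t| ≤ 8 * Real.exp (2 * t) := by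
  have h1 : |LL N bad t| ≤ 2 * (⌈Real.exp t⌉₊ : ℝ) ^ 2 := by
    unfold LL LLs
    refine (Finset.abs_sum_le_sum_abs _ _).trans ?_
    calc ∑ p ∈ (Finset.range ⌈Real.exp t⌉₊).filter (fun p : ℕ => Nat.Prime p ∧ ¬ bad p), |ell N p|
        ≤ ∑ p ∈ (Finset.range ⌈Real.exp t⌉₊).filter (fun p : ℕ => Nat.Prime p ∧ ¬ bad p),
            (2 * (⌈Real.exp t⌉₊ : ℝ)) := by
          apply Finset.sum_le_sum
          intro p hp
          rw [Finset.mem_filter, Finset.mem_range] at hp
          refine (ell_bound N hN hH p hp.2.1).trans ?_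
          have : (p : ℝ) ≤ (⌈Real.exp t⌉₊ : ℝ) := by exact_mod_cast hp.1.le
          linarith
      _ = ((Finset.range ⌈Real.exp t⌉₊).filter (fun p : ℕ => Nat.Prime p ∧ ¬ bad p)).card
            * (2 * (⌈Real.exp t⌉₊ : ℝ)) := by rw [Finset.sum_const, nsmul_eq_mul]
      _ ≤ (⌈Real.exp t⌉₊ : ℝ) * (2 * (⌈Real.exp t⌉₊ : ℝ)) := by
          gcongr
          refine (Finset.card_filter_le _ _).trans ?_
          rw [Finset.card_range]
      _ = _ := by ring
  refine h1.trans ?_
  have h2 : (⌈Real.exp t⌉₊ : ℝ) ≤ 2 * Real.exp t := by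
    have h3 := (Nat.ceil_lt_add_one (Real.exp_pos t).le).le
    have h4 : 1 ≤ Real.exp t := Real.one_le_exp ht
    linarith
  have h5 : Real.exp (2 * t) = Real.exp t ^ 2 := by
    rw [← Real.exp_nat_mul]
    norm_num
  rw [h5]
  have h6 : (⌈Real.exp t⌉₊ : ℝ) ^ 2 ≤ (2 * Real.exp t) ^ 2 := by gcongr
  nlinarith

include hN hH in
lemma LapInt_LL (x : ℝ) (hx : 2 < x) : LapInt (LL N bad) x := by
  unfold LapInt
  have h1 : IntegrableOn (fun t : ℝ => 8 * Real.exp (-(x - 2) * t)) (Ioi 0) :=
    (integrableOn_exp_mul_Ioi (by linarith) 0).const_mul _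
  refine Integrable.mono' h1 ?_ ?_
  · exact ((measurable_LL N bad).mul (by fun_prop)).aestronglyMeasurable
  · rw [ae_restrict_iff' measurableSet_Ioi]
    filter_upwards with t ht
    have ht' : 0 < t := ht
    rw [norm_mul, Real.norm_eq_abs, Real.norm_eq_abs, Real.abs_exp]
    calc |LL N bad t| * Real.exp (-x * t) ≤ 8 * Real.exp (2 * t) * Real.exp (-x * t) := by
          gcongr
          exact LL_bound N bad hN hH t ht'.le
      _ = 8 * Real.exp (-(x - 2) * t) := by
          rw [mul_assoc, ← Real.exp_add]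
          ring_nf

omit [DecidablePred bad] in
lemma tsum_primes_lt (g : ℕ → ℂ) (n : ℕ) :
    ∑' p : Nat.Primes, (if (p : ℕ) < n then g p else 0)
      = ∑ p ∈ (Finset.range n).filter Nat.Prime, g p := by
  have h1 : ∑' p : Nat.Primes, (if (p : ℕ) < n then g p else 0)
      = ∑' m : ℕ, {p : ℕ | p.Prime}.indicator (fun m : ℕ => if m < n then g m else 0) m :=
    tsum_subtype {p : ℕ | p.Prime} (fun m : ℕ => if m < n then g m else 0)
  rw [h1, tsum_eq_sum (s := Finset.range n), Finset.sum_filter]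
  · apply Finset.sum_congr rfl
    intro p hp
    rw [Finset.mem_range] at hp
    by_cases h : p.Prime
    · simp [h, hp]
    · simp [h]
  · intro m hm
    rw [Finset.mem_range] at hm
    simp [hm]

include hN hH in
theorem Df_eq (w : ℂ) (hw : 10 < w.re) : Df N bad w = w * Lap (LL N bad) w := by
  have hw0 : w ≠ 0 := by
    rintro rfl
    simp at hw
    linarith
  set c : ℕ → ℝ := fun p => if bad p then 0 else ell N p with hc
  set Fp : Nat.Primes → ℝ → ℂ := fun p t =>
    (Ioi (Real.log ((p : ℕ) : ℝ))).indicator (fun t : ℝ => (c p : ℂ) * cexp (-w * t)) t with hFp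
  have hlog0 : ∀ p : Nat.Primes, 0 ≤ Real.log ((p : ℕ) : ℝ) := fun p =>
    Real.log_nonneg (by exact_mod_cast p.2.one_le)
  have hsub : ∀ p : Nat.Primes, Ioi (Real.log ((p : ℕ) : ℝ)) ∩ Ioi 0 = Ioi (Real.log ((p : ℕ) : ℝ)) := by
    intro p
    rw [Ioi_inter_Ioi, sup_eq_left.mpr (hlog0 p)]
  have hre : (-w).re < 0 := by simp; linarith
  have hint0 : ∀ p : Nat.Primes, IntegrableOn (fun t : ℝ => (c p : ℂ) * cexp (-w * t))
      (Ioi (Real.log ((p : ℕ) : ℝ))) := fun p =>
    (integrableOn_exp_mul_complex_Ioi hre _).const_mul _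
  have hFint : ∀ p : Nat.Primes, Integrable (Fp p) (volume.restrict (Ioi 0)) := by
    intro p
    rw [hFp, integrable_indicator_iff measurableSet_Ioi, IntegrableOn,
      Measure.restrict_restrict measurableSet_Ioi, hsub]
    exact hint0 p
  have hval : ∀ p : Nat.Primes, ∫ t in Ioi (0 : ℝ), Fp p t
      = w⁻¹ * ((c p : ℂ) * ((p : ℕ) : ℂ) ^ (-w)) := by
    intro p
    have hp0 : ((p : ℕ) : ℂ) ≠ 0 := by exact_mod_cast p.2.ne_zero
    have hp0' : (0 : ℝ) ≤ ((p : ℕ) : ℝ) := by positivity
    simp only [hFp]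
    rw [integral_indicator measurableSet_Ioi, Measure.restrict_restrict measurableSet_Ioi, hsub,
      integral_const_mul, integral_exp_mul_complex_Ioi hre]
    have e : cexp (-w * (Real.log ((p : ℕ) : ℝ) : ℂ)) = ((p : ℕ) : ℂ) ^ (-w) := by
      rw [cpow_def_of_ne_zero hp0, ofReal_log hp0']
      push_cast
      congr 1
      ring
    rw [e]
    field_simp
  have hnorm : ∀ p : Nat.Primes, ∫ t in Ioi (0 : ℝ), ‖Fp p t‖
      = w.re⁻¹ * ((if bad p then 0 else |ell N p|) * ((p : ℕ) : ℝ) ^ (-w.re)) := by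
    intro p
    have hp0 : (0 : ℝ) < ((p : ℕ) : ℝ) := by exact_mod_cast p.2.pos
    have e1 : ∀ t, ‖Fp p t‖ = (Ioi (Real.log ((p : ℕ) : ℝ))).indicator
        (fun t : ℝ => |c p| * Real.exp (-w.re * t)) t := by
      intro t
      simp only [hFp]
      rw [norm_indicator_eq_indicator_norm]
      congr 1
      funext t
      rw [norm_mul, norm_real, norm_exp, Real.norm_eq_abs]
      simp
    simp_rw [e1]
    rw [integral_indicator measurableSet_Ioi, Measure.restrict_restrict measurableSet_Ioi, hsub,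
      integral_const_mul, integral_exp_mul_Ioi (by linarith)]
    have e2 : Real.exp (-w.re * Real.log ((p : ℕ) : ℝ)) = ((p : ℕ) : ℝ) ^ (-w.re) := by
      rw [Real.rpow_def_of_pos hp0]
      congr 1
      ring
    have e3 : |c p| = if bad p then 0 else |ell N p| := by
      simp only [hc]
      split_ifs <;> simp
    rw [e2, e3]
    have : w.re ≠ 0 := by linarith
    field_simp
  have hsum := hasSum_integral_of_summable_integral_norm hFint (by
    simp_rw [hnorm]
    exact (summable_Df N bad hN hH w.re (by linarith)).mul_left _)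
  have htsum : ∀ t, ∑' p : Nat.Primes, Fp p t = (LL N bad t : ℂ) * cexp (-w * t) := by
    intro t
    have e1 : ∀ p : Nat.Primes, Fp p t
        = (if (p : ℕ) < ⌈Real.exp t⌉₊ then (c p : ℂ) else 0) * cexp (-w * t) := by
      intro p
      have hp0 : (0 : ℝ) < ((p : ℕ) : ℝ) := by exact_mod_cast p.2.pos
      simp only [hFp, indicator_apply, mem_Ioi, Nat.lt_ceil]
      by_cases h : ((p : ℕ) : ℝ) < Real.exp t
      · have h' : Real.log ((p : ℕ) : ℝ) < t := (Real.log_lt_iff_lt_exp hp0).mpr h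
        rw [if_pos h', if_pos h]
      · have h' : ¬ Real.log ((p : ℕ) : ℝ) < t := fun h'' =>
          h ((Real.log_lt_iff_lt_exp hp0).mp h'')
        rw [if_neg h', if_neg h, zero_mul]
    simp_rw [e1]
    rw [tsum_mul_right, tsum_primes_lt (fun p => (c p : ℂ))]
    congr 1
    rw [LL, LLs]
    push_cast
    rw [Finset.sum_filter, Finset.sum_filter]
    apply Finset.sum_congr rfl
    intro p _
    simp only [hc]
    by_cases h1 : p.Prime <;> by_cases h2 : bad p <;> simp [h1, h2]
  have h1 := hsum.tsum_eq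
  simp_rw [hval, htsum] at h1
  rw [tsum_mul_left] at h1
  have h2 : Df N bad w = ∑' p : Nat.Primes, (c p : ℂ) * ((p : ℕ) : ℂ) ^ (-w) := by
    unfold Df
    apply tsum_congr
    intro p
    simp only [hc]
    split_ifs <;> simp
  rw [h2, Lap, ← h1]
  field_simp

/-- The key identity persists as far left as the Laplace transform converges absolutely. -/
theorem key_identity (F : ℂ → ℂ) (hFd : Differentiable ℂ F) (hN : ∀ p : ℕ, p.Prime → 1 ≤ N p)
    (hH : ∀ p : ℕ, p.Prime → |(p : ℝ) + 1 - N p| ≤ 14 * Real.sqrt p)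
    (hF : ∀ s : ℂ, 3 / 2 < s.re → HasProd (fun p : Nat.Primes =>
      if bad (p : ℕ) then (1 : ℂ)
      else (1 - (((p : ℕ) : ℂ) + 1 - ((N (p : ℕ) : ℕ) : ℂ)) * ((p : ℕ) : ℂ) ^ (-s)
              + ((p : ℕ) : ℂ) ^ (1 - 2 * s))⁻¹) (F s))
    (θ : ℝ) (hθ : 0 ≤ θ) (hint : ∀ x, θ < x → LapInt (LL N bad) x) (w : ℂ) (hw : θ < w.re) :
    Gf N bad F w = exp (Hf N bad w + D0 N bad w - w * Lap (LL N bad) w) := by
  have hopen : IsOpen {w : ℂ | θ < w.re} := isOpen_lt continuous_const continuous_re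
  have hpre : IsPreconnected {w : ℂ | θ < w.re} := (convex_halfSpace_re_gt θ).isPreconnected
  have ha1 : AnalyticOnNhd ℂ (Gf N bad F) {w : ℂ | θ < w.re} :=
    (differentiable_Gf N bad F hFd).differentiableOn.analyticOnNhd hopen
  have ha2 : AnalyticOnNhd ℂ (fun w => exp (Hf N bad w + D0 N bad w - w * Lap (LL N bad) w))
      {w : ℂ | θ < w.re} := by
    apply DifferentiableOn.analyticOnNhd _ hopen
    apply DifferentiableOn.cexp
    apply DifferentiableOn.sub
    · apply DifferentiableOn.add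
      · exact (differentiableOn_Hf N bad hH).mono fun w hw => show 0 < w.re from
          lt_of_le_of_lt hθ hw
      · exact (differentiable_D0 N bad).differentiableOn
    · exact differentiableOn_id.mul (differentiableOn_Lap (measurable_LL N bad) θ hint)
  set w1 : ℂ := ((θ + 11 : ℝ) : ℂ) with hw1
  have hw1mem : w1 ∈ {w : ℂ | θ < w.re} := by
    show θ < w1.re
    rw [hw1, ofReal_re]; linarith
  have hev : Gf N bad F =ᶠ[𝓝 w1] fun w => exp (Hf N bad w + D0 N bad w - w * Lap (LL N bad) w) := by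
    have hopen2 : IsOpen {w : ℂ | 10 < w.re} := isOpen_lt continuous_const continuous_re
    have hmem : w1 ∈ {w : ℂ | 10 < w.re} := by
      show 10 < w1.re
      rw [hw1, ofReal_re]; linarith
    filter_upwards [hopen2.mem_nhds hmem] with w hw
    have hw' : 10 < w.re := hw
    rw [euler_identity N bad hN hH F hF w hw', Df_eq N bad hN hH w hw']
  exact ha1.eqOn_of_preconnected_of_eventuallyEq ha2 hpre hw1mem hev hw

end

end Pool.Agent.Helper13.Bsd
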