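import Mathlib
import Pool.Agent.Helper13.Bsd.Laplace

/-!
# One-sided bounds continue the Laplace transform
-/

namespace Pool.Agent.Helper13.Bsd

open Complex Filter Topology MeasureTheory Set

/-- The measure with density `b` on `(0, ∞)`. -/
noncomputable def dens (b : ℝ → ℝ) : Measure ℝ :=
  (volume.restrict (Ioi (0 : ℝ))).withDensity (fun t => ENNReal.ofReal (b t))

lemma integrable_dens_iff {b : ℝ → ℝ} (hb : Measurable b) (hb0 : ∀ t, 0 ≤ b t) (x : ℝ) :
    Integrable (fun t => Real.exp (x * t)) (dens b) ↔ LapInt b (-x) := by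
  unfold dens LapInt IntegrableOn
  rw [integrable_withDensity_iff hb.ennreal_ofReal (Eventually.of_forall fun _ => ENNReal.ofReal_lt_top)]
  apply integrable_congr
  filter_upwards with t
  rw [ENNReal.toReal_ofReal (hb0 t), neg_neg, mul_comm]

lemma integral_dens {b : ℝ → ℝ} (hb : Measurable b) (hb0 : ∀ t, 0 ≤ b t) (z : ℂ) :
    ∫ t, cexp (z * t) ∂(dens b) = Lap b (-z) := by
  unfold dens Lap
  rw [integral_withDensity_eq_integral_toReal_smul hb.ennreal_ofReal
    (Eventually.of_forall fun _ => ENNReal.ofReal_lt_top)]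
  apply integral_congr_ae
  filter_upwards with t
  rw [ENNReal.toReal_ofReal (hb0 t), neg_neg, real_smul]

lemma ae_nonneg_dens (b : ℝ → ℝ) : ∀ᵐ t ∂(dens b), 0 ≤ t := by
  unfold dens
  have hac := withDensity_absolutelyContinuous (volume.restrict (Ioi (0 : ℝ)))
    (fun t => ENNReal.ofReal (b t))
  have h : ∀ᵐ t ∂(volume.restrict (Ioi (0 : ℝ))), 0 ≤ t := by
    rw [ae_restrict_iff' measurableSet_Ioi]
    filter_upwards with t ht using le_of_lt ht
  exact hac.ae_le h

lemma LapInt.indicator_Iic {f : ℝ → ℝ} (hf : Measurable f) {y : ℝ} (h : LapInt f y) (t0 x : ℝ) :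
    LapInt ((Iic t0).indicator f) x := by
  unfold LapInt at *
  refine Integrable.mono' (h.norm.const_mul (Real.exp (|y - x| * |t0|))) ?_ ?_
  · exact ((hf.indicator measurableSet_Iic).mul (by fun_prop)).aestronglyMeasurable
  · rw [ae_restrict_iff' measurableSet_Ioi]
    filter_upwards with t ht
    have ht' : 0 < t := ht
    by_cases h1 : t ∈ Iic t0
    · rw [indicator_of_mem h1, norm_mul, norm_mul, Real.norm_eq_abs (Real.exp _),
        Real.norm_eq_abs (Real.exp _), Real.abs_exp, Real.abs_exp]
      have h2 : Real.exp (-x * t) ≤ Real.exp (|y - x| * |t0|) * Real.exp (-y * t) := by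
        rw [← Real.exp_add, Real.exp_le_exp]
        have h3 : (y - x) * t ≤ |y - x| * |t0| := by
          have h4 : t ≤ |t0| := (mem_Iic.mp h1).trans (le_abs_self _)
          calc (y - x) * t ≤ |y - x| * t := by
                gcongr
                exact le_abs_self _
            _ ≤ _ := by gcongr
        linarith
      calc ‖f t‖ * Real.exp (-x * t)
          ≤ ‖f t‖ * (Real.exp (|y - x| * |t0|) * Real.exp (-y * t)) := by gcongr
        _ = _ := by ring
    · rw [indicator_of_notMem h1]
      simp only [zero_mul, norm_zero]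
      positivity

lemma LapInt.indicator {f : ℝ → ℝ} {y : ℝ} (h : LapInt f y) {s : Set ℝ} (hs : MeasurableSet s) :
    LapInt (s.indicator f) y := by
  unfold LapInt at *
  have : (fun t => s.indicator f t * Real.exp (-y * t)) = s.indicator (fun t => f t * Real.exp (-y * t)) := by
    funext t
    by_cases ht : t ∈ s
    · simp [indicator_of_mem ht]
    · simp [indicator_of_notMem ht]
  rw [this]
  exact Integrable.indicator h hs

lemma LapInt.sub {f g : ℝ → ℝ} {x : ℝ} (hf : LapInt f x) (hg : LapInt g x) :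
    LapInt (fun t => f t - g t) x := by
  unfold LapInt at *
  have : (fun t => (f t - g t) * Real.exp (-x * t))
      = fun t => f t * Real.exp (-x * t) - g t * Real.exp (-x * t) := by
    funext t; ring
  rw [this]
  exact Integrable.sub hf hg

lemma LapInt.const_mul {f : ℝ → ℝ} {x : ℝ} (hf : LapInt f x) (c : ℝ) :
    LapInt (fun t => c * f t) x := by
  unfold LapInt at *
  have : (fun t => (c * f t) * Real.exp (-x * t)) = fun t => c * (f t * Real.exp (-x * t)) := by
    funext t; ring
  rw [this]
  exact Integrable.const_mul hf c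

lemma Lap_sub {f g : ℝ → ℝ} (hfm : Measurable f) (hgm : Measurable g) {w : ℂ} (hf : LapInt f w.re)
    (hg : LapInt g w.re) : Lap (fun t => f t - g t) w = Lap f w - Lap g w := by
  unfold Lap
  rw [← integral_sub (hf.complex hfm) (hg.complex hgm)]
  congr 1
  funext t
  push_cast
  ring

lemma Lap_const_mul (f : ℝ → ℝ) (c : ℝ) (w : ℂ) : Lap (fun t => c * f t) w = c * Lap f w := by
  unfold Lap
  rw [← integral_const_mul]
  congr 1
  funext t
  push_cast
  ring

lemma re_Lap_ofReal (f : ℝ → ℝ) (x : ℝ) :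
    Lap f (x : ℂ) = ((∫ t in Ioi (0 : ℝ), f t * Real.exp (-x * t) : ℝ) : ℂ) := by
  unfold Lap
  rw [← integral_complex_ofReal]
  congr 1
  funext t
  push_cast
  rfl

section

variable (N : ℕ → ℕ) (bad : ℕ → Prop) [DecidablePred bad]

theorem lapInt_continue (F : ℂ → ℂ) (hFd : Differentiable ℂ F) (hN : ∀ p : ℕ, p.Prime → 1 ≤ N p)
    (hH : ∀ p : ℕ, p.Prime → |(p : ℝ) + 1 - N p| ≤ 14 * Real.sqrt p)
    (hF : ∀ s : ℂ, 3 / 2 < s.re → HasProd (fun p : Nat.Primes =>
      if bad (p : ℕ) then (1 : ℂ)
      else (1 - (((p : ℕ) : ℂ) + 1 - ((N (p : ℕ) : ℕ) : ℂ)) * ((p : ℕ) : ℂ) ^ (-s)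
              + ((p : ℕ) : ℂ) ^ (1 - 2 * s))⁻¹) (F s))
    (θ : ℝ) (hθ : 0 ≤ θ) (g : ℝ → ℝ) (hg : Measurable g) (hgi : ∀ x, θ < x → LapInt g x)
    (ε : ℝ) (hε : ε = 1 ∨ ε = -1) (t0 : ℝ) (hnn : ∀ t, t0 < t → 0 ≤ g t - ε * LL N bad t)
    (hreal : ε = 1 ∨ ∀ x : ℝ, θ < x → Gf N bad F (x : ℂ) ≠ 0) :
    ∀ x, θ < x → LapInt (LL N bad) x := by
  by_contra hcon
  push Not at hcon
  obtain ⟨x1, hx1, hx1n⟩ := hcon
  have hLm := measurable_LL N bad
  set A : Set ℝ := {x | θ < x ∧ ¬ LapInt (LL N bad) x} with hA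
  have hAne : A.Nonempty := ⟨x1, hx1, hx1n⟩
  have hAbdd : BddAbove A := by
    refine ⟨3, ?_⟩
    rintro x ⟨-, hx⟩
    by_contra h
    push Not at h
    exact hx (LapInt_LL N bad hN hH x (by linarith))
  set σ0 := sSup A with hσ0
  have hσθ : θ < σ0 := lt_of_lt_of_le hx1 (le_csSup hAbdd ⟨hx1, hx1n⟩)
  have hgt : ∀ x, σ0 < x → LapInt (LL N bad) x := by
    intro x hx
    by_contra h
    have : x ≤ σ0 := le_csSup hAbdd ⟨hσθ.trans hx, h⟩
    linarith
  have hlt : ∀ x, θ < x → x < σ0 → ¬ LapInt (LL N bad) x := by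
    intro x hx hxσ h
    obtain ⟨y, hy, hxy⟩ := exists_lt_of_lt_csSup hAne hxσ
    exact hy.2 (h.mono hLm hxy.le)
  have hσpos : 0 < σ0 := lt_of_le_of_lt hθ hσθ
  have hid := key_identity N bad F hFd hN hH hF σ0 hσpos.le hgt
  have hHD : DifferentiableOn ℂ (fun w => Hf N bad w + D0 N bad w) {w : ℂ | 0 < w.re} :=
    (differentiableOn_Hf N bad hH).add (differentiable_D0 N bad).differentiableOn
  have hopen0 : IsOpen {w : ℂ | 0 < w.re} := isOpen_lt continuous_const continuous_re
  have hσmem : ((σ0 : ℝ) : ℂ) ∈ {w : ℂ | 0 < w.re} := by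
    show 0 < ((σ0 : ℝ) : ℂ).re
    rw [ofReal_re]; exact hσpos
  have hGd := differentiable_Gf N bad F hFd
  by_cases hG0 : Gf N bad F (σ0 : ℂ) = 0
  · -- a real zero; then the upper bound is violated
    have hε1 : ε = 1 := by
      rcases hreal with h | h
      · exact h
      · exact absurd hG0 (h σ0 hσθ)
    subst hε1
    set σ1 := (θ + σ0) / 2 with hσ1
    have hσ1θ : θ < σ1 := by rw [hσ1]; linarith
    have hσ1σ : σ1 < σ0 := by rw [hσ1]; linarith
    set h : ℝ → ℝ := fun t => |g t| + (Iic t0).indicator (fun t => |LL N bad t|) t with hh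
    have hh0 : ∀ t, 0 ≤ h t := by
      intro t
      simp only [hh]
      have : 0 ≤ (Iic t0).indicator (fun t => |LL N bad t|) t :=
        indicator_nonneg (fun _ _ => abs_nonneg _) t
      positivity
    have hLLh : ∀ t, LL N bad t ≤ h t := by
      intro t
      simp only [hh]
      by_cases ht : t ∈ Iic t0
      · rw [indicator_of_mem ht]
        have := le_abs_self (LL N bad t)
        have := abs_nonneg (g t)
        linarith
      · rw [indicator_of_notMem ht]
        have h1 : t0 < t := by simpa using ht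
        have h2 := hnn t h1
        have h3 := le_abs_self (g t)
        linarith
    have habsLap : ∀ (f : ℝ → ℝ) (x : ℝ), LapInt f x → LapInt (fun t => |f t|) x := by
      intro f x hf
      unfold LapInt at *
      refine hf.norm.congr ?_
      filter_upwards with t
      rw [norm_mul, Real.norm_eq_abs, Real.norm_eq_abs, Real.abs_exp]
    have hhint : LapInt h σ1 := by
      have h1 := habsLap g σ1 (hgi σ1 hσ1θ)
      have h2 : LapInt ((Iic t0).indicator (fun t => |LL N bad t|)) σ1 :=
        (habsLap _ 3 (LapInt_LL N bad hN hH 3 (by norm_num))).indicator_Iic hLm.abs t0 σ1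
      unfold LapInt at *
      have : (fun t => h t * Real.exp (-σ1 * t)) = fun t => |g t| * Real.exp (-σ1 * t)
          + (Iic t0).indicator (fun t => |LL N bad t|) t * Real.exp (-σ1 * t) := by
        funext t
        simp only [hh]
        ring
      rw [this]
      exact Integrable.add h1 h2
    set K := ∫ t in Ioi (0 : ℝ), h t * Real.exp (-σ1 * t) with hK
    have hK0 : 0 ≤ K := by
      rw [hK]
      apply setIntegral_nonneg measurableSet_Ioi
      intro t _
      exact mul_nonneg (hh0 t) (Real.exp_pos _).le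
    have hupper : ∀ x, σ0 < x → ∫ t in Ioi (0 : ℝ), LL N bad t * Real.exp (-x * t) ≤ K := by
      intro x hx
      rw [hK]
      apply setIntegral_mono_on (hgt x hx) hhint measurableSet_Ioi
      intro t ht
      have ht' : 0 < t := ht
      have h1 : Real.exp (-x * t) ≤ Real.exp (-σ1 * t) := by
        rw [Real.exp_le_exp]
        nlinarith
      calc LL N bad t * Real.exp (-x * t) ≤ h t * Real.exp (-x * t) := by
            gcongr
            exact hLLh t
        _ ≤ h t * Real.exp (-σ1 * t) := by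
            gcongr
            exact hh0 t
    have hnormG : ∀ x : ℝ, σ0 < x → ‖Gf N bad F (x : ℂ)‖
        = Real.exp ((Hf N bad (x : ℂ) + D0 N bad (x : ℂ)).re
          - x * ∫ t in Ioi (0 : ℝ), LL N bad t * Real.exp (-x * t)) := by
      intro x hx
      rw [hid (x : ℂ) (by rw [ofReal_re]; exact hx), norm_exp, re_Lap_ofReal]
      congr 1
      rw [sub_re, ← ofReal_mul, ofReal_re]
    have hcontHD : ContinuousAt (fun w => Hf N bad w + D0 N bad w) (σ0 : ℂ) :=
      (hHD.differentiableAt (hopen0.mem_nhds hσmem)).continuousAt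
    have hcontHD' : Tendsto (fun x : ℝ => (Hf N bad (x : ℂ) + D0 N bad (x : ℂ)).re) (𝓝[>] σ0)
        (𝓝 ((Hf N bad (σ0 : ℂ) + D0 N bad (σ0 : ℂ)).re)) := by
      have h1 : Tendsto (fun x : ℝ => (x : ℂ)) (𝓝[>] σ0) (𝓝 (σ0 : ℂ)) :=
        (continuous_ofReal.tendsto σ0).mono_left nhdsWithin_le_nhds
      exact (continuous_re.tendsto _).comp (hcontHD.tendsto.comp h1)
    have hcontG : Tendsto (fun x : ℝ => ‖Gf N bad F (x : ℂ)‖) (𝓝[>] σ0) (𝓝 0) := by
      have h1 : Tendsto (fun x : ℝ => (x : ℂ)) (𝓝[>] σ0) (𝓝 (σ0 : ℂ)) :=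
        (continuous_ofReal.tendsto σ0).mono_left nhdsWithin_le_nhds
      have h2 := (hGd.continuous.tendsto (σ0 : ℂ)).comp h1
      have h3 := h2.norm
      rw [hG0, norm_zero] at h3
      exact h3
    set m := (Hf N bad (σ0 : ℂ) + D0 N bad (σ0 : ℂ)).re - 1 with hm
    have hev1 : ∀ᶠ x : ℝ in 𝓝[>] σ0, m < (Hf N bad (x : ℂ) + D0 N bad (x : ℂ)).re :=
      hcontHD'.eventually (lt_mem_nhds (by rw [hm]; linarith))
    have hev2 : ∀ᶠ x : ℝ in 𝓝[>] σ0, x < σ0 + 1 := by
      have : ∀ᶠ x : ℝ in 𝓝 σ0, x < σ0 + 1 := gt_mem_nhds (by linarith)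
      exact this.filter_mono nhdsWithin_le_nhds
    have hev3 : ∀ᶠ x : ℝ in 𝓝[>] σ0, σ0 < x := self_mem_nhdsWithin
    have hev : ∀ᶠ x : ℝ in 𝓝[>] σ0, Real.exp (m - (σ0 + 1) * K) ≤ ‖Gf N bad F (x : ℂ)‖ := by
      filter_upwards [hev1, hev2, hev3] with x h1 h2 h3
      rw [hnormG x h3, Real.exp_le_exp]
      have h4 := hupper x h3
      have h5 : x * ∫ t in Ioi (0 : ℝ), LL N bad t * Real.exp (-x * t) ≤ (σ0 + 1) * K := by
        calc x * ∫ t in Ioi (0 : ℝ), LL N bad t * Real.exp (-x * t) ≤ x * K := by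
              gcongr
              linarith
          _ ≤ (σ0 + 1) * K := by gcongr
      linarith
    have := ge_of_tendsto hcontG hev
    exact absurd this (not_le.mpr (Real.exp_pos _))
  · -- no zero at σ0: analytic continuation plus Landau
    have hGne : 0 < ‖Gf N bad F (σ0 : ℂ)‖ := norm_pos_iff.mpr hG0
    obtain ⟨r, hr0, hr⟩ := Metric.continuousAt_iff.mp hGd.continuous.continuousAt
      ‖Gf N bad F (σ0 : ℂ)‖ hGne
    set r' := min r (σ0 - θ) with hr'
    have hr'0 : 0 < r' := lt_min hr0 (by linarith)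
    set ρ := r' / 3 with hρ
    have hρ0 : 0 < ρ := by positivity
    have h3ρ : 3 * ρ = r' := by rw [hρ]; ring
    have hball_re : ∀ w ∈ Metric.ball (σ0 : ℂ) (3 * ρ), θ < w.re := by
      intro w hw
      rw [h3ρ, Metric.mem_ball, dist_eq_norm] at hw
      have h1 : ‖w - (σ0 : ℂ)‖ < σ0 - θ := hw.trans_le (min_le_right _ _)
      have h2 := (abs_lt.mp ((abs_re_le_norm (w - (σ0 : ℂ))).trans_lt h1)).1
      simp only [sub_re, ofReal_re] at h2
      linarith
    have hslit : ∀ w ∈ Metric.ball (σ0 : ℂ) (3 * ρ),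
        Gf N bad F w / Gf N bad F (σ0 : ℂ) ∈ slitPlane := by
      intro w hw
      have hw' : dist w (σ0 : ℂ) < r := by
        rw [h3ρ, Metric.mem_ball] at hw
        exact hw.trans_le (min_le_left _ _)
      have h1 := hr hw'
      rw [dist_eq_norm] at h1
      have h2 : Gf N bad F w / Gf N bad F (σ0 : ℂ)
          = 1 + (Gf N bad F w - Gf N bad F (σ0 : ℂ)) / Gf N bad F (σ0 : ℂ) := by
        field_simp
        ring
      rw [h2]
      apply mem_slitPlane_of_norm_lt_one
      rw [norm_div, div_lt_one hGne]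
      exact h1
    set q : ℂ → ℂ := fun w => log (Gf N bad F w / Gf N bad F (σ0 : ℂ)) with hq
    have hqd : DifferentiableOn ℂ q (Metric.ball (σ0 : ℂ) (3 * ρ)) := by
      intro w hw
      apply DifferentiableAt.differentiableWithinAt
      exact ((hGd w).div_const _).clog (hslit w hw)
    have hqexp : ∀ w ∈ Metric.ball (σ0 : ℂ) (3 * ρ),
        exp (q w) = Gf N bad F w / Gf N bad F (σ0 : ℂ) := by
      intro w hw
      simp only [hq]
      exact exp_log (slitPlane_ne_zero (hslit w hw))
    set U : Set ℂ := Metric.ball (σ0 : ℂ) (3 * ρ) ∩ {w : ℂ | σ0 < w.re} with hU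
    have hUopen : IsOpen U := Metric.isOpen_ball.inter (isOpen_lt continuous_const continuous_re)
    have hUpre : IsPreconnected U :=
      ((convex_ball _ _).inter (convex_halfSpace_re_gt σ0)).isPreconnected
    set E : ℂ → ℂ := fun w => (Hf N bad w + D0 N bad w - w * Lap (LL N bad) w) - q w with hE
    have hEd : DifferentiableOn ℂ E U := by
      apply DifferentiableOn.sub
      · apply DifferentiableOn.sub
        · exact hHD.mono fun w hw => show 0 < w.re from hσpos.trans hw.2
        · exact differentiableOn_id.mul ((differentiableOn_Lap hLm σ0 hgt).mono fun w hw => hw.2)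
      · exact hqd.mono inter_subset_left
    have hEexp : ∀ w ∈ U, exp (E w) = Gf N bad F (σ0 : ℂ) := by
      intro w hw
      simp only [hE]
      rw [exp_sub, ← hid w hw.2, hqexp w hw.1]
      have : Gf N bad F w ≠ 0 := by
        rw [hid w hw.2]
        exact exp_ne_zero _
      field_simp
    have hEderiv : U.EqOn (deriv E) 0 := by
      intro w hw
      have hEat : DifferentiableAt ℂ E w := hEd.differentiableAt (hUopen.mem_nhds hw)
      have h1 : HasDerivAt (fun w => exp (E w)) (exp (E w) * deriv E w) w :=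
        hEat.hasDerivAt.cexp
      have h2 : (fun w => exp (E w)) =ᶠ[𝓝 w] fun _ => Gf N bad F (σ0 : ℂ) := by
        filter_upwards [hUopen.mem_nhds hw] with v hv using hEexp v hv
      have h3 : HasDerivAt (fun w => exp (E w)) 0 w :=
        (hasDerivAt_const w (Gf N bad F (σ0 : ℂ))).congr_of_eventuallyEq h2
      have h4 := h1.unique h3
      exact (mul_eq_zero.mp h4).resolve_left (exp_ne_zero _)
    set ws : ℂ := ((σ0 + ρ : ℝ) : ℂ) with hws
    have hwsU : ws ∈ U := by
      refine ⟨?_, ?_⟩
      · rw [Metric.mem_ball, dist_eq_norm, hws, ← ofReal_sub, norm_real, Real.norm_eq_abs]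
        have : σ0 + ρ - σ0 = ρ := by ring
        rw [this, abs_of_pos hρ0]
        linarith
      · show σ0 < ws.re
        rw [hws, ofReal_re]
        linarith
    have hEconst : ∀ w ∈ U, E w = E ws := fun w hw =>
      hUopen.is_const_of_deriv_eq_zero hUpre hEd hEderiv hw hwsU
    -- the decomposition of b
    set b : ℝ → ℝ := fun t => g t - ε * LL N bad t with hb
    have hbm : Measurable b := hg.sub (hLm.const_mul ε)
    set b1 : ℝ → ℝ := (Iic t0).indicator b with hb1
    set b2 : ℝ → ℝ := (Ioi t0).indicator b with hb2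
    have hb1m : Measurable b1 := hbm.indicator measurableSet_Iic
    have hb2m : Measurable b2 := hbm.indicator measurableSet_Ioi
    have hb2nn : ∀ t, 0 ≤ b2 t := by
      intro t
      rw [hb2]
      apply indicator_nonneg
      intro t ht
      exact hnn t ht
    have hbint : ∀ x, σ0 < x → LapInt b x := fun x hx =>
      (hgi x (hσθ.trans hx)).sub ((hgt x hx).const_mul ε)
    have hb1int : ∀ x, LapInt b1 x := fun x => (hbint (σ0 + 1) (by linarith)).indicator_Iic hbm t0 x
    have hb2int : ∀ x, σ0 < x → LapInt b2 x := fun x hx => (hbint x hx).indicator measurableSet_Ioi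
    have hb12 : ∀ t, b2 t = (g t - ε * LL N bad t) - b1 t := by
      intro t
      by_cases ht : t0 < t
      · have h1 : t ∉ Iic t0 := by simpa using ht
        rw [hb2, hb1, indicator_of_mem (show t ∈ Ioi t0 from ht), indicator_of_notMem h1]
        simp [hb]
      · have h1 : t ∈ Iic t0 := by simpa using ht
        have h2 : t ∉ Ioi t0 := by simpa using ht
        rw [hb2, hb1, indicator_of_mem h1, indicator_of_notMem h2]
        simp [hb]
    have hLapb2 : ∀ w : ℂ, σ0 < w.re → Lap b2 w = Lap g w - ε * Lap (LL N bad) w - Lap b1 w := by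
      intro w hw
      have h1 : b2 = fun t => b t - b1 t := by
        funext t
        rw [hb12 t]
      have h2 : LapInt (fun t => ε * LL N bad t) w.re := (hgt w.re hw).const_mul ε
      rw [h1, Lap_sub hbm hb1m (hbint w.re hw) (hb1int w.re)]
      rw [hb, Lap_sub hg (hLm.const_mul ε) (hgi w.re (hσθ.trans hw)) h2, Lap_const_mul]
    -- the analytic continuation
    set Ψw : ℂ → ℂ := fun w => Lap g w
      - ε * ((Hf N bad w + D0 N bad w - q w - E ws) / w) - Lap b1 w with hΨw
    have hΨd : DifferentiableOn ℂ Ψw (Metric.ball (σ0 : ℂ) (3 * ρ)) := by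
      apply DifferentiableOn.sub
      · apply DifferentiableOn.sub
        · exact (differentiableOn_Lap hg θ hgi).mono fun w hw => hball_re w hw
        · apply DifferentiableOn.const_mul
          apply DifferentiableOn.div
          · exact ((hHD.mono fun w hw => show 0 < w.re from
              lt_of_le_of_lt hθ (hball_re w hw)).sub hqd).sub_const _
          · exact differentiableOn_id
          · intro w hw h0
            have h1 := hball_re w hw
            have h2 : w = 0 := h0
            rw [h2, zero_re] at h1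
            linarith
      · exact (differentiableOn_Lap hb1m θ fun x _ => hb1int x).mono fun w hw => hball_re w hw
    have hΨeq : ∀ w ∈ U, Lap b2 w = Ψw w := by
      intro w hw
      rw [hLapb2 w hw.2]
      simp only [hΨw]
      have h1 := hEconst w hw
      have hw0 : w ≠ 0 := by
        rintro rfl
        have : σ0 < (0 : ℂ).re := hw.2
        rw [zero_re] at this
        linarith
      have h2 : Lap (LL N bad) w = (Hf N bad w + D0 N bad w - q w - E ws) / w := by
        rw [eq_div_iff hw0, ← h1]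
        simp only [hE]
        ring
      rw [h2]
    have hmapball : ∀ z ∈ Metric.ball ((-σ0 : ℝ) : ℂ) (3 * ρ), -z ∈ Metric.ball (σ0 : ℂ) (3 * ρ) := by
      intro z hz
      rw [Metric.mem_ball, dist_eq_norm] at *
      have : -z - (σ0 : ℂ) = -(z - ((-σ0 : ℝ) : ℂ)) := by push_cast; ring
      rw [this, norm_neg]
      exact hz
    have hL := landau (dens b2) (ae_nonneg_dens b2) (-σ0) ?_ (fun z => Ψw (-z)) ρ hρ0 ?_ ?_
    · rw [integrable_dens_iff hb2m hb2nn] at hL
      have hx : -(-σ0 + ρ / 2) = σ0 - ρ / 2 := by ring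
      rw [hx] at hL
      have hθx : θ < σ0 - ρ / 2 := by
        have : r' ≤ σ0 - θ := min_le_right _ _
        linarith
      apply hlt (σ0 - ρ / 2) hθx (by linarith)
      have h1 : LapInt (fun t => ε * (g t - b1 t - b2 t)) (σ0 - ρ / 2) :=
        (((hgi _ hθx).sub (hb1int _)).sub hL).const_mul ε
      have h2 : (fun t => ε * (g t - b1 t - b2 t)) = LL N bad := by
        funext t
        rw [hb12 t]
        rcases hε with h | h <;> rw [h] <;> ring
      rwa [h2] at h1
    · intro x hx
      rw [integrable_dens_iff hb2m hb2nn]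
      exact hb2int (-x) (by linarith)
    · exact hΨd.comp differentiableOn_id.neg hmapball
    · intro z hz hzre
      rw [integral_dens hb2m hb2nn]
      apply hΨeq
      refine ⟨hmapball z hz, ?_⟩
      show σ0 < (-z).re
      rw [neg_re]
      linarith

end

end Pool.Agent.Helper13.Bsd
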