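import Mathlib
import Pool.Agent.Helper13.Bsd.Continue

/-!
# Behaviour of the Laplace transform at the edge
-/

namespace Pool.Agent.Helper13.Bsd

open Complex Filter Topology MeasureTheory Set

/-- truncated logarithm -/
noncomputable def lg (t : ℝ) : ℝ := Real.log (max t 1)

lemma measurable_lg : Measurable lg := Real.measurable_log.comp (measurable_id.max measurable_const)

lemma lg_nonneg (t : ℝ) : 0 ≤ lg t := Real.log_nonneg (le_max_right _ _)

lemma lg_of_one_le {t : ℝ} (ht : 1 ≤ t) : lg t = Real.log t := by rw [lg, max_eq_left ht]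

lemma lg_le (t w : ℝ) (ht : 0 < t) (hw : 0 < w) (hw1 : w ≤ 1) : lg t ≤ w * t + Real.log (1 / w) := by
  have hlog0 : 0 ≤ Real.log (1 / w) := Real.log_nonneg (by rw [le_div_iff₀ hw]; linarith)
  by_cases h : 1 ≤ t
  · rw [lg_of_one_le h]
    have h1 : Real.log t = Real.log (w * t) + Real.log (1 / w) := by
      rw [← Real.log_mul (by positivity) (by positivity)]
      congr 1
      field_simp
    rw [h1]
    have := Real.log_le_sub_one_of_pos (show 0 < w * t by positivity)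
    linarith
  · push Not at h
    rw [lg, max_eq_right h.le, Real.log_one]
    positivity

lemma le_lg (t w : ℝ) (ht : 0 < t) (hw : 0 < w) (_hw1 : w ≤ 1) :
    Real.log (1 / w) + 2 - 2 * (w * t) ^ (-(1 / 2) : ℝ) ≤ lg t := by
  have key : ∀ u : ℝ, 0 < u → 2 - 2 * u ^ (-(1 / 2) : ℝ) ≤ Real.log u := by
    intro u hu
    have h1 := Real.log_le_sub_one_of_pos (show 0 < u ^ (-(1 / 2) : ℝ) by positivity)
    rw [Real.log_rpow hu] at h1
    linarith
  by_cases h : 1 ≤ t
  · rw [lg_of_one_le h]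
    have h1 : Real.log t = Real.log (w * t) + Real.log (1 / w) := by
      rw [← Real.log_mul (by positivity) (by positivity)]
      congr 1
      field_simp
    rw [h1]
    have := key (w * t) (by positivity)
    linarith
  · push Not at h
    rw [lg, max_eq_right h.le, Real.log_one]
    have h1 := key w hw
    have h2 : w ^ (-(1 / 2) : ℝ) ≤ (w * t) ^ (-(1 / 2) : ℝ) :=
      Real.rpow_le_rpow_of_nonpos (by positivity) (by nlinarith) (by norm_num)
    rw [one_div, Real.log_inv]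
    linarith

lemma integrableOn_exp_neg {w : ℝ} (hw : 0 < w) : IntegrableOn (fun t : ℝ => Real.exp (-w * t)) (Ioi 0) :=
  integrableOn_exp_mul_Ioi (by linarith) 0

lemma integral_exp_neg {w : ℝ} (hw : 0 < w) : ∫ t in Ioi (0 : ℝ), Real.exp (-w * t) = 1 / w := by
  rw [integral_exp_mul_Ioi (by linarith)]
  simp

lemma integrableOn_rpow_exp {w a : ℝ} (hw : 0 < w) (ha : -1 < a) :
    IntegrableOn (fun t : ℝ => t ^ a * Real.exp (-w * t)) (Ioi 0) := by
  have := integrableOn_rpow_mul_exp_neg_mul_rpow (s := a) (p := 1) (b := w) ha (by norm_num) hw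
  simpa using this

lemma integral_rpow_exp {w a : ℝ} (hw : 0 < w) (ha : 0 < a) :
    ∫ t in Ioi (0 : ℝ), t ^ (a - 1) * Real.exp (-w * t) = (1 / w) ^ a * Real.Gamma a := by
  have := Real.integral_rpow_mul_exp_neg_mul_Ioi ha hw
  rw [← this]
  congr 1
  funext t
  congr 2
  ring

lemma LapInt_lg {w : ℝ} (hw : 0 < w) : LapInt lg w := by
  unfold LapInt
  have h1 : IntegrableOn (fun t : ℝ => t ^ (1 : ℝ) * Real.exp (-w * t)) (Ioi 0) :=
    integrableOn_rpow_exp hw (by norm_num)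
  refine Integrable.mono' h1 ?_ ?_
  · exact (measurable_lg.mul (by fun_prop)).aestronglyMeasurable
  · rw [ae_restrict_iff' measurableSet_Ioi]
    filter_upwards with t ht
    have ht' : 0 < t := ht
    rw [norm_mul, Real.norm_eq_abs, Real.norm_eq_abs, Real.abs_exp, abs_of_nonneg (lg_nonneg t)]
    have h2 := lg_le t 1 ht' one_pos le_rfl
    rw [one_mul, one_div, inv_one, Real.log_one, add_zero] at h2
    rw [Real.rpow_one]
    gcongr

lemma abel_lg (w : ℝ) (hw : 0 < w) (hw1 : w ≤ 1) :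
    |w * (∫ t in Ioi (0 : ℝ), lg t * Real.exp (-w * t)) - Real.log (1 / w)| ≤ 2 := by
  have hint := LapInt_lg hw
  rw [abs_le]
  constructor
  · -- lower bound
    have h1 : IntegrableOn (fun t : ℝ => (Real.log (1 / w) + 2) * Real.exp (-w * t)
        - (2 * w ^ (-(1 / 2) : ℝ)) * (t ^ (-(1 / 2) : ℝ) * Real.exp (-w * t))) (Ioi 0) :=
      ((integrableOn_exp_neg hw).const_mul _).sub
        ((integrableOn_rpow_exp hw (by norm_num)).const_mul _)
    have h2 : ∫ t in Ioi (0 : ℝ), ((Real.log (1 / w) + 2) * Real.exp (-w * t)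
        - (2 * w ^ (-(1 / 2) : ℝ)) * (t ^ (-(1 / 2) : ℝ) * Real.exp (-w * t)))
        ≤ ∫ t in Ioi (0 : ℝ), lg t * Real.exp (-w * t) := by
      apply setIntegral_mono_on h1 hint measurableSet_Ioi
      intro t ht
      have ht' : 0 < t := ht
      have h3 := le_lg t w ht' hw hw1
      rw [Real.mul_rpow hw.le ht'.le] at h3
      have h4 : 0 < Real.exp (-w * t) := Real.exp_pos _
      calc (Real.log (1 / w) + 2) * Real.exp (-w * t)
            - (2 * w ^ (-(1 / 2) : ℝ)) * (t ^ (-(1 / 2) : ℝ) * Real.exp (-w * t))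
          = (Real.log (1 / w) + 2 - 2 * (w ^ (-(1 / 2) : ℝ) * t ^ (-(1 / 2) : ℝ)))
            * Real.exp (-w * t) := by ring
        _ ≤ _ := by gcongr
    have h5 : ∫ t in Ioi (0 : ℝ), t ^ (-(1 / 2) : ℝ) * Real.exp (-w * t)
        = (1 / w) ^ (1 / 2 : ℝ) * Real.Gamma (1 / 2) := by
      have := integral_rpow_exp hw (show (0 : ℝ) < 1 / 2 by norm_num)
      rw [← this]
      norm_num
    rw [integral_sub ((integrableOn_exp_neg hw).const_mul _)
      ((integrableOn_rpow_exp hw (by norm_num)).const_mul _), integral_const_mul,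
      integral_const_mul, integral_exp_neg hw, h5, Real.Gamma_one_half_eq] at h2
    have h6 : w ^ (-(1 / 2) : ℝ) * (1 / w) ^ (1 / 2 : ℝ) = 1 / w := by
      rw [one_div w, Real.inv_rpow hw.le, ← Real.rpow_neg hw.le, ← Real.rpow_add hw]
      norm_num
      rw [Real.rpow_neg_one]
    have h7 : Real.sqrt Real.pi ≤ 2 := by
      rw [Real.sqrt_le_left (by norm_num)]
      have := Real.pi_lt_d2
      linarith
    have h8 : (Real.log (1 / w) + 2) * (1 / w) - 2 * (1 / w) * Real.sqrt Real.pi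
        ≤ ∫ t in Ioi (0 : ℝ), lg t * Real.exp (-w * t) := by
      refine le_trans (le_of_eq ?_) h2
      rw [show 2 * w ^ (-(1 / 2) : ℝ) * ((1 / w) ^ (1 / 2 : ℝ) * Real.sqrt Real.pi)
        = 2 * (w ^ (-(1 / 2) : ℝ) * (1 / w) ^ (1 / 2 : ℝ)) * Real.sqrt Real.pi by ring, h6]
    have h9 := mul_le_mul_of_nonneg_left h8 hw.le
    have h10 : w * ((Real.log (1 / w) + 2) * (1 / w) - 2 * (1 / w) * Real.sqrt Real.pi)
        = Real.log (1 / w) + 2 - 2 * Real.sqrt Real.pi := by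
      field_simp
    rw [h10] at h9
    linarith
  · -- upper bound
    have h1 : IntegrableOn (fun t : ℝ => w * (t ^ (1 : ℝ) * Real.exp (-w * t))
        + Real.log (1 / w) * Real.exp (-w * t)) (Ioi 0) :=
      ((integrableOn_rpow_exp hw (by norm_num)).const_mul _).add
        ((integrableOn_exp_neg hw).const_mul _)
    have h2 : ∫ t in Ioi (0 : ℝ), lg t * Real.exp (-w * t)
        ≤ ∫ t in Ioi (0 : ℝ), (w * (t ^ (1 : ℝ) * Real.exp (-w * t))
          + Real.log (1 / w) * Real.exp (-w * t)) := by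
      apply setIntegral_mono_on hint h1 measurableSet_Ioi
      intro t ht
      have ht' : 0 < t := ht
      have h3 := lg_le t w ht' hw hw1
      have h4 : 0 < Real.exp (-w * t) := Real.exp_pos _
      rw [Real.rpow_one]
      calc lg t * Real.exp (-w * t) ≤ (w * t + Real.log (1 / w)) * Real.exp (-w * t) := by gcongr
        _ = _ := by ring
    have h5 : ∫ t in Ioi (0 : ℝ), t ^ (1 : ℝ) * Real.exp (-w * t) = (1 / w) ^ 2 := by
      have := integral_rpow_exp hw (show (0 : ℝ) < 2 by norm_num)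
      rw [Real.Gamma_two, mul_one] at this
      have e : (2 : ℝ) - 1 = 1 := by norm_num
      rw [e] at this
      rw [this]
      norm_num
    rw [integral_add ((integrableOn_rpow_exp hw (by norm_num)).const_mul _)
      ((integrableOn_exp_neg hw).const_mul _), integral_const_mul, integral_const_mul,
      integral_exp_neg hw, h5] at h2
    have h9 := mul_le_mul_of_nonneg_left h2 hw.le
    have h10 : w * (w * (1 / w) ^ 2 + Real.log (1 / w) * (1 / w)) = 1 + Real.log (1 / w) := by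
      field_simp
    rw [h10] at h9
    linarith

section

variable (N : ℕ → ℕ) (bad : ℕ → Prop) [DecidablePred bad]

theorem abel_LL (F : ℂ → ℂ) (hFd : Differentiable ℂ F) (hN : ∀ p : ℕ, p.Prime → 1 ≤ N p)
    (hH : ∀ p : ℕ, p.Prime → |(p : ℝ) + 1 - N p| ≤ 14 * Real.sqrt p)
    (hF : ∀ s : ℂ, 3 / 2 < s.re → HasProd (fun p : Nat.Primes =>
      if bad (p : ℕ) then (1 : ℂ)
      else (1 - (((p : ℕ) : ℂ) + 1 - ((N (p : ℕ) : ℕ) : ℂ)) * ((p : ℕ) : ℂ) ^ (-s)
              + ((p : ℕ) : ℂ) ^ (1 - 2 * s))⁻¹) (F s))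
    (hint : ∀ x, 0 < x → LapInt (LL N bad) x) :
    ∃ C δ : ℝ, 0 < δ ∧ ∀ w : ℝ, 0 < w → w < δ →
      |w * (∫ t in Ioi (0 : ℝ), LL N bad t * Real.exp (-w * t))
        - (analyticOrderNatAt F 1) * Real.log (1 / w)| ≤ C := by
  have hid := key_identity N bad F hFd hN hH hF 0 le_rfl hint
  set r := analyticOrderNatAt F 1 with hr
  have hGd := differentiable_Gf N bad F hFd
  -- F is not locally zero at 1
  have hFan : AnalyticAt ℂ F 1 := hFd.analyticAt 1
  have hnormG : ∀ x : ℝ, 0 < x → ‖Gf N bad F (x : ℂ)‖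
      = Real.exp ((Hf N bad (x : ℂ) + D0 N bad (x : ℂ)).re
        - x * ∫ t in Ioi (0 : ℝ), LL N bad t * Real.exp (-x * t)) := by
    intro x hx
    rw [hid (x : ℂ) (by rw [ofReal_re]; exact hx), norm_exp, re_Lap_ofReal]
    congr 1
    rw [sub_re, ← ofReal_mul, ofReal_re]
  have hFne : ∀ x : ℝ, 0 < x → F (1 + x) ≠ 0 := by
    intro x hx h0
    have h1 := hnormG x hx
    rw [Gf, h0, zero_mul, norm_zero] at h1
    exact absurd h1.symm (Real.exp_pos _).ne'
  have htend : Tendsto (fun x : ℝ => (1 : ℂ) + x) (𝓝[>] 0) (𝓝 1) := by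
    have h1 : Tendsto (fun x : ℝ => (x : ℂ)) (𝓝[>] 0) (𝓝 ((0 : ℝ) : ℂ)) :=
      (continuous_ofReal.tendsto 0).mono_left nhdsWithin_le_nhds
    have h2 := h1.const_add (1 : ℂ)
    simpa using h2
  have hord : analyticOrderAt F 1 ≠ ⊤ := by
    intro h
    rw [analyticOrderAt_eq_top] at h
    have h1 := htend.eventually h
    have h2 : ∀ᶠ x : ℝ in 𝓝[>] 0, (0 : ℝ) < x := self_mem_nhdsWithin
    obtain ⟨x, hx1, hx2⟩ := (h1.and h2).exists
    exact hFne x hx2 hx1
  obtain ⟨g, hga, hg0, hgeq⟩ := hFan.analyticOrderAt_ne_top.mp hord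
  -- the nonvanishing cofactor
  set Pr : ℂ → ℂ := fun w => ∏ p ∈ smallP, if bad p then 1 else 1 - zz N p w with hPr
  have hPrd : Continuous Pr := by
    rw [hPr]
    apply continuous_finsetProd
    intro p _
    split_ifs
    · exact continuous_const
    · exact continuous_const.sub (differentiable_zz N p p.2).continuous
  have hPr0 : Pr 0 ≠ 0 := by
    rw [hPr]
    apply Finset.prod_ne_zero_iff.mpr
    intro p _
    split_ifs
    · exact one_ne_zero
    · have := one_sub_zz_ne_zero N hN p p.2 0 le_rfl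
      simpa using this
  set Q : ℝ → ℝ := fun x => ‖g (1 + x) * Pr x‖ with hQ
  have hQlim : Tendsto Q (𝓝[>] 0) (𝓝 ‖g 1 * Pr 0‖) := by
    apply Tendsto.norm
    apply Tendsto.mul
    · exact hga.continuousAt.tendsto.comp htend
    · have h1 : Tendsto (fun x : ℝ => (x : ℂ)) (𝓝[>] 0) (𝓝 ((0 : ℝ) : ℂ)) :=
        (continuous_ofReal.tendsto 0).mono_left nhdsWithin_le_nhds
      have h2 := (hPrd.tendsto ((0 : ℝ) : ℂ)).comp h1
      rw [ofReal_zero] at h2
      exact h2
  have hq0 : 0 < ‖g 1 * Pr 0‖ := norm_pos_iff.mpr (mul_ne_zero hg0 hPr0)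
  set q0 := ‖g 1 * Pr 0‖ with hq0def
  have hQev : ∀ᶠ x : ℝ in 𝓝[>] 0, q0 / 2 < Q x ∧ Q x < 2 * q0 :=
    (hQlim.eventually (lt_mem_nhds (by linarith))).and
      (hQlim.eventually (gt_mem_nhds (by linarith)))
  have hGeq : ∀ᶠ x : ℝ in 𝓝[>] 0, ‖Gf N bad F (x : ℂ)‖ = x ^ r * Q x := by
    have h1 := htend.eventually hgeq
    have h2 : ∀ᶠ x : ℝ in 𝓝[>] 0, (0 : ℝ) < x := self_mem_nhdsWithin
    filter_upwards [h1, h2] with x hx1 hx2
    rw [Gf, hx1, hQ]
    have e : (1 : ℂ) + x - 1 = x := by ring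
    rw [e, smul_eq_mul]
    simp only [hPr, norm_mul, norm_pow, norm_real, Real.norm_eq_abs, abs_of_pos hx2]
    ring
  obtain ⟨CH, δH, hδH, hCH⟩ := Hf_bounded N bad hH
  have hD0c : Tendsto (fun x : ℝ => D0 N bad (x : ℂ)) (𝓝[>] 0) (𝓝 (D0 N bad ((0 : ℝ) : ℂ))) := by
    have h1 : Tendsto (fun x : ℝ => (x : ℂ)) (𝓝[>] 0) (𝓝 ((0 : ℝ) : ℂ)) :=
      (continuous_ofReal.tendsto 0).mono_left nhdsWithin_le_nhds
    exact ((differentiable_D0 N bad).continuous.tendsto _).comp h1
  set CD := ‖D0 N bad ((0 : ℝ) : ℂ)‖ + 1 with hCD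
  have hD0ev : ∀ᶠ x : ℝ in 𝓝[>] 0, ‖D0 N bad (x : ℂ)‖ < CD :=
    hD0c.norm.eventually (gt_mem_nhds (by rw [hCD]; linarith))
  set C := CH + CD + |Real.log (q0 / 2)| + |Real.log (2 * q0)| with hC
  have hfin : ∀ᶠ w : ℝ in 𝓝[>] 0, |w * (∫ t in Ioi (0 : ℝ), LL N bad t * Real.exp (-w * t))
        - r * Real.log (1 / w)| ≤ C := by
    have h2 : ∀ᶠ x : ℝ in 𝓝[>] 0, (0 : ℝ) < x := self_mem_nhdsWithin
    have h3 : ∀ᶠ x : ℝ in 𝓝[>] 0, x < δH :=
      (gt_mem_nhds hδH : ∀ᶠ x : ℝ in 𝓝 0, x < δH).filter_mono nhdsWithin_le_nhds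
    filter_upwards [hQev, hGeq, hD0ev, h2, h3] with w hw1 hw2 hw3 hw4 hw5
    have h4 := hnormG w hw4
    rw [hw2] at h4
    have hQpos : 0 < Q w := by linarith [hw1.1]
    have h5 : Real.log (w ^ r * Q w) = (Hf N bad (w : ℂ) + D0 N bad (w : ℂ)).re
        - w * ∫ t in Ioi (0 : ℝ), LL N bad t * Real.exp (-w * t) := by
      rw [h4, Real.log_exp]
    rw [Real.log_mul (by positivity) hQpos.ne', Real.log_pow] at h5
    have h6 : Real.log (1 / w) = -Real.log w := by rw [one_div, Real.log_inv]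
    have h7 : w * (∫ t in Ioi (0 : ℝ), LL N bad t * Real.exp (-w * t)) - r * Real.log (1 / w)
        = (Hf N bad (w : ℂ) + D0 N bad (w : ℂ)).re - Real.log (Q w) := by
      rw [h6]
      linarith
    rw [h7]
    have h8 : |(Hf N bad (w : ℂ) + D0 N bad (w : ℂ)).re| ≤ CH + CD := by
      refine (abs_re_le_norm _).trans ((norm_add_le _ _).trans ?_)
      exact add_le_add (hCH w hw4 hw5) hw3.le
    have h9 : |Real.log (Q w)| ≤ |Real.log (q0 / 2)| + |Real.log (2 * q0)| := by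
      have h10 := Real.log_le_log (by positivity) hw1.1.le
      have h11 := Real.log_le_log hQpos hw1.2.le
      have := neg_abs_le (Real.log (q0 / 2))
      have := le_abs_self (Real.log (2 * q0))
      have := abs_nonneg (Real.log (q0 / 2))
      have := abs_nonneg (Real.log (2 * q0))
      rw [abs_le]
      constructor <;> linarith
    refine (abs_sub _ _).trans ?_
    rw [hC]
    linarith
  rw [eventually_nhdsWithin_iff, Metric.eventually_nhds_iff] at hfin
  obtain ⟨δ, hδ, h⟩ := hfin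
  refine ⟨C, δ, hδ, fun w hw hwδ => h ?_ hw⟩
  rw [Real.dist_eq, sub_zero, abs_of_pos hw]
  exact hwδ

/-- The normalised function `f(t) = log P_E(e^t) - r log t`. -/
noncomputable def fn (r : ℕ) (t : ℝ) : ℝ := LL N bad t - r * lg t

lemma measurable_fn (r : ℕ) : Measurable (fn N bad r) :=
  (measurable_LL N bad).sub (measurable_lg.const_mul _)

theorem abel_fn (F : ℂ → ℂ) (hFd : Differentiable ℂ F) (hN : ∀ p : ℕ, p.Prime → 1 ≤ N p)
    (hH : ∀ p : ℕ, p.Prime → |(p : ℝ) + 1 - N p| ≤ 14 * Real.sqrt p)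
    (hF : ∀ s : ℂ, 3 / 2 < s.re → HasProd (fun p : Nat.Primes =>
      if bad (p : ℕ) then (1 : ℂ)
      else (1 - (((p : ℕ) : ℂ) + 1 - ((N (p : ℕ) : ℕ) : ℂ)) * ((p : ℕ) : ℂ) ^ (-s)
              + ((p : ℕ) : ℂ) ^ (1 - 2 * s))⁻¹) (F s))
    (hint : ∀ x, 0 < x → LapInt (LL N bad) x) :
    (∀ x, 0 < x → LapInt (fn N bad (analyticOrderNatAt F 1)) x) ∧
    ∃ C δ : ℝ, 0 < δ ∧ ∀ w : ℝ, 0 < w → w < δ →
      |w * (∫ t in Ioi (0 : ℝ), fn N bad (analyticOrderNatAt F 1) t * Real.exp (-w * t))| ≤ C := by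
  have hfi : ∀ x, 0 < x → LapInt (fn N bad (analyticOrderNatAt F 1)) x := fun x hx =>
    (hint x hx).sub ((LapInt_lg hx).const_mul _)
  refine ⟨hfi, ?_⟩
  obtain ⟨C, δ, hδ, hC⟩ := abel_LL N bad F hFd hN hH hF hint
  refine ⟨C + analyticOrderNatAt F 1 * 2, min δ 1, lt_min hδ one_pos, ?_⟩
  intro w hw hwδ
  have h1 := hC w hw (hwδ.trans_le (min_le_left _ _))
  have h2 := abel_lg w hw (hwδ.trans_le (min_le_right _ _)).le
  have h3 : ∫ t in Ioi (0 : ℝ), fn N bad (analyticOrderNatAt F 1) t * Real.exp (-w * t)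
      = (∫ t in Ioi (0 : ℝ), LL N bad t * Real.exp (-w * t))
        - (analyticOrderNatAt F 1) * ∫ t in Ioi (0 : ℝ), lg t * Real.exp (-w * t) := by
    rw [← integral_const_mul, ← integral_sub (hint w hw)]
    · congr 1
      funext t
      rw [fn]
      ring
    · exact Integrable.const_mul (LapInt_lg hw) _
  rw [h3]
  have h4 : w * ((∫ t in Ioi (0 : ℝ), LL N bad t * Real.exp (-w * t))
        - (analyticOrderNatAt F 1) * ∫ t in Ioi (0 : ℝ), lg t * Real.exp (-w * t))
      = (w * (∫ t in Ioi (0 : ℝ), LL N bad t * Real.exp (-w * t))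
        - (analyticOrderNatAt F 1) * Real.log (1 / w))
        - (analyticOrderNatAt F 1) * (w * (∫ t in Ioi (0 : ℝ), lg t * Real.exp (-w * t))
        - Real.log (1 / w)) := by ring
  rw [h4]
  refine (abs_sub _ _).trans (add_le_add h1 ?_)
  rw [abs_mul, abs_of_nonneg (by positivity : (0 : ℝ) ≤ (analyticOrderNatAt F 1 : ℝ))]
  gcongr

end

end Pool.Agent.Helper13.Bsd
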