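import Mathlib

/-!
# Stepanov's method for `y ^ 2 = f x` with `f` a cubic over `ZMod p`

We prove an elementary Hasse-type bound (with a worse constant) by Stepanov's method.
-/

namespace Pool.Agent.Helper13.Bsd

open Polynomial Finset

section Stepanov

variable {p : ℕ} [Fact p.Prime] (f : (ZMod p)[X])

/-- The operators with `derivative^[k] (f ^ c * r) = f ^ (c - k) * Dop f c k r`. -/
noncomputable def Dop (c : ℕ) : ℕ → ((ZMod p)[X] →ₗ[ZMod p] (ZMod p)[X])
  | 0 => LinearMap.id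
  | (k + 1) =>
      (LinearMap.mulLeft (ZMod p) (((c : (ZMod p)[X]) - (k : (ZMod p)[X])) * derivative f)) ∘ₗ
          (Dop c k)
        + (LinearMap.mulLeft (ZMod p) f) ∘ₗ Polynomial.derivative ∘ₗ (Dop c k)

lemma Dop_zero (c : ℕ) (r : (ZMod p)[X]) : Dop f c 0 r = r := rfl

lemma Dop_succ (c k : ℕ) (r : (ZMod p)[X]) :
    Dop f c (k + 1) r = (((c : (ZMod p)[X]) - (k : (ZMod p)[X])) * derivative f) * Dop f c k r
      + f * derivative (Dop f c k r) := rfl

lemma iterate_derivative_eq (c : ℕ) (r : (ZMod p)[X]) (k : ℕ) (hk : k ≤ c) :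
    derivative^[k] (f ^ c * r) = f ^ (c - k) * Dop f c k r := by
  induction k with
  | zero => simp [Dop_zero]
  | succ k ih =>
    have hk' : k ≤ c := by omega
    rw [Function.iterate_succ_apply', ih hk', Dop_succ, derivative_mul, derivative_pow]
    obtain ⟨e, rfl⟩ : ∃ e, c = k + 1 + e := ⟨c - (k + 1), by omega⟩
    have h1 : k + 1 + e - k = e + 1 := by omega
    have h2 : k + 1 + e - (k + 1) = e := by omega
    rw [h1, h2]
    simp only [Nat.add_sub_cancel, map_natCast]
    push_cast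
    ring

lemma natDegree_Dop_le (hf : f.natDegree ≤ 3) (c k : ℕ) (r : (ZMod p)[X]) :
    (Dop f c k r).natDegree ≤ r.natDegree + 2 * k := by
  induction k with
  | zero => simp [Dop_zero]
  | succ k ih =>
    rw [Dop_succ]
    refine (natDegree_add_le _ _).trans (max_le ?_ ?_)
    · refine natDegree_mul_le.trans ?_
      have h1 : ((((c : (ZMod p)[X]) - (k : (ZMod p)[X])) * derivative f)).natDegree ≤ 2 := by
        have h0 : ((c : (ZMod p)[X]) - (k : (ZMod p)[X])) = C ((c : ZMod p) - (k : ZMod p)) := by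
          simp
        rw [h0]
        refine (natDegree_C_mul_le _ _).trans ((natDegree_derivative_le _).trans ?_)
        omega
      omega
    · by_cases h0 : (Dop f c k r).natDegree = 0
      · rw [Polynomial.eq_C_of_natDegree_eq_zero h0]
        simp
      · refine natDegree_mul_le.trans ?_
        have := natDegree_derivative_le (Dop f c k r)
        omega

lemma Dop_mul_X_pow (c k : ℕ) (r : (ZMod p)[X]) (j : ℕ) :
    Dop f c k (r * X ^ (p * j)) = Dop f c k r * X ^ (p * j) := by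
  induction k with
  | zero => simp [Dop_zero]
  | succ k ih =>
    have hd : derivative (X ^ (p * j) : (ZMod p)[X]) = 0 := by
      rw [derivative_X_pow]
      simp
    rw [Dop_succ, Dop_succ, ih, derivative_mul, hd]
    ring

/-- The polynomial with `p`-adic digits in degrees `< d`. -/
noncomputable def Hpoly (J d : ℕ) (v : Fin J × Fin d → ZMod p) : (ZMod p)[X] :=
  ∑ ji : Fin J × Fin d, C (v ji) * (X ^ (ji.2 : ℕ) * X ^ (p * (ji.1 : ℕ)))

lemma coeff_Hpoly (J d : ℕ) (v : Fin J × Fin d → ZMod p) (n : ℕ) :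
    (Hpoly J d v).coeff n = ∑ ji : Fin J × Fin d, if n = p * (ji.1 : ℕ) + ji.2 then v ji else 0 := by
  unfold Hpoly
  rw [finsetSum_coeff]
  refine Finset.sum_congr rfl fun ji _ => ?_
  rw [← pow_add, coeff_C_mul_X_pow, add_comm]

lemma coeff_Hpoly_digit (J d : ℕ) (hd : d ≤ p) (v : Fin J × Fin d → ZMod p) (ji : Fin J × Fin d) :
    (Hpoly J d v).coeff (p * (ji.1 : ℕ) + ji.2) = v ji := by
  rw [coeff_Hpoly, Finset.sum_eq_single ji]
  · simp
  · intro b _ hb
    rw [if_neg]
    intro h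
    apply hb
    have hb2 := b.2.isLt
    have hj2 := ji.2.isLt
    have hp : 0 < p := (Fact.out : p.Prime).pos
    have h1 : (p * (ji.1 : ℕ) + ji.2) / p = (p * (b.1 : ℕ) + b.2) / p := by rw [h]
    rw [Nat.mul_add_div hp, Nat.mul_add_div hp, Nat.div_eq_of_lt (by omega),
      Nat.div_eq_of_lt (by omega)] at h1
    have h2 : (b.1 : ℕ) = ji.1 := by omega
    rw [h2] at h
    have h3 : (b.2 : ℕ) = ji.2 := by omega
    exact Prod.ext (Fin.ext h2) (Fin.ext h3)
  · simp

lemma Hpoly_eq_zero (J d : ℕ) (hd : d ≤ p) (v : Fin J × Fin d → ZMod p) (h : Hpoly J d v = 0) :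
    v = 0 := by
  funext ji
  rw [← coeff_Hpoly_digit J d hd v ji, h]
  simp

lemma mod_lt_of_coeff_ne (J d : ℕ) (v : Fin J × Fin d → ZMod p) (n : ℕ)
    (h : (Hpoly J d v).coeff n ≠ 0) : ∃ j i, n = p * j + i ∧ i < d ∧ j < J := by
  rw [coeff_Hpoly] at h
  obtain ⟨ji, _, hji⟩ := Finset.exists_ne_zero_of_sum_ne_zero h
  refine ⟨ji.1, ji.2, ?_, ji.2.isLt, ji.1.isLt⟩
  by_contra h'
  exact hji (if_neg h')

lemma natDegree_Hpoly_le (J d : ℕ) (v : Fin J × Fin d → ZMod p) :
    (Hpoly J d v).natDegree ≤ p * (J - 1) + (d - 1) := by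
  refine natDegree_sum_le_of_forall_le _ _ fun ji _ => ?_
  rw [← pow_add]
  refine (natDegree_C_mul_X_pow_le _ _).trans ?_
  have h1 : (ji.2 : ℕ) ≤ d - 1 := by have := ji.2.isLt; omega
  have h2 : (ji.1 : ℕ) ≤ J - 1 := by have := ji.1.isLt; omega
  have := Nat.mul_le_mul_left p h2
  omega

/-- The nonvanishing lemma. -/
lemma nonvanishing (hf : f.natDegree = 3) (hp2 : p ≠ 2) (J d : ℕ) (hd : 2 * d + 1 < p)
    (v w : Fin J × Fin d → ZMod p)
    (h : Hpoly J d v + f ^ ((p - 1) / 2) * Hpoly J d w = 0) : v = 0 ∧ w = 0 := by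
  have hodd : Odd p := (Fact.out : p.Prime).odd_of_ne_two hp2
  have hhalf : 2 * ((p - 1) / 2) + 1 = p := by
    obtain ⟨k, hk⟩ := hodd
    omega
  have hf0 : f ≠ 0 := by
    rintro rfl
    simp at hf
  have hsq : f * (Hpoly J d v) ^ 2 = f ^ p * (Hpoly J d w) ^ 2 := by
    have h1 : Hpoly J d v = - (f ^ ((p - 1) / 2) * Hpoly J d w) := eq_neg_of_add_eq_zero_left h
    have h2 : f ^ p = f ^ (2 * ((p - 1) / 2) + 1) := by rw [hhalf]
    rw [h1, h2]
    ring
  have hw : w = 0 := by
    by_contra hw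
    have hHw : Hpoly J d w ≠ 0 := fun h' => hw (Hpoly_eq_zero J d (by omega) w h')
    have hHv : Hpoly J d v ≠ 0 := by
      intro h'
      rw [h'] at hsq
      have : f ^ p * (Hpoly J d w) ^ 2 ≠ 0 := mul_ne_zero (pow_ne_zero _ hf0) (pow_ne_zero _ hHw)
      apply this
      rw [← hsq]
      ring
    have hdeg := congrArg natDegree hsq
    rw [natDegree_mul hf0 (pow_ne_zero _ hHv), natDegree_mul (pow_ne_zero _ hf0)
      (pow_ne_zero _ hHw), natDegree_pow, natDegree_pow, natDegree_pow, hf] at hdeg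
    obtain ⟨j1, i1, e1, l1, -⟩ := mod_lt_of_coeff_ne J d v (Hpoly J d v).natDegree
      (by rw [coeff_natDegree]; exact leadingCoeff_ne_zero.mpr hHv)
    obtain ⟨j2, i2, e2, l2, -⟩ := mod_lt_of_coeff_ne J d w (Hpoly J d w).natDegree
      (by rw [coeff_natDegree]; exact leadingCoeff_ne_zero.mpr hHw)
    rw [e1, e2] at hdeg
    have hz : (p : ℤ) * (3 + 2 * j2 - 2 * j1) = 3 + 2 * i1 - 2 * i2 := by
      have : ((3 + 2 * (p * j1 + i1) : ℕ) : ℤ) = ((p * 3 + 2 * (p * j2 + i2) : ℕ) : ℤ) := by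
        exact_mod_cast hdeg
      push_cast at this
      linarith
    rcases lt_trichotomy (3 + 2 * (j2 : ℤ) - 2 * j1) 0 with h1 | h1 | h1
    · have : (p : ℤ) * (3 + 2 * j2 - 2 * j1) ≤ (p : ℤ) * (-1) :=
        mul_le_mul_of_nonneg_left (by omega) (by positivity)
      omega
    · omega
    · have : (p : ℤ) * 1 ≤ (p : ℤ) * (3 + 2 * j2 - 2 * j1) :=
        mul_le_mul_of_nonneg_left (by omega) (by positivity)
      omega
  refine ⟨?_, hw⟩
  apply Hpoly_eq_zero J d (by omega)
  rw [hw] at h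
  have h0 : Hpoly J d (0 : Fin J × Fin d → ZMod p) = 0 := by simp [Hpoly]
  rw [h0] at h
  simpa using h

/-- The auxiliary polynomials `U_k`. -/
noncomputable def Upoly (a : ZMod p) (c c' J d k : ℕ) :
    ((Fin J × Fin d → ZMod p) × (Fin J × Fin d → ZMod p)) →ₗ[ZMod p] (ZMod p)[X] where
  toFun v := (∑ ji : Fin J × Fin d, C (v.1 ji) * (Dop f c k (X ^ (ji.2 : ℕ)) * X ^ (ji.1 : ℕ)))
    + C a * (∑ ji : Fin J × Fin d, C (v.2 ji) * (Dop f c' k (X ^ (ji.2 : ℕ)) * X ^ (ji.1 : ℕ)))
  map_add' v w := by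
    simp only [Prod.fst_add, Prod.snd_add, Pi.add_apply, C_add, add_mul, Finset.sum_add_distrib]
    ring
  map_smul' r v := by
    simp only [Prod.smul_fst, Prod.smul_snd, Pi.smul_apply, smul_eq_mul, C_mul, RingHom.id_apply,
      smul_eq_C_mul, mul_add, Finset.mul_sum]
    congr 1
    · refine Finset.sum_congr rfl fun _ _ => by ring
    · refine Finset.sum_congr rfl fun _ _ => by ring

lemma natDegree_Upoly_lt (hf : f.natDegree ≤ 3) (a : ZMod p) (c c' J d k : ℕ) (hJ : 0 < J)
    (hd : 0 < d) (v : (Fin J × Fin d → ZMod p) × (Fin J × Fin d → ZMod p)) :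
    (Upoly f a c c' J d k v).natDegree < d + 2 * k + J := by
  have key : ∀ (e : ℕ) (ji : Fin J × Fin d) (r : ZMod p),
      (C r * (Dop f e k (X ^ (ji.2 : ℕ)) * X ^ (ji.1 : ℕ))).natDegree ≤ d + 2 * k + J - 1 := by
    intro e ji r
    refine (natDegree_C_mul_le _ _).trans (natDegree_mul_le.trans ?_)
    have h1 := natDegree_Dop_le f hf e k (X ^ (ji.2 : ℕ))
    rw [natDegree_X_pow] at h1
    rw [natDegree_X_pow]
    have := ji.1.isLt
    have := ji.2.isLt
    omega
  have : (Upoly f a c c' J d k v).natDegree ≤ d + 2 * k + J - 1 := by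
    refine (natDegree_add_le _ _).trans (max_le ?_ ?_)
    · exact natDegree_sum_le_of_forall_le _ _ fun ji _ => key _ _ _
    · refine (natDegree_C_mul_le _ _).trans ?_
      exact natDegree_sum_le_of_forall_le _ _ fun ji _ => key _ _ _
  omega

/-- The evaluation identity. -/
lemma eval_Dop_Hpoly (c J d k : ℕ) (v : Fin J × Fin d → ZMod p) (x : ZMod p) :
    (Dop f c k (Hpoly J d v)).eval x =
      (∑ ji : Fin J × Fin d, C (v ji) * (Dop f c k (X ^ (ji.2 : ℕ)) * X ^ (ji.1 : ℕ))).eval x := by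
  unfold Hpoly
  rw [map_sum, eval_finsetSum, eval_finsetSum]
  refine Finset.sum_congr rfl fun ji _ => ?_
  have h1 : Dop f c k (C (v ji) * (X ^ (ji.2 : ℕ) * X ^ (p * (ji.1 : ℕ))))
      = C (v ji) * (Dop f c k (X ^ (ji.2 : ℕ)) * X ^ (p * (ji.1 : ℕ))) := by
    rw [← smul_eq_C_mul, map_smul, Dop_mul_X_pow, smul_eq_C_mul]
  rw [h1]
  simp only [eval_mul, eval_C, eval_pow, eval_X]
  rw [pow_mul, ZMod.pow_card]

theorem stepanov_count (hf : f.natDegree = 3) (m : ℕ) (hm : 1 ≤ m) (hp : 3 * m ^ 2 + m + 3 < p)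
    (a : ZMod p) :
    2 * m * (Finset.univ.filter (fun x : ZMod p => (f.eval x) ^ ((p - 1) / 2) = a ∨ f.eval x = 0)).card
      ≤ 6 * m + p * m + 3 * p := by
  classical
  have hpp : p.Prime := Fact.out
  have hp2 : p ≠ 2 := by
    rintro rfl
    nlinarith
  have hodd : Odd p := hpp.odd_of_ne_two hp2
  obtain ⟨h, hh⟩ : ∃ h, p = 2 * h + 3 := by
    obtain ⟨k, hk⟩ := hodd
    exact ⟨k - 1, by omega⟩
  have hhalf : (p - 1) / 2 = h + 1 := by omega
  set ℓ := 2 * m with hℓ
  set J := m + 2 with hJ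
  set d := h with hd
  set c' := ℓ + (p - 1) / 2 with hc'
  have hhm : 3 * m ^ 2 + m < 2 * h := by omega
  have hdpos : 0 < d := by
    have : 0 < 3 * m ^ 2 := by positivity
    omega
  -- the linear system
  let T : ((Fin J × Fin d → ZMod p) × (Fin J × Fin d → ZMod p)) →ₗ[ZMod p]
      ((Σ k : Fin ℓ, Fin (d + 2 * (k : ℕ) + J)) → ZMod p) :=
    LinearMap.pi fun kn => (Polynomial.lcoeff (ZMod p) (kn.2 : ℕ)) ∘ₗ
      (Upoly f a ℓ c' J d (kn.1 : ℕ))
  have hsum : ∑ k : Fin ℓ, (d + 2 * (k : ℕ) + J) = ℓ * (d + J) + ℓ * (ℓ - 1) := by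
    rw [Fin.sum_univ_eq_sum_range (fun k => d + 2 * k + J) ℓ]
    have : ∀ n : ℕ, ∑ k ∈ Finset.range n, (d + 2 * k + J) = n * (d + J) + n * (n - 1) := by
      intro n
      induction n with
      | zero => simp
      | succ n ih =>
        rw [Finset.sum_range_succ, ih]
        cases n with
        | zero => simp
        | succ n =>
          simp only [Nat.add_sub_cancel]
          ring
    exact this ℓ
  have hrank : Module.finrank (ZMod p) ((Σ k : Fin ℓ, Fin (d + 2 * (k : ℕ) + J)) → ZMod p)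
      < Module.finrank (ZMod p) ((Fin J × Fin d → ZMod p) × (Fin J × Fin d → ZMod p)) := by
    rw [Module.finrank_prod, Module.finrank_fintype_fun_eq_card,
      Module.finrank_fintype_fun_eq_card, Fintype.card_sigma]
    simp only [Fintype.card_fin, Fintype.card_prod]
    rw [hsum]
    have e1 : ℓ * (d + J) + ℓ * (ℓ - 1) = 2 * m * d + 2 * m * (m + 2) + 2 * m * (2 * m - 1) := by
      rw [hℓ, hJ]; ring
    have e2 : 2 * m * (2 * m - 1) = 4 * m ^ 2 - 2 * m := by
      rw [Nat.mul_sub]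
      congr 1
      · ring
      · ring
    rw [e1, e2, hJ]
    have : 2 * m ≤ 4 * m ^ 2 := by nlinarith
    have e3 : (m + 2) * d + (m + 2) * d = 2 * m * d + 4 * d := by ring
    rw [e3]
    have : 4 * d > 2 * (3 * m ^ 2 + m) := by omega
    have e4 : 2 * m * (m + 2) = 2 * m ^ 2 + 4 * m := by ring
    rw [e4]
    omega
  obtain ⟨v, hvker, hv0⟩ := (Submodule.ne_bot_iff _).mp (LinearMap.ker_ne_bot_of_finrank_lt (f := T) hrank)
  have hU : ∀ k < ℓ, Upoly f a ℓ c' J d k v = 0 := by
    intro k hk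
    ext n
    rw [coeff_zero]
    by_cases hn : n < d + 2 * k + J
    · have := congrFun (LinearMap.mem_ker.mp hvker) ⟨⟨k, hk⟩, ⟨n, hn⟩⟩
      simpa [T] using this
    · apply coeff_eq_zero_of_natDegree_lt
      have := natDegree_Upoly_lt f hf.le a ℓ c' J d k (by omega) hdpos v
      omega
  set R : (ZMod p)[X] := f ^ ℓ * Hpoly J d v.1 + f ^ c' * Hpoly J d v.2 with hR
  have hf0 : f ≠ 0 := by
    rintro rfl
    simp at hf
  have hR0 : R ≠ 0 := by
    intro h0
    apply hv0
    have h1 : f ^ ℓ * (Hpoly J d v.1 + f ^ ((p - 1) / 2) * Hpoly J d v.2) = 0 := by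
      rw [← h0, hR, hc', pow_add]; ring
    have h2 := (mul_eq_zero.mp h1).resolve_left (pow_ne_zero _ hf0)
    obtain ⟨h3, h4⟩ := nonvanishing f hf hp2 J d (by omega) v.1 v.2 h2
    exact Prod.ext h3 h4
  have hRdeg : R.natDegree ≤ 6 * m + p * m + 3 * p := by
    have hH1 := natDegree_Hpoly_le J d v.1
    have hH2 := natDegree_Hpoly_le J d v.2
    have e : p * (J - 1) = p * m + p := by
      rw [hJ]
      have : m + 2 - 1 = m + 1 := by omega
      rw [this]
      ring
    rw [e] at hH1 hH2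
    refine (natDegree_add_le _ _).trans (max_le ?_ ?_)
    · refine natDegree_mul_le.trans ?_
      have : (f ^ ℓ).natDegree = ℓ * 3 := by rw [natDegree_pow, hf]
      omega
    · refine natDegree_mul_le.trans ?_
      have : (f ^ c').natDegree = c' * 3 := by rw [natDegree_pow, hf]
      omega
  -- vanishing
  have hvan : ∀ x : ZMod p, ((f.eval x) ^ ((p - 1) / 2) = a ∨ f.eval x = 0) → ∀ k < ℓ,
      (derivative^[k] R).IsRoot x := by
    intro x hx k hk
    have hkc' : k ≤ c' := by omega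
    rw [hR, iterate_map_add, iterate_derivative_eq f ℓ _ k hk.le,
      iterate_derivative_eq f c' _ k hkc', IsRoot, eval_add, eval_mul, eval_mul, eval_pow, eval_pow]
    rcases hx with hx | hx
    · rw [eval_Dop_Hpoly, eval_Dop_Hpoly]
      have hc2 : c' - k = (ℓ - k) + (p - 1) / 2 := by omega
      rw [hc2, pow_add, hx]
      have h1 := congrArg (eval x) (hU k hk)
      simp only [Upoly, LinearMap.coe_mk, AddHom.coe_mk, eval_add, eval_mul, eval_C, eval_zero] at h1
      linear_combination (eval x f) ^ (ℓ - k) * h1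
    · rw [hx, zero_pow (by omega), zero_pow (by omega)]
      ring
  set S := Finset.univ.filter (fun x : ZMod p => (f.eval x) ^ ((p - 1) / 2) = a ∨ f.eval x = 0)
    with hS
  have hmult : ∀ x ∈ S, ℓ ≤ R.rootMultiplicity x := by
    intro x hx
    have hx' := (Finset.mem_filter.mp hx).2
    have h1 : ℓ - 1 < R.rootMultiplicity x := by
      apply lt_rootMultiplicity_of_isRoot_iterate_derivative_of_mem_nonZeroDivisors' hR0
      · intro k hk
        exact hvan x hx' k (by omega)
      · intro k hk hk0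
        rw [mem_nonZeroDivisors_iff_ne_zero]
        intro h0
        rw [ZMod.natCast_eq_zero_iff] at h0
        have := Nat.le_of_dvd (by omega) h0
        have h5 : m ≤ m ^ 2 := by nlinarith
        omega
    omega
  calc 2 * m * S.card = ∑ x ∈ S, ℓ := by rw [Finset.sum_const, smul_eq_mul, mul_comm]
    _ ≤ ∑ x ∈ S, R.rootMultiplicity x := Finset.sum_le_sum hmult
    _ ≤ ∑ x ∈ R.roots.toFinset, R.rootMultiplicity x := by
        apply Finset.sum_le_sum_of_subset
        intro x hx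
        rw [Multiset.mem_toFinset, mem_roots hR0]
        have := hmult x hx
        exact (rootMultiplicity_pos hR0).mp (by omega)
    _ = Multiset.card R.roots := by
        simp_rw [← count_roots]
        exact Multiset.toFinset_sum_count_eq _
    _ ≤ R.natDegree := card_roots' R
    _ ≤ _ := hRdeg

end Stepanov

end Pool.Agent.Helper13.Bsd
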