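import Mathlib
import Pool.Agent.Helper13.Bsd.Stepanov

/-!
# An elementary bound `|p + 1 - N_p| ≤ 14 √p`
-/

namespace Pool.Agent.Helper13.Bsd

open Polynomial Finset

section

variable {p : ℕ} [Fact p.Prime]

/-- Character sum bound, from Stepanov's count. -/
lemma charSum_bound_mul (hp2 : p ≠ 2) (f : (ZMod p)[X]) (hf : f.natDegree = 3) (m : ℕ)
    (hm : 1 ≤ m) (hp : 3 * m ^ 2 + m + 3 < p) :
    (m : ℤ) * |∑ x : ZMod p, quadraticChar (ZMod p) (f.eval x)| ≤ 6 * m + 3 * p := by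
  classical
  have hchar : ringChar (ZMod p) ≠ 2 := by rwa [ZMod.ringChar_zmod_n]
  have key : ∀ (ε : ℤ), (ε = 1 ∨ ε = -1) →
      (m : ℤ) * (p + ε * ∑ x : ZMod p, quadraticChar (ZMod p) (f.eval x))
        ≤ 6 * m + p * m + 3 * p := by
    intro ε hε
    have h1 := stepanov_count f hf m hm hp (ε : ZMod p)
    have h2 : (p : ℤ) + ε * ∑ x : ZMod p, quadraticChar (ZMod p) (f.eval x)
        ≤ 2 * ((Finset.univ.filter (fun x : ZMod p =>
          (f.eval x) ^ ((p - 1) / 2) = (ε : ZMod p) ∨ f.eval x = 0)).card : ℤ) := by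
      have e1 : (p : ℤ) + ε * ∑ x : ZMod p, quadraticChar (ZMod p) (f.eval x)
          = ∑ x : ZMod p, (1 + ε * quadraticChar (ZMod p) (f.eval x)) := by
        rw [Finset.sum_add_distrib, Finset.mul_sum]
        simp [ZMod.card]
      rw [e1, Finset.card_filter, Nat.cast_sum, Finset.mul_sum]
      refine Finset.sum_le_sum fun x _ => ?_
      by_cases h0 : f.eval x = 0
      · simp [h0]
      · have hpow := quadraticChar_eq_pow_of_char_ne_two' hchar (f.eval x)
        rw [ZMod.card] at hpow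
        have hhalf : p / 2 = (p - 1) / 2 := by
          obtain ⟨k, hk⟩ := (Fact.out : p.Prime).odd_of_ne_two hp2
          omega
        rw [hhalf] at hpow
        rcases quadraticChar_dichotomy h0 with h | h
        · rcases hε with rfl | rfl
          · have : eval x f ^ ((p - 1) / 2) = 1 := by rw [← hpow, h]; simp
            simp [h, this]
          · rw [h]; split_ifs <;> simp
        · rcases hε with rfl | rfl
          · rw [h]; split_ifs <;> simp
          · have : eval x f ^ ((p - 1) / 2) = -1 := by rw [← hpow, h]; simp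
            simp [h, this]
    have h3 : ((2 * m * (Finset.univ.filter (fun x : ZMod p =>
          (f.eval x) ^ ((p - 1) / 2) = (ε : ZMod p) ∨ f.eval x = 0)).card : ℕ) : ℤ)
          ≤ ((6 * m + p * m + 3 * p : ℕ) : ℤ) := by exact_mod_cast h1
    push_cast at h3
    have h4 := mul_le_mul_of_nonneg_left h2 (Int.natCast_nonneg m)
    nlinarith
  have k1 := key 1 (Or.inl rfl)
  have k2 := key (-1) (Or.inr rfl)
  rcases abs_cases (∑ x : ZMod p, quadraticChar (ZMod p) (f.eval x)) with ⟨h, -⟩ | ⟨h, -⟩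
  · rw [h]; nlinarith
  · rw [h]; nlinarith

lemma charSum_trivial (f : (ZMod p)[X]) :
    |∑ x : ZMod p, quadraticChar (ZMod p) (f.eval x)| ≤ p := by
  refine (Finset.abs_sum_le_sum_abs _ _).trans ?_
  calc ∑ x : ZMod p, |quadraticChar (ZMod p) (f.eval x)| ≤ ∑ x : ZMod p, (1 : ℤ) := by
        refine Finset.sum_le_sum fun x _ => ?_
        by_cases h0 : f.eval x = 0
        · simp [h0]
        · rcases quadraticChar_dichotomy h0 with h | h <;> simp [h]
    _ = p := by simp [ZMod.card]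

lemma charSum_bound (hp2 : p ≠ 2) (f : (ZMod p)[X]) (hf : f.natDegree = 3) :
    |((∑ x : ZMod p, quadraticChar (ZMod p) (f.eval x) : ℤ) : ℝ)| ≤ 14 * Real.sqrt p := by
  have hs : Real.sqrt p ^ 2 = p := Real.sq_sqrt (Nat.cast_nonneg p)
  have hs0 : 0 ≤ Real.sqrt p := Real.sqrt_nonneg _
  by_cases h25 : p < 25
  · have h1 := charSum_trivial f
    have h2 : |((∑ x : ZMod p, quadraticChar (ZMod p) (f.eval x) : ℤ) : ℝ)| ≤ p := by
      exact_mod_cast h1
    have h3 : (p : ℝ) < 25 := by exact_mod_cast h25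
    refine h2.trans ?_
    have h4 : Real.sqrt p ≤ 5 := by
      rw [Real.sqrt_le_left (by norm_num)]
      linarith
    nlinarith
  · push Not at h25
    have h25' : (25 : ℝ) ≤ p := by exact_mod_cast h25
    have h5 : 5 ≤ Real.sqrt p := by
      rw [Real.le_sqrt' (by norm_num)]
      linarith
    set m := ⌊Real.sqrt p / 2⌋₊ with hm
    have hm1 : (m : ℝ) ≤ Real.sqrt p / 2 := Nat.floor_le (by positivity)
    have hm2 : Real.sqrt p / 2 < m + 1 := Nat.lt_floor_add_one _
    have hm3 : (1 : ℝ) < m := by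
      by_contra hc
      push Not at hc
      have : m < 2 := by
        have : (m : ℝ) < 2 := by linarith
        exact_mod_cast this
      have h2 : 2 ≤ m := by
        rw [hm]
        apply Nat.le_floor
        push_cast
        linarith
      omega
    have hm4 : 1 ≤ m := by
      have : (1 : ℝ) ≤ m := hm3.le
      exact_mod_cast this
    have hcond : 3 * m ^ 2 + m + 3 < p := by
      have : (3 * (m : ℝ) ^ 2 + m + 3) < p := by
        have : (m : ℝ) ^ 2 ≤ (Real.sqrt p / 2) ^ 2 := by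
          apply pow_le_pow_left₀ (by positivity) hm1
        nlinarith
      exact_mod_cast this
    have h6 := charSum_bound_mul hp2 f hf m hm4 hcond
    have h7 : (m : ℝ) * |((∑ x : ZMod p, quadraticChar (ZMod p) (f.eval x) : ℤ) : ℝ)|
        ≤ 6 * m + 3 * p := by
      exact_mod_cast h6
    have hmpos : (0 : ℝ) < m := by linarith
    have h8 : (m : ℝ) * |((∑ x : ZMod p, quadraticChar (ZMod p) (f.eval x) : ℤ) : ℝ)|
        ≤ m * (14 * Real.sqrt p) := by
      refine h7.trans ?_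
      -- 6 m + 3 p ≤ 14 m √p
      have h9 : Real.sqrt p ≤ 4 * m := by linarith
      nlinarith [mul_nonneg hs0 (sub_nonneg.mpr h9), mul_nonneg hmpos.le (sub_nonneg.mpr h5)]
    exact le_of_mul_le_mul_left h8 hmpos

end

/-- The point count predicate of the frozen statement. -/
def ptCond (W : WeierstrassCurve ℤ) (p : ℕ) (q : ℕ × ℕ) : Prop :=
  (p : ℤ) ∣ ((q.2 : ℤ) ^ 2 + W.a₁ * (q.1 : ℤ) * (q.2 : ℤ) + W.a₃ * (q.2 : ℤ)
        - ((q.1 : ℤ) ^ 3 + W.a₂ * (q.1 : ℤ) ^ 2 + W.a₄ * (q.1 : ℤ) + W.a₆))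

lemma card_affine_eq (W : WeierstrassCurve ℤ) (p : ℕ) [Fact p.Prime] (hp2 : p ≠ 2) :
    ∃ f : (ZMod p)[X], f.natDegree = 3 ∧
    ((((Finset.range p ×ˢ Finset.range p).filter
      (fun q : ℕ × ℕ => (p : ℤ) ∣ ((q.2 : ℤ) ^ 2 + W.a₁ * (q.1 : ℤ) * (q.2 : ℤ) + W.a₃ * (q.2 : ℤ)
        - ((q.1 : ℤ) ^ 3 + W.a₂ * (q.1 : ℤ) ^ 2 + W.a₄ * (q.1 : ℤ) + W.a₆)))).card : ℕ) : ℤ)
      = p + ∑ x : ZMod p, quadraticChar (ZMod p) (f.eval x) := by
  classical
  have hchar : ringChar (ZMod p) ≠ 2 := by rwa [ZMod.ringChar_zmod_n]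
  have hpp : p.Prime := Fact.out
  have h2ne : (2 : ZMod p) ≠ 0 := Ring.two_ne_zero hchar
  have h4ne : (4 : ZMod p) ≠ 0 := by
    have : (4 : ZMod p) = 2 * 2 := by norm_num
    rw [this]
    exact mul_ne_zero h2ne h2ne
  refine ⟨C 4 * X ^ 3 + C (W.b₂ : ZMod p) * X ^ 2 + C (2 * W.b₄ : ZMod p) * X + C (W.b₆ : ZMod p),
    ?_, ?_⟩
  · exact natDegree_cubic h4ne
  · set f : (ZMod p)[X] := C 4 * X ^ 3 + C (W.b₂ : ZMod p) * X ^ 2 + C (2 * W.b₄ : ZMod p) * X
      + C (W.b₆ : ZMod p) with hf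
    have hfe : ∀ x : ZMod p, f.eval x = 4 * x ^ 3 + W.b₂ * x ^ 2 + 2 * W.b₄ * x + W.b₆ := by
      intro x
      simp [hf]
    have step1 : ((Finset.range p ×ˢ Finset.range p).filter
      (fun q : ℕ × ℕ => (p : ℤ) ∣ ((q.2 : ℤ) ^ 2 + W.a₁ * (q.1 : ℤ) * (q.2 : ℤ) + W.a₃ * (q.2 : ℤ)
        - ((q.1 : ℤ) ^ 3 + W.a₂ * (q.1 : ℤ) ^ 2 + W.a₄ * (q.1 : ℤ) + W.a₆)))).card
        = (Finset.univ.filter (fun q : ZMod p × ZMod p => q.2 ^ 2 = f.eval q.1)).card := by
      refine Finset.card_bij' (fun q _ => (((q.1 : ℕ) : ZMod p),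
          2 * ((q.2 : ℕ) : ZMod p) + W.a₁ * ((q.1 : ℕ) : ZMod p) + W.a₃))
        (fun q _ => (q.1.val, ((q.2 - W.a₁ * q.1 - W.a₃) / 2).val)) ?_ ?_ ?_ ?_
      · intro q hq
        rw [Finset.mem_filter] at hq
        rw [Finset.mem_filter]
        refine ⟨Finset.mem_univ _, ?_⟩
        have h1 := hq.2
        rw [← ZMod.intCast_zmod_eq_zero_iff_dvd] at h1
        push_cast at h1
        simp only [hfe]
        simp only [WeierstrassCurve.b₂, WeierstrassCurve.b₄, WeierstrassCurve.b₆]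
        push_cast
        linear_combination 4 * h1
      · intro q hq
        rw [Finset.mem_filter] at hq
        rw [Finset.mem_filter, Finset.mem_product, Finset.mem_range, Finset.mem_range]
        refine ⟨⟨ZMod.val_lt _, ZMod.val_lt _⟩, ?_⟩
        rw [← ZMod.intCast_zmod_eq_zero_iff_dvd]
        have h1 := hq.2
        simp only [hfe] at h1
        simp only [WeierstrassCurve.b₂, WeierstrassCurve.b₄, WeierstrassCurve.b₆] at h1
        push_cast at h1
        push_cast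
        rw [ZMod.natCast_zmod_val, ZMod.natCast_zmod_val]
        have h3 : (4 : ZMod p) * (((q.2 - W.a₁ * q.1 - W.a₃) / 2) ^ 2
          + W.a₁ * q.1 * ((q.2 - W.a₁ * q.1 - W.a₃) / 2) + W.a₃ * ((q.2 - W.a₁ * q.1 - W.a₃) / 2)
          - (q.1 ^ 3 + W.a₂ * q.1 ^ 2 + W.a₄ * q.1 + W.a₆)) = 0 := by
          field_simp
          linear_combination 4 * h1
        exact (mul_eq_zero.mp h3).resolve_left h4ne
      · intro q hq
        rw [Finset.mem_filter, Finset.mem_product, Finset.mem_range, Finset.mem_range] at hq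
        have e1 : ((((q.1 : ℕ) : ZMod p)).val : ℕ) = q.1 := ZMod.val_cast_of_lt hq.1.1
        have e2 : ((2 * ((q.2 : ℕ) : ZMod p) + W.a₁ * ((q.1 : ℕ) : ZMod p) + W.a₃
            - W.a₁ * ((q.1 : ℕ) : ZMod p) - W.a₃) / 2) = ((q.2 : ℕ) : ZMod p) := by
          field_simp
          ring
        apply Prod.ext
        · exact e1
        · show ((2 * ((q.2 : ℕ) : ZMod p) + W.a₁ * ((q.1 : ℕ) : ZMod p) + W.a₃
            - W.a₁ * ((q.1 : ℕ) : ZMod p) - W.a₃) / 2).val = q.2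
          rw [e2]
          exact ZMod.val_cast_of_lt hq.1.2
      · intro q hq
        apply Prod.ext
        · exact ZMod.natCast_zmod_val _
        · show 2 * ((((q.2 - W.a₁ * q.1 - W.a₃) / 2).val : ℕ) : ZMod p)
            + W.a₁ * ((q.1.val : ℕ) : ZMod p) + W.a₃ = q.2
          rw [ZMod.natCast_zmod_val, ZMod.natCast_zmod_val]
          field_simp
          ring
    rw [step1]
    have step2 : (((Finset.univ.filter (fun q : ZMod p × ZMod p => q.2 ^ 2 = f.eval q.1)).card : ℕ) : ℤ)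
        = ∑ x : ZMod p, (quadraticChar (ZMod p) (f.eval x) + 1) := by
      rw [Finset.card_filter, Nat.cast_sum, Fintype.sum_prod_type]
      refine Finset.sum_congr rfl fun x _ => ?_
      have := quadraticChar_card_sqrts hchar (f.eval x)
      rw [← this]
      rw [← Nat.cast_sum, ← Finset.card_filter]
      congr 1
      rw [Set.toFinset_card, Fintype.card_subtype]
      congr 1
    rw [step2, Finset.sum_add_distrib]
    simp [ZMod.card]
    ring

theorem ap_bound (W : WeierstrassCurve ℤ) (N : ℕ → ℕ)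
    (hN : ∀ p : ℕ, N p = 1 + ((Finset.range p ×ˢ Finset.range p).filter
      (fun q : ℕ × ℕ => (p : ℤ) ∣ ((q.2 : ℤ) ^ 2 + W.a₁ * (q.1 : ℤ) * (q.2 : ℤ) + W.a₃ * (q.2 : ℤ)
        - ((q.1 : ℤ) ^ 3 + W.a₂ * (q.1 : ℤ) ^ 2 + W.a₄ * (q.1 : ℤ) + W.a₆)))).card)
    (p : ℕ) (hp : p.Prime) : |(p : ℝ) + 1 - N p| ≤ 14 * Real.sqrt p := by
  have : Fact p.Prime := ⟨hp⟩
  by_cases hp2 : p = 2
  · subst hp2
    have h1 : N 2 ≤ 5 := by
      rw [hN 2]
      have := Finset.card_filter_le (Finset.range 2 ×ˢ Finset.range 2)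
        (fun q : ℕ × ℕ => ((2 : ℕ) : ℤ) ∣ ((q.2 : ℤ) ^ 2 + W.a₁ * (q.1 : ℤ) * (q.2 : ℤ)
          + W.a₃ * (q.2 : ℤ)
          - ((q.1 : ℤ) ^ 3 + W.a₂ * (q.1 : ℤ) ^ 2 + W.a₄ * (q.1 : ℤ) + W.a₆)))
      simp only [Finset.card_product, Finset.card_range] at this
      omega
    have h2 : 1 ≤ N 2 := by rw [hN 2]; omega
    have h3 : (1 : ℝ) ≤ N 2 := by exact_mod_cast h2
    have h4 : (N 2 : ℝ) ≤ 5 := by exact_mod_cast h1
    have h5 : (1 : ℝ) ≤ Real.sqrt (2 : ℕ) := by
      rw [Real.le_sqrt' (by norm_num)]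
      norm_num
    rw [abs_le]
    constructor
    · push_cast at *; linarith
    · push_cast at *; linarith
  · obtain ⟨f, hf, hc⟩ := card_affine_eq W p hp2
    have h1 := charSum_bound hp2 f hf
    have h2 : (p : ℝ) + 1 - N p = -((∑ x : ZMod p, quadraticChar (ZMod p) (f.eval x) : ℤ) : ℝ) := by
      have h3 : (N p : ℤ) = 1 + (p + ∑ x : ZMod p, quadraticChar (ZMod p) (f.eval x)) := by
        rw [← hc, hN p]
        push_cast
        ring
      have h4 : (N p : ℝ) = 1 + (p + ((∑ x : ZMod p, quadraticChar (ZMod p) (f.eval x) : ℤ) : ℝ)) := by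
        exact_mod_cast h3
      rw [h4]
      ring
    rw [h2, abs_neg]
    exact h1

end Pool.Agent.Helper13.Bsd
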