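import Mathlib
import Pool.Agent.Helper13.Bsd.Abel
import Pool.Agent.Helper13.Bsd.PointCount

/-!
# One-sided theorems for the original Birch and Swinnerton-Dyer product
-/

namespace Pool.Agent.Helper13.Bsd

open Complex Filter Topology MeasureTheory Set

/-- If `f ≤ K` far out, the Abel means are at most `K` up to a small error. -/
lemma abel_upper {f : ℝ → ℝ} (hf : Measurable f) (hint : ∀ x, 0 < x → LapInt f x) (K t1 : ℝ)
    (h : ∀ t, t1 < t → f t ≤ K) :
    ∃ M : ℝ, 0 ≤ M ∧ ∀ w : ℝ, 0 < w →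
      w * (∫ t in Ioi (0 : ℝ), f t * Real.exp (-w * t)) ≤ K + w * M := by
  set ind : ℝ → ℝ := (Iic t1).indicator (fun t => |f t - K|) with hind
  have hconst : ∀ x, 0 < x → LapInt (fun _ => K) x := fun x hx =>
    (integrableOn_exp_neg hx).const_mul K
  have habs : LapInt (fun t => |f t - K|) 1 := by
    have h1 := (hint 1 one_pos).sub (hconst 1 one_pos)
    unfold LapInt at *
    refine h1.norm.congr ?_
    filter_upwards with t
    rw [norm_mul, Real.norm_eq_abs, Real.norm_eq_abs, Real.abs_exp]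
  have hmabs : Measurable (fun t => |f t - K|) := (hf.sub_const K).abs
  have hindint : ∀ x, LapInt ind x := fun x => habs.indicator_Iic hmabs t1 x
  have hindnn : ∀ t, 0 ≤ ind t := fun t => indicator_nonneg (fun _ _ => abs_nonneg _) t
  have hle : ∀ t, f t ≤ K + ind t := by
    intro t
    by_cases ht : t ∈ Iic t1
    · rw [hind, indicator_of_mem ht]
      have := le_abs_self (f t - K)
      linarith
    · rw [hind, indicator_of_notMem ht]
      have h1 : t1 < t := by simpa using ht
      have := h t h1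
      linarith
  refine ⟨∫ t in Ioi (0 : ℝ), ind t * Real.exp (-0 * t), ?_, ?_⟩
  · exact setIntegral_nonneg measurableSet_Ioi fun t _ => mul_nonneg (hindnn t) (Real.exp_pos _).le
  · intro w hw
    have h1 : ∫ t in Ioi (0 : ℝ), f t * Real.exp (-w * t)
        ≤ ∫ t in Ioi (0 : ℝ), (K * Real.exp (-w * t) + ind t * Real.exp (-0 * t)) := by
      apply setIntegral_mono_on (hint w hw) ((hconst w hw).add (hindint 0)) measurableSet_Ioi
      intro t ht
      have ht' : 0 < t := ht
      have h2 : Real.exp (-w * t) ≤ Real.exp (-0 * t) := by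
        rw [Real.exp_le_exp]
        nlinarith
      have h3 := Real.exp_pos (-w * t)
      calc f t * Real.exp (-w * t) ≤ (K + ind t) * Real.exp (-w * t) := by
            gcongr
            exact hle t
        _ = K * Real.exp (-w * t) + ind t * Real.exp (-w * t) := by ring
        _ ≤ K * Real.exp (-w * t) + ind t * Real.exp (-0 * t) := by
            have := mul_le_mul_of_nonneg_left h2 (hindnn t)
            linarith
    rw [integral_add (hconst w hw) (hindint 0), integral_const_mul, integral_exp_neg hw] at h1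
    have h4 := mul_le_mul_of_nonneg_left h1 hw.le
    have h5 : w * (K * (1 / w) + ∫ t in Ioi (0 : ℝ), ind t * Real.exp (-0 * t))
        = K + w * ∫ t in Ioi (0 : ℝ), ind t * Real.exp (-0 * t) := by
      field_simp
    rw [h5] at h4
    exact h4

section

variable (W : WeierstrassCurve ℤ) (N : ℕ → ℕ)
    (hNdef : ∀ p : ℕ, N p = 1 + ((Finset.range p ×ˢ Finset.range p).filter
      (fun q : ℕ × ℕ => (p : ℤ) ∣ ((q.2 : ℤ) ^ 2 + W.a₁ * (q.1 : ℤ) * (q.2 : ℤ) + W.a₃ * (q.2 : ℤ)
        - ((q.1 : ℤ) ^ 3 + W.a₂ * (q.1 : ℤ) ^ 2 + W.a₄ * (q.1 : ℤ) + W.a₆)))).card)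

/-- bad primes of the model -/
abbrev badW (W : WeierstrassCurve ℤ) (p : ℕ) : Prop := (p : ℤ) ∣ W.Δ

instance : DecidablePred (badW W) := fun p => inferInstanceAs (Decidable ((p : ℤ) ∣ W.Δ))

include hNdef in
lemma hN_of (p : ℕ) (_hp : p.Prime) : 1 ≤ N p := by rw [hNdef p]; omega

/-- The product `P_E(x)`. -/
noncomputable def PE (x : ℝ) : ℝ := ∏ p ∈ (Finset.range ⌈x⌉₊).filter
    (fun p : ℕ => Nat.Prime p ∧ ¬ (((p : ℕ) : ℤ) ∣ W.Δ)), ((N p : ℝ) / (p : ℝ))

include hNdef in
lemma PE_exp (t : ℝ) : PE W N (Real.exp t) = Real.exp (LL N (badW W) t) := by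
  unfold PE LL LLs
  rw [Real.exp_sum]
  apply Finset.prod_congr rfl
  intro p hp
  rw [Finset.mem_filter] at hp
  have hN1 : (1 : ℝ) ≤ N p := by exact_mod_cast hN_of W N hNdef p hp.2.1
  have hp0 : (0 : ℝ) < p := by exact_mod_cast hp.2.1.pos
  rw [ell, Real.exp_log (by positivity)]

include hNdef in
lemma PE_eq (x : ℝ) (hx : 0 < x) : PE W N x = Real.exp (LL N (badW W) (Real.log x)) := by
  rw [← PE_exp W N hNdef, Real.exp_log hx]

/-- The Euler product hypothesis in the form used in the frozen statement. -/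
def EulerHyp (F : ℂ → ℂ) : Prop := ∀ s : ℂ, 3 / 2 < s.re → HasProd (fun p : Nat.Primes =>
      if (((p : ℕ) : ℤ) ∣ W.Δ) then (1 : ℂ)
      else (1 - (((p : ℕ) : ℂ) + 1 - ((N (p : ℕ) : ℕ) : ℂ)) * ((p : ℕ) : ℂ) ^ (-s)
              + ((p : ℕ) : ℂ) ^ (1 - 2 * s))⁻¹) (F s)

include hNdef in
/-- The lower limit result. -/
theorem limsup_pos (F : ℂ → ℂ) (hFd : Differentiable ℂ F) (hF : EulerHyp W N F) :
    ∃ c : ℝ, 0 < c ∧ ∃ᶠ x : ℝ in atTop, c * Real.log x ^ (analyticOrderNatAt F 1) ≤ PE W N x := by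
  have hN := hN_of W N hNdef
  have hH := ap_bound W N hNdef
  set r := analyticOrderNatAt F 1 with hr
  by_contra hcon
  push Not at hcon
  -- for every c, eventually P < c (log x)^r
  have hev : ∀ K : ℝ, ∃ t1 : ℝ, 1 ≤ t1 ∧ ∀ t, t1 < t → fn N (badW W) r t ≤ -K := by
    intro K
    have h1 := hcon (Real.exp (-K)) (Real.exp_pos _)
    obtain ⟨x1, hx1⟩ := eventually_atTop.mp h1
    refine ⟨max 1 (Real.log (max x1 1)), le_max_left _ _, ?_⟩
    intro t ht
    have ht1 : 1 < t := (le_max_left _ _).trans_lt ht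
    have ht2 : Real.log (max x1 1) < t := (le_max_right _ _).trans_lt ht
    have h2 : x1 ≤ Real.exp t := by
      have h3 : max x1 1 < Real.exp t := (Real.log_lt_iff_lt_exp (by positivity)).mp ht2
      exact (le_max_left _ _).trans h3.le
    have h4 := hx1 _ h2
    rw [PE_exp W N hNdef, Real.log_exp] at h4
    have h5 : LL N (badW W) t < Real.log (Real.exp (-K) * t ^ r) :=
      (Real.lt_log_iff_exp_lt (by positivity)).mpr h4
    rw [Real.log_mul (Real.exp_pos _).ne' (by positivity), Real.log_exp, Real.log_pow] at h5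
    rw [fn, lg_of_one_le ht1.le]
    linarith
  -- continuation
  obtain ⟨t0, ht0, h0⟩ := hev 0
  have hint : ∀ x, 0 < x → LapInt (LL N (badW W)) x := by
    apply lapInt_continue N (badW W) F hFd hN hH hF 0 le_rfl (fun t => r * lg t)
      (measurable_lg.const_mul _) (fun x hx => (LapInt_lg hx).const_mul _) 1 (Or.inl rfl) t0
    · intro t ht
      have := h0 t ht
      rw [fn] at this
      linarith
    · exact Or.inl rfl
  obtain ⟨hfi, C, δ, hδ, hC⟩ := abel_fn N (badW W) F hFd hN hH hF hint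
  rw [← hr] at hfi hC
  obtain ⟨t1, -, h1⟩ := hev (C + 1)
  obtain ⟨M, hM, h2⟩ := abel_upper (measurable_fn N (badW W) r) hfi (-(C + 1)) t1 h1
  set w := min (δ / 2) (1 / (2 * (M + 1))) with hw
  have hw0 : 0 < w := lt_min (by positivity) (by positivity)
  have h3 := h2 w hw0
  have h4 := hC w hw0 (lt_of_le_of_lt (min_le_left _ _) (by linarith))
  have h5 : w * M ≤ 1 / 2 := by
    have h6 : w ≤ 1 / (2 * (M + 1)) := min_le_right _ _
    calc w * M ≤ 1 / (2 * (M + 1)) * M := by gcongr
      _ ≤ 1 / 2 := by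
          rw [div_mul_eq_mul_div, div_le_div_iff₀ (by positivity) (by norm_num)]
          linarith
  have h7 := (abs_le.mp h4).1
  linarith

include hNdef in
lemma Gf_ne_zero_of (F : ℂ → ℂ) {x : ℝ} (hx : 0 ≤ x) (h : F (1 + x) ≠ 0) :
    Gf N (badW W) F (x : ℂ) ≠ 0 := by
  rw [Gf]
  apply mul_ne_zero h
  apply Finset.prod_ne_zero_iff.mpr
  intro p _
  split_ifs
  · exact one_ne_zero
  · exact one_sub_zz_ne_zero N (hN_of W N hNdef) p p.2 x hx

lemma LapInt_exp {a x : ℝ} (hx : a < x) : LapInt (fun t => Real.exp (a * t)) x := by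
  unfold LapInt
  have h1 : IntegrableOn (fun t : ℝ => Real.exp (-(x - a) * t)) (Ioi 0) :=
    integrableOn_exp_neg (by linarith)
  refine h1.congr ?_
  filter_upwards with t
  rw [← Real.exp_add]
  congr 1
  ring

include hNdef in
/-- One-sided growth bounds give a zero-free half plane. -/
theorem zeroFree_of_oneSided (F : ℂ → ℂ) (hFd : Differentiable ℂ F) (hF : EulerHyp W N F)
    (θ : ℝ) (hθ : 0 ≤ θ)
    (h : (∀ η : ℝ, θ < η → ∀ᶠ x : ℝ in atTop, PE W N x ≤ Real.exp (x ^ η)) ∨
      ((∀ σ : ℝ, 1 + θ < σ → F σ ≠ 0) ∧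
        ∀ η : ℝ, θ < η → ∀ᶠ x : ℝ in atTop, Real.exp (-x ^ η) ≤ PE W N x))
    (s : ℂ) (hs : 1 + θ < s.re) : F s ≠ 0 := by
  have hN := hN_of W N hNdef
  have hH := ap_bound W N hNdef
  set η := (θ + (s.re - 1)) / 2 with hη
  have hη1 : θ < η := by rw [hη]; linarith
  have hη2 : η < s.re - 1 := by rw [hη]; linarith
  have hη0 : 0 ≤ η := by linarith
  have hgm : Measurable (fun t : ℝ => Real.exp (η * t)) := by fun_prop
  have hrpow : ∀ t : ℝ, (Real.exp t) ^ η = Real.exp (η * t) := by
    intro t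
    rw [← Real.exp_mul]
    congr 1
    ring
  have hint : ∀ x, η < x → LapInt (LL N (badW W)) x := by
    rcases h with h | ⟨h, h'⟩
    · obtain ⟨x1, hx1⟩ := eventually_atTop.mp (h η hη1)
      apply lapInt_continue N (badW W) F hFd hN hH hF η hη0 (fun t => Real.exp (η * t)) hgm
        (fun x hx => LapInt_exp hx) 1 (Or.inl rfl) (Real.log (max x1 1))
      · intro t ht
        have h3 : max x1 1 < Real.exp t := (Real.log_lt_iff_lt_exp (by positivity)).mp ht
        have h4 := hx1 _ ((le_max_left _ _).trans h3.le)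
        rw [PE_exp W N hNdef, Real.exp_le_exp, hrpow] at h4
        linarith
      · exact Or.inl rfl
    · obtain ⟨x1, hx1⟩ := eventually_atTop.mp (h' η hη1)
      apply lapInt_continue N (badW W) F hFd hN hH hF η hη0 (fun t => Real.exp (η * t)) hgm
        (fun x hx => LapInt_exp hx) (-1) (Or.inr rfl) (Real.log (max x1 1))
      · intro t ht
        have h3 : max x1 1 < Real.exp t := (Real.log_lt_iff_lt_exp (by positivity)).mp ht
        have h4 := hx1 _ ((le_max_left _ _).trans h3.le)
        rw [PE_exp W N hNdef, Real.exp_le_exp, hrpow] at h4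
        linarith
      · right
        intro x hx
        apply Gf_ne_zero_of W N hNdef F (by linarith)
        have := h (1 + x) (by linarith)
        push_cast at this
        exact this
  have hid := key_identity N (badW W) F hFd hN hH hF η hη0 hint (s - 1) (by simp; linarith)
  intro h0
  have h1 : Gf N (badW W) F (s - 1) = 0 := by
    rw [Gf]
    have : 1 + (s - 1) = s := by ring
    rw [this, h0, zero_mul]
  rw [h1] at hid
  exact (exp_ne_zero _) hid.symm

end

end Pool.Agent.Helper13.Bsd
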