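import Mathlib
import Pool.Agent.Helper13.Bsd.Main

/-!
# The doubling criterion
-/

namespace Pool.Agent.Helper13.Bsd

open Complex Filter Topology MeasureTheory Set

lemma doubling_growth {f : ℝ → ℝ} {t0 k : ℝ} (ht0 : 0 < t0) (hk : 0 ≤ k)
    (h : ∀ t, t0 ≤ t → ∀ t', t ≤ t' → t' ≤ 2 * t → f t' ≤ f t + k) (s : ℝ) (hs : t0 ≤ s) (t : ℝ)
    (ht : s ≤ t) : f t ≤ f s + 4 * k * Real.sqrt (t / s) := by
  have key : ∀ n : ℕ, ∀ s, t0 ≤ s → ∀ t, s ≤ t → t ≤ 2 ^ n * s → f t ≤ f s + n * k := by
    intro n
    induction n with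
    | zero =>
      intro s _ t h1 h2
      have : t = s := le_antisymm (by simpa using h2) h1
      rw [this]
      simp
    | succ n ih =>
      intro s hs t h1 h2
      have hs0 : 0 < s := ht0.trans_le hs
      set s' := max s (t / 2) with hs'
      have h3 : s ≤ s' := le_max_left _ _
      have h4 : s' ≤ 2 ^ n * s := by
        apply max_le
        · have : (1 : ℝ) ≤ 2 ^ n := one_le_pow₀ (by norm_num)
          nlinarith
        · rw [pow_succ] at h2
          linarith
      have h5 := ih s hs s' h3 h4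
      have h6 : s' ≤ t := max_le h1 (by linarith)
      have h7 : t ≤ 2 * s' := by
        have : t / 2 ≤ s' := le_max_right _ _
        linarith
      have h8 := h s' (hs.trans h3) t h6 h7
      push_cast
      linarith
  have hs0 : 0 < s := ht0.trans_le hs
  have hv1 : 1 ≤ t / s := by rw [le_div_iff₀ hs0]; linarith
  set v := t / s with hv
  set n := ⌈Real.logb 2 v⌉₊ with hn
  have hlb0 : 0 ≤ Real.logb 2 v := Real.logb_nonneg (by norm_num) hv1
  have h1 : t ≤ 2 ^ n * s := by
    have h2 : v ≤ 2 ^ n := by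
      have h3 : Real.logb 2 v ≤ n := Nat.le_ceil _
      have h4 := (Real.logb_le_iff_le_rpow (by norm_num : (1 : ℝ) < 2) (by linarith)).mp h3
      rwa [Real.rpow_natCast] at h4
    rw [hv, div_le_iff₀ hs0] at h2
    exact h2
  have h5 := key n s hs t ht h1
  have hsq1 : 1 ≤ Real.sqrt v := by rw [Real.one_le_sqrt]; exact hv1
  have h6 : (n : ℝ) ≤ 4 * Real.sqrt v := by
    have h7 := (Nat.ceil_lt_add_one hlb0).le
    have h8 : Real.logb 2 v ≤ 3 * Real.sqrt v := by
      rw [Real.logb, div_le_iff₀ (Real.log_pos (by norm_num))]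
      have h9 : Real.log v ≤ 2 * (Real.sqrt v - 1) := by
        have h10 := Real.log_le_sub_one_of_pos (show 0 < Real.sqrt v by linarith)
        rw [Real.log_sqrt (by linarith)] at h10
        linarith
      have h11 := Real.log_two_gt_d9
      nlinarith
    linarith
  calc f t ≤ f s + n * k := h5
    _ ≤ f s + 4 * Real.sqrt v * k := by gcongr
    _ = _ := by ring

lemma sqrt_div_eq {t T : ℝ} (ht : 0 < t) (hT : 0 < T) :
    Real.sqrt (T / t) = (1 / T * t) ^ (-(1 / 2) : ℝ) ∧ Real.sqrt (t / T) = (1 / T * t) ^ (1 / 2 : ℝ) := by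
  constructor
  · rw [Real.sqrt_eq_rpow, Real.rpow_neg (by positivity), ← Real.inv_rpow (by positivity)]
    congr 1
    field_simp
  · rw [Real.sqrt_eq_rpow]
    congr 1
    field_simp

/-- The weight integral. -/
lemma integral_weight {w : ℝ} (hw : 0 < w) :
    IntegrableOn (fun t : ℝ => ((w * t) ^ (-(1 / 2) : ℝ) + (w * t) ^ (1 / 2 : ℝ)) * Real.exp (-w * t))
      (Ioi 0) ∧
    w * ∫ t in Ioi (0 : ℝ), ((w * t) ^ (-(1 / 2) : ℝ) + (w * t) ^ (1 / 2 : ℝ)) * Real.exp (-w * t)
      = Real.Gamma (1 / 2) + Real.Gamma (3 / 2) := by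
  have e1 : ∀ t ∈ Ioi (0 : ℝ), ((w * t) ^ (-(1 / 2) : ℝ) + (w * t) ^ (1 / 2 : ℝ)) * Real.exp (-w * t)
      = w ^ (-(1 / 2) : ℝ) * (t ^ ((1 / 2 : ℝ) - 1) * Real.exp (-w * t))
        + w ^ (1 / 2 : ℝ) * (t ^ ((3 / 2 : ℝ) - 1) * Real.exp (-w * t)) := by
    intro t ht
    have ht' : 0 < t := ht
    rw [Real.mul_rpow hw.le ht'.le, Real.mul_rpow hw.le ht'.le]
    norm_num
    ring
  have i1 : IntegrableOn (fun t : ℝ => w ^ (-(1 / 2) : ℝ) * (t ^ ((1 / 2 : ℝ) - 1) * Real.exp (-w * t)))
      (Ioi 0) := (integrableOn_rpow_exp hw (by norm_num)).const_mul _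
  have i2 : IntegrableOn (fun t : ℝ => w ^ (1 / 2 : ℝ) * (t ^ ((3 / 2 : ℝ) - 1) * Real.exp (-w * t)))
      (Ioi 0) := (integrableOn_rpow_exp hw (by norm_num)).const_mul _
  constructor
  · exact (integrableOn_congr_fun e1 measurableSet_Ioi).mpr (i1.add i2)
  · rw [setIntegral_congr_fun measurableSet_Ioi e1, integral_add i1 i2, integral_const_mul,
      integral_const_mul, integral_rpow_exp hw (by norm_num), integral_rpow_exp hw (by norm_num)]
    have h1 : w * (w ^ (-(1 / 2) : ℝ) * (1 / w) ^ (1 / 2 : ℝ)) = 1 := by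
      rw [one_div w, Real.inv_rpow hw.le, ← Real.rpow_neg hw.le, ← Real.rpow_add hw]
      norm_num
      rw [Real.rpow_neg_one]
      field_simp
    have h2 : w * (w ^ (1 / 2 : ℝ) * (1 / w) ^ (3 / 2 : ℝ)) = 1 := by
      rw [one_div w, Real.inv_rpow hw.le, ← Real.rpow_neg hw.le, ← Real.rpow_add hw]
      norm_num
      rw [Real.rpow_neg_one]
      field_simp
    calc w * (w ^ (-(1 / 2) : ℝ) * ((1 / w) ^ (1 / 2 : ℝ) * Real.Gamma (1 / 2))
          + w ^ (1 / 2 : ℝ) * ((1 / w) ^ (3 / 2 : ℝ) * Real.Gamma (3 / 2)))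
        = (w * (w ^ (-(1 / 2) : ℝ) * (1 / w) ^ (1 / 2 : ℝ))) * Real.Gamma (1 / 2)
          + (w * (w ^ (1 / 2 : ℝ) * (1 / w) ^ (3 / 2 : ℝ))) * Real.Gamma (3 / 2) := by ring
      _ = _ := by rw [h1, h2]; ring

/-- O-Tauberian theorem for one-sidedly slowly growing functions. -/
theorem tauber_bounded {f : ℝ → ℝ} (hint : ∀ x, 0 < x → LapInt f x)
    (C δ : ℝ) (hδ : 0 < δ)
    (habel : ∀ w : ℝ, 0 < w → w < δ → |w * (∫ t in Ioi (0 : ℝ), f t * Real.exp (-w * t))| ≤ C)
    (t0 k : ℝ) (ht0 : 0 < t0) (hk : 0 ≤ k)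
    (h : ∀ t, t0 ≤ t → ∀ t', t ≤ t' → t' ≤ 2 * t → f t' ≤ f t + k)
    (hloc : ∀ T : ℝ, ∃ B, ∀ t, 0 < t → t ≤ T → |f t| ≤ B) :
    ∃ B, ∀ t, t0 ≤ t → |f t| ≤ B := by
  obtain ⟨B0', hB0'⟩ := hloc t0
  set B0 := max B0' 0 with hB0def
  have hB0 : ∀ t, 0 < t → t ≤ t0 → |f t| ≤ B0 := fun t h1 h2 => (hB0' t h1 h2).trans (le_max_left _ _)
  have hB00 : 0 ≤ B0 := le_max_right _ _
  have hC0 : 0 ≤ C := (abs_nonneg _).trans (habel (δ / 2) (by positivity) (by linarith))
  set Γs := Real.Gamma (1 / 2) + Real.Gamma (3 / 2) with hΓs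
  have hΓ0 : 0 ≤ Γs := by
    have h1 := Real.Gamma_pos_of_pos (show (0 : ℝ) < 1 / 2 by norm_num)
    have h2 := Real.Gamma_pos_of_pos (show (0 : ℝ) < 3 / 2 by norm_num)
    linarith
  have hgrow := doubling_growth ht0 hk h
  -- upper bound
  set T1 := max (16 * t0) (4 / δ) with hT1
  set U := 8 * (2 * C + 8 * k * Γs + B0) with hU
  have hupper : ∀ T, T1 ≤ T → f T ≤ U := by
    intro T hT
    have hT16 : 16 * t0 ≤ T := (le_max_left _ _).trans hT
    have hTδ : 4 / δ ≤ T := (le_max_right _ _).trans hT
    have hT0 : 0 < T := by linarith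
    have hTt0 : t0 ≤ T := by linarith
    by_cases hM : f T ≤ 0
    · exact hM.trans (by positivity)
    push Not at hM
    set M := f T with hMdef
    set w := 1 / T with hw
    have hw0 : 0 < w := by positivity
    have hwδ : w < δ := by
      rw [hw, div_lt_iff₀ hT0]
      rw [div_le_iff₀ hδ] at hTδ
      linarith
    have h2wδ : 2 * w < δ := by
      rw [hw, mul_one_div, div_lt_iff₀ hT0]
      rw [div_le_iff₀ hδ] at hTδ
      linarith
    set E1 := Real.exp (-1) with hE1
    have hE1pos : 0 < E1 := Real.exp_pos _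
    have hE1le : E1 ≤ 0.368 := by
      have := Real.exp_neg_one_lt_d9
      linarith
    set om : ℝ → ℝ := fun t => 2 * Real.exp (-(2 * w) * t) - 2 * E1 * Real.exp (-w * t) with hom
    have hom_eq : ∀ t, om t = 2 * Real.exp (-w * t) * (Real.exp (-w * t) - E1) := by
      intro t
      simp only [hom]
      have : Real.exp (-(2 * w) * t) = Real.exp (-w * t) * Real.exp (-w * t) := by
        rw [← Real.exp_add]; congr 1; ring
      rw [this]; ring
    have hom_abs : ∀ t, 0 < t → |om t| ≤ 2 * Real.exp (-w * t) := by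
      intro t ht
      rw [hom_eq, abs_mul, abs_of_pos (by positivity)]
      have h1 : Real.exp (-w * t) ≤ 1 := by
        rw [Real.exp_le_one_iff]
        nlinarith
      have h2 : |Real.exp (-w * t) - E1| ≤ 1 := by
        rw [abs_le]
        constructor
        · have := Real.exp_pos (-w * t)
          linarith
        · linarith
      have h3 := Real.exp_pos (-w * t)
      nlinarith
    set ind : ℝ → ℝ := (Ioc (0 : ℝ) t0).indicator (fun _ => 2 * (M + B0)) with hind
    have hindint : IntegrableOn ind (Ioi 0) := by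
      apply Integrable.integrableOn
      rw [hind, integrable_indicator_iff measurableSet_Ioc]
      exact integrableOn_const (by simp)
    have hindval : ∫ t in Ioi (0 : ℝ), ind t = 2 * (M + B0) * t0 := by
      rw [hind, setIntegral_indicator measurableSet_Ioc]
      have : Ioi (0 : ℝ) ∩ Ioc 0 t0 = Ioc 0 t0 := by
        ext t
        simp only [mem_inter_iff, mem_Ioi, mem_Ioc]
        tauto
      rw [this, setIntegral_const]
      simp [ht0.le]
      ring
    -- pointwise inequality
    have hpt : ∀ t, 0 < t → M * om t - 8 * k * (((w * t) ^ (-(1 / 2) : ℝ) + (w * t) ^ (1 / 2 : ℝ))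
        * Real.exp (-w * t)) - ind t ≤ f t * om t := by
      intro t ht
      obtain ⟨s1, s2⟩ := sqrt_div_eq ht hT0
      rw [← hw] at s1 s2
      have hq1 : 0 ≤ (w * t) ^ (-(1 / 2) : ℝ) := by positivity
      have hq2 : 0 ≤ (w * t) ^ (1 / 2 : ℝ) := by positivity
      have hex := Real.exp_pos (-w * t)
      have hoabs := hom_abs t ht
      by_cases h1 : t < t0
      · have hi : ind t = 2 * (M + B0) := by
          rw [hind, indicator_of_mem (show t ∈ Ioc 0 t0 from ⟨ht, h1.le⟩)]
        rw [hi]
        have h2 := hB0 t ht h1.le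
        have h3 : |(M - f t) * om t| ≤ (M + B0) * 2 := by
          rw [abs_mul]
          apply mul_le_mul _ _ (abs_nonneg _) (by positivity)
          · refine (abs_sub _ _).trans ?_
            rw [abs_of_pos hM]
            linarith
          · have : Real.exp (-w * t) ≤ 1 := by
              rw [Real.exp_le_one_iff]
              nlinarith
            linarith
        have h4 := le_abs_self ((M - f t) * om t)
        have h5 : 0 ≤ 8 * k * (((w * t) ^ (-(1 / 2) : ℝ) + (w * t) ^ (1 / 2 : ℝ))
          * Real.exp (-w * t)) := by positivity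
        nlinarith
      · push Not at h1
        have hi : 0 ≤ ind t := by
          rw [hind]
          apply indicator_nonneg
          intro _ _
          positivity
        by_cases h2 : t ≤ T
        · -- om ≥ 0
          have h3 : 0 ≤ om t := by
            rw [hom_eq]
            have h4 : E1 ≤ Real.exp (-w * t) := by
              rw [hE1, Real.exp_le_exp]
              have : w * t ≤ 1 := by
                rw [hw, one_div_mul_eq_div, div_le_one hT0]
                exact h2
              linarith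
            have : 0 ≤ Real.exp (-w * t) - E1 := by linarith
            positivity
          have h5 := hgrow t h1 T h2
          rw [s1] at h5
          have h6 : M - 4 * k * (w * t) ^ (-(1 / 2) : ℝ) ≤ f t := by linarith
          have h7 := mul_le_mul_of_nonneg_right h6 h3
          have h8 : om t ≤ 2 * Real.exp (-w * t) := (le_abs_self _).trans hoabs
          have h9 : 4 * k * (w * t) ^ (-(1 / 2) : ℝ) * om t
              ≤ 4 * k * (w * t) ^ (-(1 / 2) : ℝ) * (2 * Real.exp (-w * t)) := by gcongr
          have h10 : 0 ≤ 8 * k * ((w * t) ^ (1 / 2 : ℝ) * Real.exp (-w * t)) := by positivity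
          nlinarith
        · -- om ≤ 0
          push Not at h2
          have h3 : om t ≤ 0 := by
            rw [hom_eq]
            have h4 : Real.exp (-w * t) ≤ E1 := by
              rw [hE1, Real.exp_le_exp]
              have : 1 ≤ w * t := by
                rw [hw, one_div_mul_eq_div, one_le_div hT0]
                exact h2.le
              linarith
            have : Real.exp (-w * t) - E1 ≤ 0 := by linarith
            nlinarith
          have h5 := hgrow T hTt0 t h2.le
          rw [s2] at h5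
          have h7 := mul_le_mul_of_nonpos_right h5 h3
          have h8 : -om t ≤ 2 * Real.exp (-w * t) := (neg_le_abs _).trans hoabs
          have h9 : 4 * k * (w * t) ^ (1 / 2 : ℝ) * (-om t)
              ≤ 4 * k * (w * t) ^ (1 / 2 : ℝ) * (2 * Real.exp (-w * t)) := by gcongr
          have h10 : 0 ≤ 8 * k * ((w * t) ^ (-(1 / 2) : ℝ) * Real.exp (-w * t)) := by positivity
          nlinarith
    -- integrate
    have iom : IntegrableOn om (Ioi 0) :=
      ((integrableOn_exp_neg (show 0 < 2 * w by positivity)).const_mul 2).sub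
        ((integrableOn_exp_neg hw0).const_mul (2 * E1))
    have iomval : ∫ t in Ioi (0 : ℝ), om t = (1 - 2 * E1) / w := by
      rw [hom, integral_sub ((integrableOn_exp_neg (show 0 < 2 * w by positivity)).const_mul 2)
        ((integrableOn_exp_neg hw0).const_mul (2 * E1)), integral_const_mul, integral_const_mul,
        integral_exp_neg (show 0 < 2 * w by positivity), integral_exp_neg hw0]
      field_simp
    obtain ⟨iwt, wval⟩ := integral_weight hw0
    have ifom : IntegrableOn (fun t => f t * om t) (Ioi 0) := by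
      have h1 := (Integrable.const_mul (hint (2 * w) (by positivity)) 2).sub
        (Integrable.const_mul (hint w hw0) (2 * E1))
      refine h1.congr ?_
      filter_upwards with t
      simp only [hom, Pi.sub_apply]
      ring
    have ifomval : ∫ t in Ioi (0 : ℝ), f t * om t
        = 2 * (∫ t in Ioi (0 : ℝ), f t * Real.exp (-(2 * w) * t))
          - 2 * E1 * ∫ t in Ioi (0 : ℝ), f t * Real.exp (-w * t) := by
      rw [← integral_const_mul, ← integral_const_mul, ← integral_sub
        (Integrable.const_mul (hint (2 * w) (by positivity)) 2)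
        (Integrable.const_mul (hint w hw0) (2 * E1))]
      congr 1
      funext t
      simp only [hom]
      ring
    have hineq : ∫ t in Ioi (0 : ℝ), (M * om t - 8 * k * (((w * t) ^ (-(1 / 2) : ℝ)
        + (w * t) ^ (1 / 2 : ℝ)) * Real.exp (-w * t)) - ind t)
        ≤ ∫ t in Ioi (0 : ℝ), f t * om t := by
      apply setIntegral_mono_on _ ifom measurableSet_Ioi
      · intro t ht
        exact hpt t ht
      · exact ((Integrable.const_mul iom M).sub (Integrable.const_mul iwt (8 * k))).sub hindint
    have i12 : IntegrableOn (fun t : ℝ => M * om t - 8 * k * (((w * t) ^ (-(1 / 2) : ℝ)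
        + (w * t) ^ (1 / 2 : ℝ)) * Real.exp (-w * t))) (Ioi 0) :=
      (Integrable.const_mul iom M).sub (Integrable.const_mul iwt (8 * k))
    rw [integral_sub i12 hindint,
      integral_sub (Integrable.const_mul iom M) (Integrable.const_mul iwt (8 * k)),
      integral_const_mul, integral_const_mul, iomval, hindval, ifomval] at hineq
    have hA1 := abs_le.mp (habel w hw0 hwδ)
    have hA2 := abs_le.mp (habel (2 * w) (by positivity) h2wδ)
    set I1 := ∫ t in Ioi (0 : ℝ), f t * Real.exp (-w * t) with hI1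
    set I2 := ∫ t in Ioi (0 : ℝ), f t * Real.exp (-(2 * w) * t) with hI2
    set Iw := ∫ t in Ioi (0 : ℝ), ((w * t) ^ (-(1 / 2) : ℝ)
        + (w * t) ^ (1 / 2 : ℝ)) * Real.exp (-w * t) with hIw
    have hmul := mul_le_mul_of_nonneg_left hineq hw0.le
    have e3 : w * (M * ((1 - 2 * E1) / w) - 8 * k * Iw - 2 * (M + B0) * t0)
        = M * (1 - 2 * E1) - 8 * k * (w * Iw) - 2 * (M + B0) * (w * t0) := by
      field_simp
    have e4 : w * (2 * I2 - 2 * E1 * I1) = (2 * w) * I2 - 2 * E1 * (w * I1) := by ring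
    rw [e3, e4, wval] at hmul
    have hwt0 : w * t0 ≤ 1 / 16 := by
      rw [hw, one_div_mul_eq_div, div_le_iff₀ hT0]
      linarith
    have hwt00 : 0 ≤ w * t0 := by positivity
    have h20 : (2 * w) * I2 - 2 * E1 * (w * I1) ≤ 2 * C := by
      have h21 : -(2 * E1 * (w * I1)) ≤ 2 * E1 * C := by nlinarith
      nlinarith
    have h22 : 2 * (M + B0) * (w * t0) ≤ (M + B0) / 8 := by nlinarith
    rw [hU]
    have h23 : M * (1 - 2 * E1) ≥ M * 0.264 := by nlinarith
    rw [← hΓs] at hmul
    nlinarith
  -- bound everywhere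
  obtain ⟨B1, hB1⟩ := hloc (max T1 t0)
  set U2 := max U B1 with hU2
  have hup : ∀ t, t0 ≤ t → f t ≤ U2 := by
    intro t ht
    by_cases h1 : T1 ≤ t
    · exact (hupper t h1).trans (le_max_left _ _)
    · push Not at h1
      exact ((le_abs_self _).trans (hB1 t (by linarith) (h1.le.trans (le_max_left _ _)))).trans
        (le_max_right _ _)
  have hU20 : 0 ≤ U2 := (by positivity : 0 ≤ U).trans (le_max_left _ _)
  -- lower bound
  set T2 := max t0 (2 / δ) with hT2
  set D := Real.exp (-1) - Real.exp (-2) with hD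
  have hDpos : 0 < D := by
    rw [hD, sub_pos, Real.exp_lt_exp]; norm_num
  have hlower : ∀ T, T2 ≤ T → -((C + U2 + B0) / D + k) ≤ f T := by
    intro T hT
    have hTt0 : t0 ≤ T := (le_max_left _ _).trans hT
    have hTδ : 2 / δ ≤ T := (le_max_right _ _).trans hT
    have hT0 : 0 < T := by linarith
    by_contra hcon
    push Not at hcon
    set w := 1 / T with hw
    have hw0 : 0 < w := by positivity
    have hwT : w * T = 1 := by rw [hw]; field_simp
    have hwδ : w < δ := by
      rw [hw, div_lt_iff₀ hT0]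
      rw [div_le_iff₀ hδ] at hTδ
      linarith
    set Q : ℝ := f T + k with hQ
    have hQneg : Q < 0 := by
      have : 0 ≤ (C + U2 + B0) / D := by positivity
      linarith
    set ind2 : ℝ → ℝ := (Ioc T (2 * T)).indicator (fun t => Q * Real.exp (-w * t)) with hind2
    have hpt : ∀ t, 0 < t → f t * Real.exp (-w * t) ≤ (U2 + B0) * Real.exp (-w * t) + ind2 t := by
      intro t ht
      have hex := Real.exp_pos (-w * t)
      by_cases h1 : t ∈ Ioc T (2 * T)
      · rw [hind2, indicator_of_mem h1]
        have h2 := h T hTt0 t h1.1.le h1.2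
        have h3 : f t ≤ (U2 + B0) + Q := by linarith
        calc f t * Real.exp (-w * t) ≤ ((U2 + B0) + Q) * Real.exp (-w * t) := by gcongr
          _ = _ := by ring
      · rw [hind2, indicator_of_notMem h1, add_zero]
        apply mul_le_mul_of_nonneg_right _ hex.le
        by_cases h2 : t < t0
        · have := (abs_le.mp (hB0 t ht h2.le)).2
          linarith
        · push Not at h2
          have := hup t h2
          linarith
    have iind2 : IntegrableOn ind2 (Ioi 0) := by
      apply Integrable.integrableOn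
      rw [hind2, integrable_indicator_iff measurableSet_Ioc]
      exact ((integrableOn_exp_neg hw0).mono_set (by
        intro t ht
        exact hT0.trans ht.1)).const_mul Q
    have hval2 : ∫ t in Ioi (0 : ℝ), ind2 t = Q * (D / w) := by
      rw [hind2, setIntegral_indicator measurableSet_Ioc]
      have h1 : Ioi (0 : ℝ) ∩ Ioc T (2 * T) = Ioc T (2 * T) := by
        ext t
        simp only [mem_inter_iff, mem_Ioi, mem_Ioc]
        constructor
        · exact fun h => h.2
        · exact fun h => ⟨hT0.trans h.1, h⟩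
      rw [h1, integral_const_mul, ← intervalIntegral.integral_of_le (by linarith)]
      have hderiv : ∀ t ∈ uIcc T (2 * T), HasDerivAt (fun t : ℝ => -Real.exp (-w * t) / w)
          (Real.exp (-w * t)) t := by
        intro t _
        have h2 : HasDerivAt (fun t : ℝ => -w * t) (-w) t := by
          simpa using (hasDerivAt_id t).const_mul (-w)
        have h3 := (h2.exp.neg).div_const w
        convert! h3 using 1
        field_simp
      rw [intervalIntegral.integral_eq_sub_of_hasDerivAt hderiv
        (Continuous.intervalIntegrable (by fun_prop) _ _)]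
      have e1 : -w * T = -1 := by linarith
      have e2 : -w * (2 * T) = -2 := by linarith
      rw [e1, e2, hD]
      ring
    have hineq : ∫ t in Ioi (0 : ℝ), f t * Real.exp (-w * t)
        ≤ ∫ t in Ioi (0 : ℝ), ((U2 + B0) * Real.exp (-w * t) + ind2 t) := by
      apply setIntegral_mono_on (hint w hw0) (((integrableOn_exp_neg hw0).const_mul _).add iind2)
        measurableSet_Ioi
      intro t ht
      exact hpt t ht
    rw [integral_add ((integrableOn_exp_neg hw0).const_mul _) iind2, integral_const_mul,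
      integral_exp_neg hw0, hval2] at hineq
    have hA1 := (abs_le.mp (habel w hw0 hwδ)).1
    have hmul := mul_le_mul_of_nonneg_left hineq hw0.le
    have e3 : w * ((U2 + B0) * (1 / w) + Q * (D / w)) = (U2 + B0) + Q * D := by
      field_simp
    rw [e3] at hmul
    have h5 : Q * D ≥ -(C + U2 + B0) := by linarith
    have h6 : Q ≥ -((C + U2 + B0) / D) := by
      rw [ge_iff_le, ← neg_div, div_le_iff₀ hDpos]
      linarith
    linarith
  obtain ⟨B2, hB2⟩ := hloc (max T2 t0)
  refine ⟨max U2 (max ((C + U2 + B0) / D + k) B2), ?_⟩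
  intro t ht
  rw [abs_le]
  constructor
  · by_cases h1 : T2 ≤ t
    · have h2 := hlower t h1
      have h3 : (C + U2 + B0) / D + k ≤ max U2 (max ((C + U2 + B0) / D + k) B2) :=
        (le_max_left _ _).trans (le_max_right _ _)
      linarith
    · push Not at h1
      have h2 := (abs_le.mp (hB2 t (by linarith) (h1.le.trans (le_max_left _ _)))).1
      have h3 : B2 ≤ max U2 (max ((C + U2 + B0) / D + k) B2) :=
        (le_max_right _ _).trans (le_max_right _ _)
      linarith
  · exact (hup t ht).trans (le_max_left _ _)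

section

variable (W : WeierstrassCurve ℤ) (N : ℕ → ℕ)
    (hNdef : ∀ p : ℕ, N p = 1 + ((Finset.range p ×ˢ Finset.range p).filter
      (fun q : ℕ × ℕ => (p : ℤ) ∣ ((q.2 : ℤ) ^ 2 + W.a₁ * (q.1 : ℤ) * (q.2 : ℤ) + W.a₃ * (q.2 : ℤ)
        - ((q.1 : ℤ) ^ 3 + W.a₂ * (q.1 : ℤ) ^ 2 + W.a₄ * (q.1 : ℤ) + W.a₆)))).card)

lemma lg_mono {s t : ℝ} (h : s ≤ t) : lg s ≤ lg t := by
  unfold lg
  apply Real.log_le_log (by positivity)
  exact max_le_max_right 1 h

include hNdef in
lemma fn_loc (r : ℕ) (T : ℝ) : ∃ B, ∀ t, 0 < t → t ≤ T → |fn N (badW W) r t| ≤ B := by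
  have hN := hN_of W N hNdef
  have hH := ap_bound W N hNdef
  refine ⟨8 * Real.exp (2 * T) + r * lg T, ?_⟩
  intro t h1 h2
  rw [fn]
  refine (abs_sub _ _).trans ?_
  apply add_le_add
  · refine (LL_bound N (badW W) hN hH t h1.le).trans ?_
    have : Real.exp (2 * t) ≤ Real.exp (2 * T) := Real.exp_le_exp.mpr (by linarith)
    linarith
  · rw [abs_of_nonneg (mul_nonneg (Nat.cast_nonneg r) (lg_nonneg t))]
    exact mul_le_mul_of_nonneg_left (lg_mono h2) (Nat.cast_nonneg r)

lemma LapInt_sqrt (A B s x : ℝ) (hs : 0 < s) (hx : 0 < x) :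
    LapInt (fun t => A + B * Real.sqrt (t / s)) x := by
  unfold LapInt
  have h1 : IntegrableOn (fun t : ℝ => A * Real.exp (-x * t)
      + (B * (1 / s) ^ (1 / 2 : ℝ)) * (t ^ (1 / 2 : ℝ) * Real.exp (-x * t))) (Ioi 0) :=
    ((integrableOn_exp_neg hx).const_mul _).add
      ((integrableOn_rpow_exp hx (by norm_num)).const_mul _)
  refine (integrableOn_congr_fun ?_ measurableSet_Ioi).mpr h1
  intro t ht
  have ht' : 0 < t := ht
  simp only
  rw [Real.sqrt_eq_rpow, div_eq_mul_one_div t s, Real.mul_rpow ht'.le (by positivity)]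
  ring

include hNdef in
/-- One-sided doubling gives boundedness of `f`. -/
theorem fn_bounded_of_doubling (F : ℂ → ℂ) (hFd : Differentiable ℂ F) (hF : EulerHyp W N F)
    (t0 k : ℝ) (ht0 : 0 < t0) (hk : 0 ≤ k)
    (h : ∀ t, t0 ≤ t → ∀ t', t ≤ t' → t' ≤ 2 * t →
      LL N (badW W) t' ≤ LL N (badW W) t + k) :
    (∀ x, 0 < x → LapInt (LL N (badW W)) x) ∧
    ∃ B, ∀ t, t0 ≤ t → |fn N (badW W) (analyticOrderNatAt F 1) t| ≤ B := by
  have hN := hN_of W N hNdef
  have hH := ap_bound W N hNdef
  set r := analyticOrderNatAt F 1 with hr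
  have hgrow := doubling_growth ht0 hk h
  have hint : ∀ x, 0 < x → LapInt (LL N (badW W)) x := by
    apply lapInt_continue N (badW W) F hFd hN hH hF 0 le_rfl
      (fun t => LL N (badW W) t0 + 4 * k * Real.sqrt (t / t0))
      (by fun_prop) (fun x hx => LapInt_sqrt _ _ t0 x ht0 hx) 1 (Or.inl rfl) t0
    · intro t ht
      have := hgrow t0 le_rfl t ht.le
      linarith
    · exact Or.inl rfl
  refine ⟨hint, ?_⟩
  obtain ⟨hfi, C, δ, hδ, hC⟩ := abel_fn N (badW W) F hFd hN hH hF hint
  rw [← hr] at hfi hC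
  apply tauber_bounded hfi C δ hδ hC t0 k ht0 hk
  · intro t ht t' h1 h2
    have h3 := h t ht t' h1 h2
    have h4 : (r : ℝ) * lg t ≤ r * lg t' :=
      mul_le_mul_of_nonneg_left (lg_mono h1) (Nat.cast_nonneg r)
    rw [fn, fn]
    linarith
  · exact fn_loc W N hNdef r

include hNdef in
theorem doubling_criterion (F : ℂ → ℂ) (hFd : Differentiable ℂ F) (hF : EulerHyp W N F) :
    (∃ K X : ℝ, ∀ x y : ℝ, X ≤ x → x ≤ y → y ≤ x ^ 2 → PE W N y ≤ K * PE W N x) ↔
    ∃ c C : ℝ, 0 < c ∧ ∀ᶠ x : ℝ in atTop,
      c * Real.log x ^ (analyticOrderNatAt F 1) ≤ PE W N x ∧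
      PE W N x ≤ C * Real.log x ^ (analyticOrderNatAt F 1) := by
  set r := analyticOrderNatAt F 1 with hr
  constructor
  · rintro ⟨K, X, h⟩
    set t0 := Real.log (max X (Real.exp 1)) with ht0
    have ht01 : 1 ≤ t0 := by
      rw [ht0, Real.le_log_iff_exp_le (by positivity)]
      exact le_max_right _ _
    have hXt : ∀ t, t0 ≤ t → X ≤ Real.exp t := by
      intro t ht
      have h1 : max X (Real.exp 1) ≤ Real.exp t := by
        rwa [ht0, Real.log_le_iff_le_exp (by positivity)] at ht
      exact (le_max_left _ _).trans h1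
    set k := Real.log (max K 1) with hk
    have hk0 : 0 ≤ k := Real.log_nonneg (le_max_right _ _)
    have hdoub : ∀ t, t0 ≤ t → ∀ t', t ≤ t' → t' ≤ 2 * t →
        LL N (badW W) t' ≤ LL N (badW W) t + k := by
      intro t ht t' h1 h2
      have h3 := h (Real.exp t) (Real.exp t') (hXt t ht) (Real.exp_le_exp.mpr h1) (by
        rw [← Real.exp_nat_mul]
        apply Real.exp_le_exp.mpr
        push_cast
        exact h2)
      rw [PE_exp W N hNdef, PE_exp W N hNdef] at h3
      have h4 : Real.exp (LL N (badW W) t') ≤ Real.exp (LL N (badW W) t + k) := by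
        rw [Real.exp_add, hk, Real.exp_log (by positivity)]
        calc Real.exp (LL N (badW W) t') ≤ K * Real.exp (LL N (badW W) t) := h3
          _ ≤ max K 1 * Real.exp (LL N (badW W) t) := by
              gcongr
              exact le_max_left _ _
          _ = _ := by ring
      exact Real.exp_le_exp.mp h4
    obtain ⟨-, B, hB⟩ := fn_bounded_of_doubling W N hNdef F hFd hF t0 k (by linarith) hk0 hdoub
    rw [← hr] at hB
    refine ⟨Real.exp (-B), Real.exp B, Real.exp_pos _, ?_⟩
    filter_upwards [eventually_ge_atTop (Real.exp t0)] with x hx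
    have hx0 : 0 < x := (Real.exp_pos _).trans_le hx
    have hlx : t0 ≤ Real.log x := by rwa [Real.le_log_iff_exp_le hx0]
    have h1 := abs_le.mp (hB (Real.log x) hlx)
    have h1lx : 1 ≤ Real.log x := ht01.trans hlx
    have hlxpos : 0 < Real.log x := by linarith
    rw [fn, lg_of_one_le h1lx] at h1
    rw [PE_eq W N hNdef x hx0]
    have e1 : ∀ c : ℝ, Real.exp c * Real.log x ^ r
        = Real.exp (c + r * Real.log (Real.log x)) := by
      intro c
      rw [Real.exp_add, ← Real.log_pow, Real.exp_log (by positivity)]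
    rw [e1, e1, Real.exp_le_exp, Real.exp_le_exp]
    constructor
    · linarith [h1.1]
    · linarith [h1.2]
  · rintro ⟨c, C, hc, h⟩
    obtain ⟨x1, hx1⟩ := eventually_atTop.mp h
    refine ⟨2 ^ r * C / c, max x1 2, ?_⟩
    intro x y h1 h2 h3
    have hx1' : x1 ≤ x := (le_max_left _ _).trans h1
    have hx2 : 2 ≤ x := (le_max_right _ _).trans h1
    have hlogx : 0 < Real.log x := Real.log_pos (by linarith)
    have hlogy : Real.log y ≤ 2 * Real.log x := by
      have := Real.log_le_log (by linarith) h3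
      rw [Real.log_pow] at this
      exact_mod_cast this
    have hlogy0 : 0 < Real.log y := Real.log_pos (by linarith)
    obtain ⟨a1, a2⟩ := hx1 x hx1'
    obtain ⟨b1, b2⟩ := hx1 y (hx1'.trans h2)
    have hC : 0 ≤ C := by
      by_contra hcon
      push Not at hcon
      have h5 : 0 < Real.log x ^ r := by positivity
      nlinarith
    calc PE W N y ≤ C * Real.log y ^ r := b2
      _ ≤ C * (2 * Real.log x) ^ r := by gcongr
      _ = (2 ^ r * C / c) * (c * Real.log x ^ r) := by
          rw [mul_pow]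
          field_simp
      _ ≤ (2 ^ r * C / c) * PE W N x := by gcongr

end

end Pool.Agent.Helper13.Bsd
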