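import Mathlib
import Pool.Agent.Helper13.Bsd.Main

/-!
# Limits at the edge
-/

namespace Pool.Agent.Helper13.Bsd

open Complex Filter Topology MeasureTheory Set

/-- Refined local estimate. -/
lemma core_bound' (α β δ : ℝ) (hδ0 : 0 < δ) (hδ : δ ≤ 1 / 32) (hα : |α| ≤ 14 * δ) (hβ : β = δ ^ 2)
    (X : ℂ) (hX : ‖X‖ ≤ 1) :
    ‖(((Real.log (1 - α + β) : ℝ) : ℂ) * X - log (1 - ((α : ℂ) * X - (β : ℂ) * X ^ 2)))
      - ((β : ℂ) - (α : ℂ) ^ 2 / 2) * (X - X ^ 2)‖ ≤ 4000 * δ ^ 3 := by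
  have hX0 := norm_nonneg X
  have hβ0 : 0 ≤ β := by rw [hβ]; positivity
  have hβδ : β ≤ δ / 32 := by rw [hβ]; nlinarith
  set y : ℝ := α - β with hy
  set z : ℂ := (α : ℂ) * X - (β : ℂ) * X ^ 2 with hz
  have hynorm : |y| ≤ 14.04 * δ := by
    calc |α - β| ≤ |α| + |β| := abs_sub _ _
      _ ≤ 14 * δ + δ / 32 := by rw [abs_of_nonneg hβ0]; linarith
      _ ≤ _ := by nlinarith
  have hznorm : ‖z‖ ≤ 14.04 * δ := by
    calc ‖z‖ ≤ ‖(α : ℂ) * X‖ + ‖(β : ℂ) * X ^ 2‖ := norm_sub_le _ _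
      _ = |α| * ‖X‖ + β * ‖X‖ ^ 2 := by
          rw [norm_mul, norm_mul, norm_pow, norm_real, norm_real, Real.norm_eq_abs,
            Real.norm_eq_abs, abs_of_nonneg hβ0]
      _ ≤ |α| * 1 + β * 1 := by
          gcongr
          exact pow_le_one₀ hX0 hX
      _ ≤ 14 * δ + δ / 32 := by linarith
      _ ≤ _ := by nlinarith
  have hyhalf : ‖(y : ℂ)‖ ≤ 1 / 2 := by
    rw [norm_real, Real.norm_eq_abs]; linarith
  have hzhalf : ‖z‖ ≤ 1 / 2 := by linarith
  have hyle := (abs_le.mp hynorm).2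
  have hpos : 0 ≤ 1 - α + β := by linarith
  have elog : ((Real.log (1 - α + β) : ℝ) : ℂ) = log (1 - (y : ℂ)) := by
    rw [ofReal_log hpos]
    congr 1
    rw [hy]
    push_cast
    ring
  have E1 := log_one_sub_approx hyhalf
  have E2 := log_one_sub_approx hzhalf
  rw [elog]
  have hdecomp : (log (1 - (y : ℂ)) * X - log (1 - z)) - ((β : ℂ) - (α : ℂ) ^ 2 / 2) * (X - X ^ 2)
      = ((α : ℂ) * β * (X - X ^ 3) - (β : ℂ) ^ 2 / 2 * (X - X ^ 4))
        + (log (1 - (y : ℂ)) + y + (y : ℂ) ^ 2 / 2) * X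
        - (log (1 - z) + z + z ^ 2 / 2) := by
    rw [hz, hy]
    push_cast
    ring
  rw [hdecomp]
  have hXn : ∀ n : ℕ, 1 ≤ n → ‖X - X ^ n‖ ≤ 2 := by
    intro n _
    calc ‖X - X ^ n‖ ≤ ‖X‖ + ‖X ^ n‖ := norm_sub_le _ _
      _ ≤ 1 + 1 := by
          rw [norm_pow]
          exact add_le_add hX (pow_le_one₀ hX0 hX)
      _ = 2 := by norm_num
  have B2 : ‖(α : ℂ) * β * (X - X ^ 3) - (β : ℂ) ^ 2 / 2 * (X - X ^ 4)‖ ≤ 29 * δ ^ 3 := by
    refine (norm_sub_le _ _).trans ?_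
    rw [norm_mul, norm_mul, norm_mul, norm_div, norm_pow, norm_real, norm_real, Real.norm_eq_abs,
      Real.norm_eq_abs, abs_of_nonneg hβ0]
    have h3 := hXn 3 (by norm_num)
    have h4 := hXn 4 (by norm_num)
    have h2 : ‖(2 : ℂ)‖ = 2 := by simp
    rw [h2]
    calc |α| * β * ‖X - X ^ 3‖ + β ^ 2 / 2 * ‖X - X ^ 4‖
        ≤ (14 * δ) * β * 2 + β ^ 2 / 2 * 2 := by gcongr
      _ = 28 * δ ^ 3 + δ ^ 4 := by rw [hβ]; ring
      _ ≤ 29 * δ ^ 3 := by
          have : δ ^ 4 ≤ δ ^ 3 := pow_le_pow_of_le_one hδ0.le (by linarith) (by norm_num)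
          linarith
  have hcube : ∀ u : ℝ, 0 ≤ u → u ≤ 14.04 * δ → u ^ 3 ≤ 2768 * δ ^ 3 := by
    intro u hu hu2
    calc u ^ 3 ≤ (14.04 * δ) ^ 3 := pow_le_pow_left₀ hu hu2 3
      _ = 2767.587264 * δ ^ 3 := by ring
      _ ≤ 2768 * δ ^ 3 := by
          have : 0 ≤ δ ^ 3 := by positivity
          nlinarith
  have B3 : ‖(log (1 - (y : ℂ)) + y + (y : ℂ) ^ 2 / 2) * X‖ ≤ 1846 * δ ^ 3 := by
    rw [norm_mul]
    have h1 : ‖(y : ℂ)‖ ^ 3 ≤ 2768 * δ ^ 3 := by
      rw [norm_real, Real.norm_eq_abs]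
      exact hcube _ (abs_nonneg _) hynorm
    calc ‖log (1 - (y : ℂ)) + y + (y : ℂ) ^ 2 / 2‖ * ‖X‖
        ≤ ((2 / 3) * ‖(y : ℂ)‖ ^ 3) * 1 := by gcongr
      _ ≤ 1846 * δ ^ 3 := by
          have : 0 ≤ δ ^ 3 := by positivity
          nlinarith
  have B4 : ‖log (1 - z) + z + z ^ 2 / 2‖ ≤ 1846 * δ ^ 3 := by
    have h1 := hcube _ (norm_nonneg z) hznorm
    refine E2.trans ?_
    have : 0 ≤ δ ^ 3 := by positivity
    nlinarith
  refine (norm_sub_le _ _).trans ?_
  refine (add_le_add_left (norm_add_le _ _) _).trans ?_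
  have : 0 ≤ δ ^ 3 := by positivity
  linarith

/-- The constant coming from the truncated logarithm. -/
theorem lg_limit : ∃ γ0 : ℝ, Tendsto (fun w : ℝ =>
    w * (∫ t in Ioi (0 : ℝ), lg t * Real.exp (-w * t)) - Real.log (1 / w)) (𝓝[>] 0) (𝓝 γ0) := by
  refine ⟨∫ u in Ioi (0 : ℝ), Real.log u * Real.exp (-1 * u), ?_⟩
  have hbound : IntegrableOn (fun u : ℝ => (u ^ (1 : ℝ) * Real.exp (-1 * u))
      + 2 * (u ^ (-(1 / 2) : ℝ) * Real.exp (-1 * u))) (Ioi 0) :=
    (integrableOn_rpow_exp one_pos (by norm_num)).add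
      ((integrableOn_rpow_exp one_pos (by norm_num)).const_mul 2)
  have hlogabs : ∀ u : ℝ, 0 < u → |Real.log u| ≤ u ^ (1 : ℝ) + 2 * u ^ (-(1 / 2) : ℝ) := by
    intro u hu
    rw [Real.rpow_one]
    have h1 : 0 < u ^ (-(1 / 2) : ℝ) := by positivity
    have h2 := Real.log_le_sub_one_of_pos h1
    rw [Real.log_rpow hu] at h2
    have h3 := Real.log_le_sub_one_of_pos hu
    rw [abs_le]
    constructor <;> linarith
  have hlim : Tendsto (fun w : ℝ => ∫ u in Ioi (0 : ℝ),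
      (lg (w⁻¹ * u) - Real.log (1 / w)) * Real.exp (-1 * u)) (𝓝[>] 0)
      (𝓝 (∫ u in Ioi (0 : ℝ), Real.log u * Real.exp (-1 * u))) := by
    apply tendsto_integral_filter_of_dominated_convergence
      (fun u : ℝ => (u ^ (1 : ℝ) * Real.exp (-1 * u)) + 2 * (u ^ (-(1 / 2) : ℝ) * Real.exp (-1 * u)))
    · filter_upwards with w
      exact (((measurable_lg.comp (by fun_prop)).sub_const _).mul (by fun_prop)).aestronglyMeasurable
    · have h1 : ∀ᶠ w : ℝ in 𝓝[>] 0, (0 : ℝ) < w := self_mem_nhdsWithin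
      have h2 : ∀ᶠ w : ℝ in 𝓝[>] 0, w < 1 :=
        (gt_mem_nhds one_pos : ∀ᶠ x : ℝ in 𝓝 0, x < 1).filter_mono nhdsWithin_le_nhds
      filter_upwards [h1, h2] with w hw0 hw1
      rw [ae_restrict_iff' measurableSet_Ioi]
      filter_upwards with u hu
      have hu0 : 0 < u := hu
      rw [norm_mul, Real.norm_eq_abs, Real.norm_eq_abs, Real.abs_exp]
      have h3 : |lg (w⁻¹ * u) - Real.log (1 / w)| ≤ |Real.log u| := by
        by_cases h4 : w ≤ u
        · have h5 : 1 ≤ w⁻¹ * u := by rw [inv_mul_eq_div, one_le_div hw0]; exact h4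
          rw [lg_of_one_le h5, Real.log_mul (by positivity) hu0.ne', one_div]
          simp
        · push Not at h4
          have h5 : w⁻¹ * u < 1 := by rw [inv_mul_eq_div, div_lt_one hw0]; exact h4
          rw [lg, max_eq_right h5.le, Real.log_one, one_div, Real.log_inv]
          have h6 := Real.log_le_log hu0 h4.le
          have h7 : Real.log w ≤ 0 := Real.log_nonpos hw0.le hw1.le
          rw [abs_of_nonpos (by linarith : Real.log u ≤ 0), abs_of_nonpos (by linarith)]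
          linarith
      have h8 := hlogabs u hu0
      calc |lg (w⁻¹ * u) - Real.log (1 / w)| * Real.exp (-1 * u)
          ≤ (u ^ (1 : ℝ) + 2 * u ^ (-(1 / 2) : ℝ)) * Real.exp (-1 * u) := by
            gcongr
            exact h3.trans h8
        _ = _ := by ring
    · exact hbound
    · rw [ae_restrict_iff' measurableSet_Ioi]
      filter_upwards with u hu
      have hu0 : 0 < u := hu
      have h1 : ∀ᶠ w : ℝ in 𝓝[>] 0, (lg (w⁻¹ * u) - Real.log (1 / w)) * Real.exp (-1 * u)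
          = Real.log u * Real.exp (-1 * u) := by
        have h2 : ∀ᶠ w : ℝ in 𝓝[>] 0, w < u :=
          (gt_mem_nhds hu0 : ∀ᶠ x : ℝ in 𝓝 0, x < u).filter_mono nhdsWithin_le_nhds
        filter_upwards [h2, self_mem_nhdsWithin] with w hw hw0
        have hw0' : 0 < w := hw0
        have h5 : 1 ≤ w⁻¹ * u := by rw [inv_mul_eq_div, one_le_div hw0']; exact hw.le
        rw [lg_of_one_le h5, Real.log_mul (by positivity) hu0.ne', one_div]
        simp
      exact Tendsto.congr' (h1.mono fun _ h => h.symm) tendsto_const_nhds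
  apply hlim.congr'
  filter_upwards [self_mem_nhdsWithin] with w hw
  have hw0 : 0 < w := hw
  have hcomp := integral_comp_mul_left_Ioi (fun u : ℝ => lg (w⁻¹ * u) * Real.exp (-1 * u)) 0 hw0
  rw [mul_zero, smul_eq_mul] at hcomp
  have e1 : ∀ t : ℝ, lg (w⁻¹ * (w * t)) * Real.exp (-1 * (w * t)) = lg t * Real.exp (-w * t) := by
    intro t
    have h1 : w⁻¹ * (w * t) = t := by field_simp
    have h2 : -1 * (w * t) = -w * t := by ring
    rw [h1, h2]
  simp_rw [e1] at hcomp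
  have hint1 : IntegrableOn (fun u : ℝ => lg (w⁻¹ * u) * Real.exp (-1 * u)) (Ioi 0) := by
    have h1 := (integrableOn_Ioi_comp_mul_left_iff
      (fun u : ℝ => lg (w⁻¹ * u) * Real.exp (-1 * u)) 0 hw0).mp
    rw [mul_zero] at h1
    apply h1
    simp_rw [e1]
    exact LapInt_lg hw0
  have h3 : ∫ u in Ioi (0 : ℝ), (lg (w⁻¹ * u) - Real.log (1 / w)) * Real.exp (-1 * u)
      = (∫ u in Ioi (0 : ℝ), lg (w⁻¹ * u) * Real.exp (-1 * u))
        - Real.log (1 / w) * ∫ u in Ioi (0 : ℝ), Real.exp (-1 * u) := by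
    rw [← integral_const_mul, ← integral_sub hint1 ((integrableOn_exp_neg one_pos).const_mul _)]
    congr 1
    funext u
    ring
  rw [h3, integral_exp_neg one_pos, hcomp]
  field_simp

/-- The zeta part converges. -/
theorem prime_diff_limit : Tendsto (fun w : ℝ =>
    ∑' p : Nat.Primes, (((p : ℕ) : ℝ) ^ (-(1 + w)) - ((p : ℕ) : ℝ) ^ (-(1 + 2 * w)))) (𝓝[>] 0)
    (𝓝 (Real.log 2)) := by
  have hpos : ∀ᶠ w : ℝ in 𝓝[>] 0, (0 : ℝ) < w := self_mem_nhdsWithin
  have h2w : Tendsto (fun w : ℝ => 2 * w) (𝓝[>] 0) (𝓝[>] 0) := by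
    apply tendsto_nhdsWithin_of_tendsto_nhds_of_eventually_within
    · have h3 : Continuous (fun w : ℝ => 2 * w) := by fun_prop
      have h4 := (h3.tendsto 0).mono_left (nhdsWithin_le_nhds (s := Ioi (0 : ℝ)))
      simpa using h4
    · filter_upwards [hpos] with w hw
      show 0 < 2 * w
      positivity
  -- zeta
  have hz : Tendsto (fun w : ℝ => w * Real.exp (Asum w)) (𝓝[>] 0) (𝓝 1) := by
    have h1 : Tendsto (fun w : ℝ => (1 : ℂ) + w) (𝓝[>] 0) (𝓝[≠] 1) := by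
      apply tendsto_nhdsWithin_of_tendsto_nhds_of_eventually_within
      · have h3 : Continuous (fun w : ℝ => (1 : ℂ) + w) := by fun_prop
        have h4 := (h3.tendsto 0).mono_left (nhdsWithin_le_nhds (s := Ioi (0 : ℝ)))
        simpa using h4
      · filter_upwards [hpos] with w hw
        simp only [mem_compl_iff, mem_singleton_iff, add_eq_left, ofReal_eq_zero]
        exact hw.ne'
    have h2 := (riemannZeta_residue_one.comp h1).norm
    rw [norm_one] at h2
    apply h2.congr'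
    filter_upwards [hpos] with w hw
    simp only [Function.comp]
    rw [norm_mul, norm_zeta_eq hw]
    congr 1
    simp [abs_of_pos hw]
  have hzlog : Tendsto (fun w : ℝ => Real.log (w * Real.exp (Asum w))) (𝓝[>] 0) (𝓝 0) := by
    have := (Real.continuousAt_log one_ne_zero).tendsto.comp hz
    rw [Real.log_one] at this
    exact this
  -- R
  set Rt : ℝ → Nat.Primes → ℝ := fun w p =>
    -Real.log (1 - ((p : ℕ) : ℝ) ^ (-(1 + w))) - ((p : ℕ) : ℝ) ^ (-(1 + w)) with hRt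
  have hRb : ∀ w : ℝ, 0 ≤ w → ∀ p : Nat.Primes, ‖Rt w p‖ ≤ 2 * ((p : ℕ) : ℝ) ^ (-(2 : ℝ)) := by
    intro w hw p
    have h0 : 0 ≤ ((p : ℕ) : ℝ) ^ (-(1 + w)) := by positivity
    have h1 := prime_rpow_le_half p hw
    have k1 := neg_log_bounds h0 h1
    have k3 : (((p : ℕ) : ℝ) ^ (-(1 + w))) ^ 2 ≤ ((p : ℕ) : ℝ) ^ (-(2 : ℝ)) := by
      have hp1 : (1 : ℝ) ≤ ((p : ℕ) : ℝ) := by exact_mod_cast p.2.one_le
      rw [← Real.rpow_natCast, ← Real.rpow_mul (by positivity)]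
      apply Real.rpow_le_rpow_of_exponent_le hp1
      push_cast
      linarith
    rw [Real.norm_eq_abs, abs_le]
    constructor
    · have : 0 ≤ ((p : ℕ) : ℝ) ^ (-(2 : ℝ)) := by positivity
      linarith [k1.1]
    · linarith [k1.2]
  have hsum2 : Summable fun p : Nat.Primes => 2 * ((p : ℕ) : ℝ) ^ (-(2 : ℝ)) :=
    (summable_primes_rpow (by norm_num)).mul_left _
  have hR : Tendsto (fun w : ℝ => ∑' p : Nat.Primes, Rt w p) (𝓝[>] 0)
      (𝓝 (∑' p : Nat.Primes, Rt 0 p)) := by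
    apply tendsto_tsum_of_dominated_convergence hsum2
    · intro p
      have hp0 : (0 : ℝ) < ((p : ℕ) : ℝ) := by exact_mod_cast p.2.pos
      have h1 : ContinuousAt (fun w : ℝ => Rt w p) 0 := by
        simp only [hRt]
        have hc : ContinuousAt (fun w : ℝ => ((p : ℕ) : ℝ) ^ (-(1 + w))) 0 := by
          apply ContinuousAt.rpow continuousAt_const (by fun_prop)
          exact Or.inl hp0.ne'
        apply ContinuousAt.sub _ hc
        apply ContinuousAt.neg
        apply ContinuousAt.log (continuousAt_const.sub hc)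
        have h7 : ((p : ℕ) : ℝ) ^ (-(1 + (0 : ℝ))) ≤ 1 / 2 := prime_rpow_le_half p (le_refl (0 : ℝ))
        intro h0
        have h0' : (1 : ℝ) - ((p : ℕ) : ℝ) ^ (-(1 + (0 : ℝ))) = 0 := h0
        rw [sub_eq_zero] at h0'
        rw [← h0'] at h7
        norm_num at h7
      exact h1.tendsto.mono_left nhdsWithin_le_nhds
    · filter_upwards [hpos] with w hw p
      exact hRb w hw.le p
  have hR2 := hR.comp h2w
  have hzlog2 := hzlog.comp h2w
  have hfin : Tendsto (fun w : ℝ => (Real.log (w * Real.exp (Asum w))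
      - Real.log (2 * w * Real.exp (Asum (2 * w))) + Real.log 2)
      - ((∑' p : Nat.Primes, Rt w p) - ∑' p : Nat.Primes, Rt (2 * w) p)) (𝓝[>] 0)
      (𝓝 ((0 - 0 + Real.log 2) - ((∑' p : Nat.Primes, Rt 0 p) - ∑' p : Nat.Primes, Rt 0 p))) :=
    ((hzlog.sub hzlog2).add_const _).sub (hR.sub hR2)
  have e0 : (0 - 0 + Real.log 2) - ((∑' p : Nat.Primes, Rt 0 p) - ∑' p : Nat.Primes, Rt 0 p)
      = Real.log 2 := by ring
  rw [e0] at hfin
  apply hfin.congr'
  filter_upwards [hpos] with w hw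
  have hw2 : 0 < 2 * w := by positivity
  have hA : ∀ x : ℝ, 0 < x → ∑' p : Nat.Primes, Rt x p
      = Asum x - ∑' p : Nat.Primes, ((p : ℕ) : ℝ) ^ (-(1 + x)) := by
    intro x hx
    rw [Asum, ← (summable_Asum hx).tsum_sub (summable_primes_rpow (by linarith))]
  rw [hA w hw, hA (2 * w) hw2, Real.log_mul hw.ne' (Real.exp_pos _).ne', Real.log_exp,
    Real.log_mul (by positivity) (Real.exp_pos _).ne', Real.log_exp,
    Real.log_mul (by norm_num) hw.ne',
    (summable_primes_rpow (by linarith)).tsum_sub (summable_primes_rpow (by linarith))]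
  ring

section

variable (N : ℕ → ℕ) (bad : ℕ → Prop) [DecidablePred bad]

/-- The second moment sum. -/
noncomputable def S2 (w : ℝ) : ℝ := ∑' p : Nat.Primes, if bad p then 0 else
  (alp N p) ^ 2 * (((p : ℕ) : ℝ) ^ (-w) - ((p : ℕ) : ℝ) ^ (-(2 * w)))

lemma alp_sq_le (hH : ∀ p : ℕ, p.Prime → |(p : ℝ) + 1 - N p| ≤ 14 * Real.sqrt p) (p : ℕ)
    (hp : p.Prime) : (alp N p) ^ 2 ≤ 196 * (p : ℝ)⁻¹ := by
  have hp0 : (0 : ℝ) < p := by exact_mod_cast hp.pos
  have h1 := alp_bound N hH p hp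
  have h2 : (alp N p) ^ 2 ≤ (14 * (Real.sqrt p)⁻¹) ^ 2 := by
    rw [← sq_abs]
    exact pow_le_pow_left₀ (abs_nonneg _) h1 2
  rw [mul_pow, inv_pow, Real.sq_sqrt hp0.le] at h2
  linarith

lemma summable_S2 (hH : ∀ p : ℕ, p.Prime → |(p : ℝ) + 1 - N p| ≤ 14 * Real.sqrt p) {w : ℝ}
    (hw : 0 < w) : Summable fun p : Nat.Primes => if bad p then 0 else
      (alp N p) ^ 2 * (((p : ℕ) : ℝ) ^ (-w) - ((p : ℕ) : ℝ) ^ (-(2 * w))) := by
  have h1 : Summable fun p : Nat.Primes => 196 * ((p : ℕ) : ℝ) ^ (-(1 + w)) :=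
    (summable_primes_rpow (by linarith)).mul_left _
  apply Summable.of_norm_bounded h1
  intro p
  have hp1 : (1 : ℝ) ≤ ((p : ℕ) : ℝ) := by exact_mod_cast p.2.one_le
  have hp0 : (0 : ℝ) < ((p : ℕ) : ℝ) := by linarith
  split_ifs
  · rw [norm_zero]; positivity
  · have h2 := alp_sq_le N hH p p.2
    have h3 : ((p : ℕ) : ℝ) ^ (-(2 * w)) ≤ ((p : ℕ) : ℝ) ^ (-w) :=
      Real.rpow_le_rpow_of_exponent_le hp1 (by linarith)
    have h4 : 0 ≤ ((p : ℕ) : ℝ) ^ (-(2 * w)) := by positivity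
    rw [norm_mul, Real.norm_eq_abs, Real.norm_eq_abs, abs_of_nonneg (sq_nonneg _),
      abs_of_nonneg (by linarith)]
    have e : ((p : ℕ) : ℝ) ^ (-(1 + w)) = (((p : ℕ) : ℝ))⁻¹ * ((p : ℕ) : ℝ) ^ (-w) := by
      rw [neg_add, Real.rpow_add hp0, Real.rpow_neg_one]
    rw [e]
    calc alp N p ^ 2 * (((p : ℕ) : ℝ) ^ (-w) - ((p : ℕ) : ℝ) ^ (-(2 * w)))
        ≤ (196 * (((p : ℕ) : ℝ))⁻¹) * ((p : ℕ) : ℝ) ^ (-w) := by
          apply mul_le_mul h2 (by linarith) (by linarith) (by positivity)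
      _ = _ := by ring

/-- `Re H(w) + S2(w)/2` converges as `w → 0+`. -/
theorem H_add_S2_limit (hH : ∀ p : ℕ, p.Prime → |(p : ℝ) + 1 - N p| ≤ 14 * Real.sqrt p)
    (hfin : {p : Nat.Primes | bad p}.Finite) :
    ∃ κ : ℝ, Tendsto (fun w : ℝ => (Hf N bad (w : ℂ)).re + S2 N bad w / 2) (𝓝[>] 0) (𝓝 κ) := by
  have hpos : ∀ᶠ w : ℝ in 𝓝[>] 0, (0 : ℝ) < w := self_mem_nhdsWithin
  -- per prime function
  set v : ℝ → Nat.Primes → ℝ := fun w p => (hterm N bad p (w : ℂ)).re
    + (if bad p then 0 else (alp N p) ^ 2 * (((p : ℕ) : ℝ) ^ (-w) - ((p : ℕ) : ℝ) ^ (-(2 * w)))) / 2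
    with hv
  set e : ℝ → Nat.Primes → ℝ := fun w p => v w p
    - (((p : ℕ) : ℝ) ^ (-(1 + w)) - ((p : ℕ) : ℝ) ^ (-(1 + 2 * w))) with he
  set bnd : Nat.Primes → ℝ := fun p => 4000 * ((p : ℕ) : ℝ) ^ (-(3 / 2 : ℝ))
    + (if (bad p ∨ (p : ℕ) < 1024) then (alp N p) ^ 2 + 1 else 0) with hbnd
  have hsumbnd : Summable bnd := by
    apply ((summable_primes_rpow (by norm_num)).mul_left _).add
    have hfin2 : {p : Nat.Primes | bad p ∨ (p : ℕ) < 1024}.Finite := by
      have : {p : Nat.Primes | bad p ∨ (p : ℕ) < 1024}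
          = {p : Nat.Primes | bad p} ∪ {p : Nat.Primes | (p : ℕ) < 1024} := by
        ext p
        simp
      rw [this]
      exact hfin.union finite_small
    apply summable_of_ne_finset_zero (s := hfin2.toFinset)
    intro p hp
    rw [Set.Finite.mem_toFinset] at hp
    exact if_neg hp
  have hXs : ∀ (w : ℝ), 0 ≤ w → ∀ p : Nat.Primes,
      ((p : ℕ) : ℂ) ^ (-(w : ℂ)) = ((((p : ℕ) : ℝ) ^ (-w) : ℝ) : ℂ) := by
    intro w _ p
    rw [ofReal_cpow (by positivity)]
    push_cast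
    rfl
  have hX2 : ∀ (w : ℝ) (p : Nat.Primes), ((p : ℕ) : ℝ) ^ (-(2 * w)) = (((p : ℕ) : ℝ) ^ (-w)) ^ 2 := by
    intro w p
    rw [← Real.rpow_natCast, ← Real.rpow_mul (by positivity)]
    congr 1
    push_cast
    ring
  have hβX : ∀ (w : ℝ) (p : Nat.Primes), ((p : ℕ) : ℝ) ^ (-(1 + w)) - ((p : ℕ) : ℝ) ^ (-(1 + 2 * w))
      = (((p : ℕ) : ℝ))⁻¹ * (((p : ℕ) : ℝ) ^ (-w) - (((p : ℕ) : ℝ) ^ (-w)) ^ 2) := by
    intro w p
    have hp0 : (0 : ℝ) < ((p : ℕ) : ℝ) := by exact_mod_cast p.2.pos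
    rw [← hX2, neg_add, Real.rpow_add hp0, Real.rpow_neg_one]
    have : -(1 + 2 * w) = -1 + -(2 * w) := by ring
    rw [this, Real.rpow_add hp0, Real.rpow_neg_one]
    ring
  have hX01 : ∀ (w : ℝ), 0 ≤ w → ∀ p : Nat.Primes, 0 ≤ ((p : ℕ) : ℝ) ^ (-w) ∧
      ((p : ℕ) : ℝ) ^ (-w) ≤ 1 := by
    intro w hw p
    refine ⟨by positivity, ?_⟩
    exact Real.rpow_le_one_of_one_le_of_nonpos (by exact_mod_cast p.2.one_le) (by linarith)
  have hbound : ∀ w : ℝ, 0 ≤ w → ∀ p : Nat.Primes, ‖e w p‖ ≤ bnd p := by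
    intro w hw p
    obtain ⟨hx0, hx1⟩ := hX01 w hw p
    set X := ((p : ℕ) : ℝ) ^ (-w) with hXdef
    have hXX : 0 ≤ X - X ^ 2 ∧ X - X ^ 2 ≤ 1 := by
      constructor
      · nlinarith
      · nlinarith [sq_nonneg X]
    have hp1 : (1 : ℝ) ≤ ((p : ℕ) : ℝ) := by exact_mod_cast p.2.one_le
    have hinv1 : (((p : ℕ) : ℝ))⁻¹ ≤ 1 := inv_le_one_of_one_le₀ hp1
    have hinv0 : 0 ≤ (((p : ℕ) : ℝ))⁻¹ := by positivity
    have h32 : 0 ≤ 4000 * ((p : ℕ) : ℝ) ^ (-(3 / 2 : ℝ)) := by positivity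
    simp only [he, hv, hbnd, hβX, hX2]
    by_cases hb : bad p
    · have : hterm N bad p (w : ℂ) = 0 := by rw [hterm, if_pos (Or.inl hb)]
      rw [this, if_pos hb, if_pos (Or.inl hb), Real.norm_eq_abs, abs_le]
      simp only [zero_re]
      constructor
      · nlinarith [sq_nonneg (alp N p)]
      · nlinarith [sq_nonneg (alp N p)]
    · by_cases hs : (p : ℕ) < 1024
      · have : hterm N bad p (w : ℂ) = 0 := by rw [hterm, if_pos (Or.inr hs)]
        rw [this, if_neg hb, if_pos (Or.inr hs), Real.norm_eq_abs, abs_le]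
        simp only [zero_re]
        constructor
        · nlinarith [sq_nonneg (alp N p), mul_nonneg (sq_nonneg (alp N p)) hXX.1]
        · nlinarith [sq_nonneg (alp N p), mul_nonneg (sq_nonneg (alp N p)) hXX.1,
            mul_nonneg (sq_nonneg (alp N p)) (sub_nonneg.mpr hXX.2)]
      · obtain ⟨d1, d2, d3⟩ := delta_facts p p.2 hs
        have hor : ¬ (bad p ∨ (p : ℕ) < 1024) := by tauto
        rw [hterm, if_neg hor, if_neg hb, if_neg hor, add_zero]
        have hXn : ‖((X : ℝ) : ℂ)‖ ≤ 1 := by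
          rw [norm_real, Real.norm_eq_abs, abs_of_nonneg hx0]; exact hx1
        have h4 := core_bound' (alp N p) ((((p : ℕ) : ℝ))⁻¹) _ d1 d2 (alp_bound N hH p p.2) d3
          ((X : ℝ) : ℂ) hXn
        rw [← ell_eq N p p.2] at h4
        have hp0 : (0 : ℝ) ≤ ((p : ℕ) : ℝ) := by positivity
        have e3 : ((Real.sqrt ((p : ℕ) : ℝ))⁻¹) ^ 3 = ((p : ℕ) : ℝ) ^ (-(3 / 2 : ℝ)) := by
          rw [Real.rpow_neg hp0, inv_pow]
          congr 1
          rw [Real.sqrt_eq_rpow, ← Real.rpow_natCast, ← Real.rpow_mul hp0]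
          norm_num
        rw [← e3]
        refine le_trans ?_ h4
        rw [zz, hXs w hw p, ← hXdef, Real.norm_eq_abs]
        refine le_trans (le_of_eq ?_) (abs_re_le_norm _)
        congr 1
        have h5 : (((((p : ℕ) : ℝ))⁻¹ : ℝ) : ℂ) - (alp N p : ℂ) ^ 2 / 2
            = ((((((p : ℕ) : ℝ))⁻¹ - alp N p ^ 2 / 2 : ℝ)) : ℂ) := by push_cast; ring
        have h6 : ((X : ℝ) : ℂ) - ((X : ℝ) : ℂ) ^ 2 = ((X - X ^ 2 : ℝ) : ℂ) := by push_cast; ring
        rw [h5, h6]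
        simp only [sub_re, re_ofReal_mul, ofReal_re]
        ring
  have hcont : ∀ p : Nat.Primes, Tendsto (fun w : ℝ => e w p) (𝓝[>] 0) (𝓝 (e 0 p)) := by
    intro p
    have hp0 : (0 : ℝ) < ((p : ℕ) : ℝ) := by exact_mod_cast p.2.pos
    have hr : ∀ g : ℝ → ℝ, Continuous g → Continuous (fun w : ℝ => ((p : ℕ) : ℝ) ^ (g w)) := by
      intro g hg
      exact Continuous.rpow continuous_const hg (fun _ => Or.inl hp0.ne')
    have h1 : ContinuousAt (fun w : ℝ => e w p) 0 := by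
      simp only [he, hv]
      apply ContinuousAt.sub
      · apply ContinuousAt.add
        · apply Complex.continuous_re.continuousAt.comp
          unfold hterm
          split_ifs with h
          · exact continuousAt_const
          · push Not at h
            have hbig : ¬ (p : ℕ) < 1024 := by omega
            have hcX : Continuous (fun w : ℝ => ((p : ℕ) : ℂ) ^ (-(w : ℂ))) :=
              (differentiable_X p p.2).continuous.comp continuous_ofReal
            apply ContinuousAt.sub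
            · exact (continuous_const.mul hcX).continuousAt
            · apply ContinuousAt.clog
              · exact (continuous_const.sub
                  ((differentiable_zz N p p.2).continuous.comp continuous_ofReal)).continuousAt
              · have h5 := zz_norm_lt N hH p p.2 hbig ((0 : ℝ) : ℂ) (by simp)
                rw [sub_eq_add_neg]
                exact mem_slitPlane_of_norm_lt_one (by rwa [norm_neg])
        · apply ContinuousAt.div_const
          split_ifs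
          · exact continuousAt_const
          · exact (continuous_const.mul ((hr _ (by fun_prop)).sub (hr _ (by fun_prop)))).continuousAt
      · exact ((hr _ (by fun_prop)).sub (hr _ (by fun_prop))).continuousAt
    exact h1.tendsto.mono_left nhdsWithin_le_nhds
  have hE : Tendsto (fun w : ℝ => ∑' p, e w p) (𝓝[>] 0) (𝓝 (∑' p, e 0 p)) := by
    apply tendsto_tsum_of_dominated_convergence hsumbnd hcont
    filter_upwards [hpos] with w hw p
    exact hbound w hw.le p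
  refine ⟨Real.log 2 + ∑' p, e 0 p, ?_⟩
  apply (prime_diff_limit.add hE).congr'
  filter_upwards [hpos] with w hw
  have hs1 : Summable fun p : Nat.Primes =>
      (((p : ℕ) : ℝ) ^ (-(1 + w)) - ((p : ℕ) : ℝ) ^ (-(1 + 2 * w))) :=
    (summable_primes_rpow (by linarith)).sub (summable_primes_rpow (by linarith))
  have hs2 : Summable fun p : Nat.Primes => e w p :=
    Summable.of_norm_bounded hsumbnd (hbound w hw.le)
  have hs3 := summable_S2 N bad hH hw
  have hs4 : Summable fun p : Nat.Primes => (hterm N bad p (w : ℂ)).re := by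
    have h5 := (hs1.add hs2).sub (hs3.div_const 2)
    refine h5.congr fun p => ?_
    simp only [he, hv]
    ring
  have hHsum : Summable fun p : Nat.Primes => hterm N bad p (w : ℂ) := by
    have hb : ∀ p : Nat.Primes, ‖hterm N bad p (w : ℂ)‖ ≤
        99 * (((p : ℕ) : ℝ) ^ (-(1 + w)) - ((p : ℕ) : ℝ) ^ (-(1 + 2 * w)))
        + 4000 * ((p : ℕ) : ℝ) ^ (-(3 / 2 : ℝ)) := by
      intro p
      refine (hterm_bound N bad hH p p.2 w (by simpa using hw.le)).trans ?_
      obtain ⟨hx0, hx1⟩ := hX01 w hw.le p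
      rw [hXs w hw.le p, ← ofReal_pow, ← ofReal_sub, norm_real, Real.norm_eq_abs,
        abs_of_nonneg (by nlinarith), hβX]
      apply le_of_eq
      ring
    exact Summable.of_norm_bounded ((hs1.mul_left 99).add
      ((summable_primes_rpow (by norm_num)).mul_left 4000)) hb
  rw [← hs1.tsum_add hs2]
  have h6 : (Hf N bad (w : ℂ)).re = ∑' p : Nat.Primes, (hterm N bad p (w : ℂ)).re := by
    rw [Hf, Complex.re_tsum hHsum]
  rw [h6, S2, ← tsum_div_const, ← hs4.tsum_add (hs3.div_const 2)]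
  apply tsum_congr
  intro p
  simp only [he, hv]
  ring

end

end Pool.Agent.Helper13.Bsd
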