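import Mathlib
import Pool.Agent.Helper13.Bsd.Main

/-!
# Karamata's method and a one-sided Tauberian theorem
-/

namespace Pool.Agent.Helper13.Bsd

open Filter Topology MeasureTheory Set Polynomial

lemma LapInt_of_bounded {f : ℝ → ℝ} (hfm : Measurable f) {M : ℝ} (hM : ∀ t, 0 < t → |f t| ≤ M)
    {w : ℝ} (hw : 0 < w) : LapInt f w := by
  unfold LapInt
  refine Integrable.mono' ((integrableOn_exp_neg hw).const_mul M) ?_ ?_
  · exact (hfm.mul (by fun_prop)).aestronglyMeasurable
  · rw [ae_restrict_iff' measurableSet_Ioi]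
    filter_upwards with t ht
    rw [norm_mul, Real.norm_eq_abs, Real.norm_eq_abs, Real.abs_exp]
    exact mul_le_mul_of_nonneg_right (hM t ht) (Real.exp_pos _).le

lemma karamata_poly {f : ℝ → ℝ} (hfm : Measurable f) {M : ℝ} (hM : ∀ t, 0 < t → |f t| ≤ M) {c : ℝ}
    (hA : Tendsto (fun w : ℝ => w * ∫ t in Ioi (0 : ℝ), f t * Real.exp (-w * t)) (𝓝[>] 0) (𝓝 c))
    (p : ℝ[X]) :
    Tendsto (fun w : ℝ => w * ∫ t in Ioi (0 : ℝ), f t * (Real.exp (-w * t) * p.eval (Real.exp (-w * t))))
      (𝓝[>] 0) (𝓝 (c * ∫ u in Ioi (0 : ℝ), Real.exp (-1 * u) * p.eval (Real.exp (-1 * u)))) := by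
  have hexpw : ∀ (w t : ℝ), Real.exp (-w * t) * p.eval (Real.exp (-w * t))
      = ∑ i ∈ Finset.range (p.natDegree + 1), p.coeff i * Real.exp (-((i + 1) * w) * t) := by
    intro w t
    rw [eval_eq_sum_range, Finset.mul_sum]
    apply Finset.sum_congr rfl
    intro i _
    have : Real.exp (-((i + 1) * w) * t) = Real.exp (-w * t) * Real.exp (-w * t) ^ i := by
      rw [← Real.exp_nat_mul, ← Real.exp_add]
      congr 1
      ring
    rw [this]
    ring
  have hint : ∀ (i : ℕ) (w : ℝ), 0 < w → LapInt f ((i + 1) * w) := fun i w hw =>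
    LapInt_of_bounded hfm hM (by positivity)
  have hval : ∀ w : ℝ, 0 < w → w * ∫ t in Ioi (0 : ℝ), f t * (Real.exp (-w * t)
      * p.eval (Real.exp (-w * t)))
      = ∑ i ∈ Finset.range (p.natDegree + 1), (p.coeff i / (i + 1)) *
        (((i + 1) * w) * ∫ t in Ioi (0 : ℝ), f t * Real.exp (-((i + 1) * w) * t)) := by
    intro w hw
    have h1 : ∀ t, f t * (Real.exp (-w * t) * p.eval (Real.exp (-w * t)))
        = ∑ i ∈ Finset.range (p.natDegree + 1),
          p.coeff i * (f t * Real.exp (-((i + 1) * w) * t)) := by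
      intro t
      rw [hexpw, Finset.mul_sum]
      apply Finset.sum_congr rfl
      intro i _
      ring
    simp_rw [h1]
    rw [integral_finsetSum _ (fun i _ => Integrable.const_mul (hint i w hw) _), Finset.mul_sum]
    apply Finset.sum_congr rfl
    intro i _
    rw [integral_const_mul]
    field_simp
  have hlimval : c * ∫ u in Ioi (0 : ℝ), Real.exp (-1 * u) * p.eval (Real.exp (-1 * u))
      = ∑ i ∈ Finset.range (p.natDegree + 1), (p.coeff i / (i + 1)) * c := by
    have h1 : ∀ u, Real.exp (-1 * u) * p.eval (Real.exp (-1 * u))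
        = ∑ i ∈ Finset.range (p.natDegree + 1), p.coeff i * Real.exp (-((i + 1) * 1) * u) :=
      fun u => hexpw 1 u
    simp_rw [h1]
    rw [integral_finsetSum _ (fun (i : ℕ) _ =>
      (integrableOn_exp_neg (show (0 : ℝ) < ((i : ℝ) + 1) * 1 by positivity)).const_mul _),
      Finset.mul_sum]
    apply Finset.sum_congr rfl
    intro i _
    rw [integral_const_mul, integral_exp_neg (show (0 : ℝ) < ((i : ℝ) + 1) * 1 by positivity)]
    field_simp
  rw [hlimval]
  have hlim : Tendsto (fun w : ℝ => ∑ i ∈ Finset.range (p.natDegree + 1), (p.coeff i / (i + 1)) *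
        (((i + 1) * w) * ∫ t in Ioi (0 : ℝ), f t * Real.exp (-((i + 1) * w) * t))) (𝓝[>] 0)
      (𝓝 (∑ i ∈ Finset.range (p.natDegree + 1), (p.coeff i / (i + 1)) * c)) := by
    apply tendsto_finsetSum
    intro i _
    apply Tendsto.const_mul
    have h2 : Tendsto (fun w : ℝ => ((i : ℝ) + 1) * w) (𝓝[>] 0) (𝓝[>] 0) := by
      apply tendsto_nhdsWithin_of_tendsto_nhds_of_eventually_within
      · have h3 : Continuous (fun w : ℝ => ((i : ℝ) + 1) * w) := by fun_prop
        have h4 := (h3.tendsto 0).mono_left (nhdsWithin_le_nhds (s := Ioi (0 : ℝ)))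
        simpa using h4
      · filter_upwards [self_mem_nhdsWithin] with w hw
        have : 0 < w := hw
        show 0 < ((i : ℝ) + 1) * w
        positivity
    exact hA.comp h2
  apply hlim.congr'
  filter_upwards [self_mem_nhdsWithin] with w hw
  exact (hval w hw).symm

lemma exp_mem_Icc {w t : ℝ} (hw : 0 < w) (ht : 0 < t) : Real.exp (-w * t) ∈ Icc (0 : ℝ) 1 :=
  ⟨(Real.exp_pos _).le, Real.exp_le_one_iff.mpr (by nlinarith)⟩

lemma karamata_cont {f : ℝ → ℝ} (hfm : Measurable f) {M : ℝ} (hM0 : 0 ≤ M)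
    (hM : ∀ t, 0 < t → |f t| ≤ M) {c : ℝ}
    (hA : Tendsto (fun w : ℝ => w * ∫ t in Ioi (0 : ℝ), f t * Real.exp (-w * t)) (𝓝[>] 0) (𝓝 c))
    (ψ : ℝ → ℝ) (hψ : Continuous ψ) :
    Tendsto (fun w : ℝ => w * ∫ t in Ioi (0 : ℝ), f t * (Real.exp (-w * t) * ψ (Real.exp (-w * t))))
      (𝓝[>] 0) (𝓝 (c * ∫ u in Ioi (0 : ℝ), Real.exp (-1 * u) * ψ (Real.exp (-1 * u)))) := by
  obtain ⟨S, hS⟩ := isCompact_Icc.exists_bound_of_continuousOn (s := Icc (0 : ℝ) 1) hψ.continuousOn
  have hintψ : ∀ w : ℝ, 0 < w → IntegrableOn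
      (fun t => f t * (Real.exp (-w * t) * ψ (Real.exp (-w * t)))) (Ioi 0) := by
    intro w hw
    refine Integrable.mono' ((integrableOn_exp_neg hw).const_mul (M * |S|)) ?_ ?_
    · exact (hfm.mul ((by fun_prop : Measurable fun t : ℝ => Real.exp (-w * t)).mul
        (hψ.measurable.comp (by fun_prop)))).aestronglyMeasurable
    · rw [ae_restrict_iff' measurableSet_Ioi]
      filter_upwards with t ht
      have ht' : 0 < t := ht
      rw [norm_mul, norm_mul, Real.norm_eq_abs, Real.norm_eq_abs (Real.exp _), Real.abs_exp]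
      have h1 := hS _ (exp_mem_Icc hw ht')
      have h2 := hM t ht'
      have h3 : ‖ψ (Real.exp (-w * t))‖ ≤ |S| := h1.trans (le_abs_self S)
      have h4 := Real.exp_pos (-w * t)
      calc |f t| * (Real.exp (-w * t) * ‖ψ (Real.exp (-w * t))‖)
          ≤ M * (Real.exp (-w * t) * |S|) := by gcongr
        _ = _ := by ring
  have hintψ1 : IntegrableOn (fun u => Real.exp (-1 * u) * ψ (Real.exp (-1 * u))) (Ioi 0) := by
    refine Integrable.mono' ((integrableOn_exp_neg one_pos).const_mul |S|) ?_ ?_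
    · exact ((by fun_prop : Measurable fun t : ℝ => Real.exp (-1 * t)).mul
        (hψ.measurable.comp (by fun_prop))).aestronglyMeasurable
    · rw [ae_restrict_iff' measurableSet_Ioi]
      filter_upwards with t ht
      have ht' : 0 < t := ht
      rw [norm_mul, Real.norm_eq_abs (Real.exp _), Real.abs_exp]
      have h1 := hS _ (exp_mem_Icc one_pos ht')
      have h3 : ‖ψ (Real.exp (-1 * t))‖ ≤ |S| := h1.trans (le_abs_self S)
      have h4 := Real.exp_pos (-1 * t)
      nlinarith
  rw [Metric.tendsto_nhds]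
  intro ε hε
  set η := ε / (3 * (M + |c| + 1)) with hη
  have hη0 : 0 < η := by positivity
  obtain ⟨p, hp⟩ := exists_polynomial_near_of_continuousOn 0 1 ψ hψ.continuousOn η hη0
  have hpoly := karamata_poly hfm hM hA p
  have hev := (Metric.tendsto_nhds.mp hpoly) (ε / 3) (by positivity)
  have hpm : Measurable (fun x : ℝ => p.eval x) := p.continuous.measurable
  have hintp : ∀ w : ℝ, 0 < w → IntegrableOn
      (fun t => f t * (Real.exp (-w * t) * p.eval (Real.exp (-w * t)))) (Ioi 0) := by
    intro w hw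
    have h1 : IntegrableOn (fun t => M * |S| * Real.exp (-w * t) + M * η * Real.exp (-w * t)) (Ioi 0) :=
      ((integrableOn_exp_neg hw).const_mul _).add ((integrableOn_exp_neg hw).const_mul _)
    refine Integrable.mono' h1 ?_ ?_
    · exact (hfm.mul ((by fun_prop : Measurable fun t : ℝ => Real.exp (-w * t)).mul
        (hpm.comp (by fun_prop)))).aestronglyMeasurable
    · rw [ae_restrict_iff' measurableSet_Ioi]
      filter_upwards with t ht
      have ht' : 0 < t := ht
      rw [norm_mul, norm_mul, Real.norm_eq_abs, Real.norm_eq_abs (Real.exp _), Real.abs_exp]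
      have h0 := exp_mem_Icc hw ht'
      have h1 := hS _ h0
      have h2 := hM t ht'
      have h5 := hp _ h0
      have h3 : ‖p.eval (Real.exp (-w * t))‖ ≤ |S| + η := by
        have h6 : p.eval (Real.exp (-w * t)) = ψ (Real.exp (-w * t))
            + (p.eval (Real.exp (-w * t)) - ψ (Real.exp (-w * t))) := by ring
        rw [h6]
        refine (norm_add_le _ _).trans ?_
        have h7 : ‖ψ (Real.exp (-w * t))‖ ≤ |S| := h1.trans (le_abs_self S)
        exact add_le_add h7 h5.le
      have h4 := Real.exp_pos (-w * t)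
      calc |f t| * (Real.exp (-w * t) * ‖p.eval (Real.exp (-w * t))‖)
          ≤ M * (Real.exp (-w * t) * (|S| + η)) := by gcongr
        _ = _ := by ring
  have hintp1 : IntegrableOn (fun u => Real.exp (-1 * u) * p.eval (Real.exp (-1 * u))) (Ioi 0) := by
    have h1 : IntegrableOn (fun t => (|S| + η) * Real.exp (-1 * t)) (Ioi 0) :=
      (integrableOn_exp_neg one_pos).const_mul _
    refine Integrable.mono' h1 ?_ ?_
    · exact ((by fun_prop : Measurable fun t : ℝ => Real.exp (-1 * t)).mul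
        (hpm.comp (by fun_prop))).aestronglyMeasurable
    · rw [ae_restrict_iff' measurableSet_Ioi]
      filter_upwards with t ht
      have ht' : 0 < t := ht
      rw [norm_mul, Real.norm_eq_abs (Real.exp _), Real.abs_exp]
      have h0 := exp_mem_Icc one_pos ht'
      have h1 := hS _ h0
      have h5 := hp _ h0
      have h3 : ‖p.eval (Real.exp (-1 * t))‖ ≤ |S| + η := by
        have h6 : p.eval (Real.exp (-1 * t)) = ψ (Real.exp (-1 * t))
            + (p.eval (Real.exp (-1 * t)) - ψ (Real.exp (-1 * t))) := by ring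
        rw [h6]
        refine (norm_add_le _ _).trans ?_
        have h7 : ‖ψ (Real.exp (-1 * t))‖ ≤ |S| := h1.trans (le_abs_self S)
        exact add_le_add h7 h5.le
      have h4 := Real.exp_pos (-1 * t)
      nlinarith
  filter_upwards [hev, self_mem_nhdsWithin] with w h1 hw
  have hw0 : 0 < w := hw
  rw [Real.dist_eq] at h1 ⊢
  -- first error
  have e1 : |w * (∫ t in Ioi (0 : ℝ), f t * (Real.exp (-w * t) * ψ (Real.exp (-w * t))))
      - w * (∫ t in Ioi (0 : ℝ), f t * (Real.exp (-w * t) * p.eval (Real.exp (-w * t))))| ≤ M * η := by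
    rw [← mul_sub, ← integral_sub (hintψ w hw0) (hintp w hw0), abs_mul, abs_of_pos hw0]
    have h2 : |∫ t in Ioi (0 : ℝ), (f t * (Real.exp (-w * t) * ψ (Real.exp (-w * t)))
        - f t * (Real.exp (-w * t) * p.eval (Real.exp (-w * t))))|
        ≤ ∫ t in Ioi (0 : ℝ), M * η * Real.exp (-w * t) := by
      rw [← Real.norm_eq_abs]
      apply norm_integral_le_of_norm_le ((integrableOn_exp_neg hw0).const_mul _)
      rw [ae_restrict_iff' measurableSet_Ioi]
      filter_upwards with t ht
      have ht' : 0 < t := ht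
      have h0 := exp_mem_Icc hw0 ht'
      have h3 : f t * (Real.exp (-w * t) * ψ (Real.exp (-w * t)))
          - f t * (Real.exp (-w * t) * p.eval (Real.exp (-w * t)))
          = -(f t * (Real.exp (-w * t) * (p.eval (Real.exp (-w * t)) - ψ (Real.exp (-w * t))))) := by
        ring
      rw [h3, norm_neg, norm_mul, norm_mul, Real.norm_eq_abs, Real.norm_eq_abs, Real.norm_eq_abs,
        Real.abs_exp]
      have h4 := hM t ht'
      have h5 := (hp _ h0).le
      have h6 := Real.exp_pos (-w * t)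
      calc |f t| * (Real.exp (-w * t) * |p.eval (Real.exp (-w * t)) - ψ (Real.exp (-w * t))|)
          ≤ M * (Real.exp (-w * t) * η) := by gcongr
        _ = _ := by ring
    rw [integral_const_mul, integral_exp_neg hw0] at h2
    calc w * |∫ t in Ioi (0 : ℝ), (f t * (Real.exp (-w * t) * ψ (Real.exp (-w * t)))
        - f t * (Real.exp (-w * t) * p.eval (Real.exp (-w * t))))| ≤ w * (M * η * (1 / w)) := by gcongr
      _ = M * η := by field_simp
  have e2 : |c * (∫ u in Ioi (0 : ℝ), Real.exp (-1 * u) * p.eval (Real.exp (-1 * u)))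
      - c * (∫ u in Ioi (0 : ℝ), Real.exp (-1 * u) * ψ (Real.exp (-1 * u)))| ≤ |c| * η := by
    rw [← mul_sub, ← integral_sub hintp1 hintψ1, abs_mul]
    apply mul_le_mul_of_nonneg_left _ (abs_nonneg c)
    have h2 : |∫ t in Ioi (0 : ℝ), (Real.exp (-1 * t) * p.eval (Real.exp (-1 * t))
        - Real.exp (-1 * t) * ψ (Real.exp (-1 * t)))|
        ≤ ∫ t in Ioi (0 : ℝ), η * Real.exp (-1 * t) := by
      rw [← Real.norm_eq_abs]
      apply norm_integral_le_of_norm_le ((integrableOn_exp_neg one_pos).const_mul _)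
      rw [ae_restrict_iff' measurableSet_Ioi]
      filter_upwards with t ht
      have ht' : 0 < t := ht
      have h0 := exp_mem_Icc one_pos ht'
      rw [← mul_sub, norm_mul, Real.norm_eq_abs, Real.norm_eq_abs, Real.abs_exp]
      have h5 := (hp _ h0).le
      have h6 := Real.exp_pos (-1 * t)
      nlinarith
    rw [integral_const_mul, integral_exp_neg one_pos] at h2
    linarith
  have e3 : M * η + |c| * η ≤ ε / 3 := by
    rw [← add_mul, hη, mul_div_assoc', div_le_div_iff₀ (by positivity) (by norm_num)]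
    nlinarith [abs_nonneg c]
  have h8 := abs_le.mp e1
  have h9 := abs_le.mp e2
  have h10 := abs_lt.mp h1
  have h11 : 0 ≤ M * η := by positivity
  have h12 : 0 ≤ |c| * η := by positivity
  rw [abs_lt]
  constructor <;> linarith

/-- One-sided Tauberian theorem: Abel convergence plus one-sided slow oscillation. -/
theorem tauber_limit {f : ℝ → ℝ} (hfm : Measurable f) {M : ℝ} (hM0 : 0 ≤ M)
    (hM : ∀ t, 0 < t → |f t| ≤ M) {c : ℝ}
    (hA : Tendsto (fun w : ℝ => w * ∫ t in Ioi (0 : ℝ), f t * Real.exp (-w * t)) (𝓝[>] 0) (𝓝 c))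
    (hslow : ∀ ε > 0, ∃ l : ℝ, 1 < l ∧ ∃ t1 : ℝ, 0 < t1 ∧ ∀ t, t1 ≤ t → ∀ t', t ≤ t' → t' ≤ l * t →
      f t' ≤ f t + ε) : Tendsto f atTop (𝓝 c) := by
  rw [Metric.tendsto_nhds]
  intro ε hε
  obtain ⟨l, hl, t1, ht1, hs⟩ := hslow (ε / 3) (by positivity)
  -- the kernel
  set a := Real.exp (-l) with ha
  set b := Real.exp (-1) with hb
  have hab : a < b := by rw [ha, hb, Real.exp_lt_exp]; linarith
  set ψ : ℝ → ℝ := fun x => max 0 ((x - a) * (b - x)) with hψdef
  have hψc : Continuous ψ := by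
    rw [hψdef]
    fun_prop
  have hψ0 : ∀ x, 0 ≤ ψ x := fun x => le_max_left _ _
  have hψsupp : ∀ x, x ∉ Icc a b → ψ x = 0 := by
    intro x hx
    rw [hψdef]
    apply max_eq_left
    rw [mem_Icc, not_and_or, not_le, not_le] at hx
    rcases hx with h | h <;> nlinarith
  set K : ℝ → ℝ := fun u => Real.exp (-1 * u) * ψ (Real.exp (-1 * u)) with hK
  have hK0 : ∀ u, 0 ≤ K u := fun u => mul_nonneg (Real.exp_pos _).le (hψ0 _)
  have hKsupp : ∀ u, u ∉ Icc 1 l → K u = 0 := by
    intro u hu
    rw [hK]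
    simp only
    rw [hψsupp _ _, mul_zero]
    intro h
    apply hu
    rw [mem_Icc, ha, hb, Real.exp_le_exp, Real.exp_le_exp] at h
    constructor <;> linarith [h.1, h.2]
  have hKc : Continuous K := by
    rw [hK]
    exact (by fun_prop : Continuous fun u : ℝ => Real.exp (-1 * u)).mul
      (hψc.comp (by fun_prop))
  have hKint : IntegrableOn K (Ioi 0) := by
    have h1 : IntegrableOn K (Icc 1 l) := hKc.continuousOn.integrableOn_compact isCompact_Icc
    have h2 : Integrable K := by
      rw [← integrableOn_univ]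
      refine h1.of_forall_sdiff_eq_zero MeasurableSet.univ ?_
      intro x hx
      exact hKsupp x hx.2
    exact h2.integrableOn
  set I := ∫ u in Ioi (0 : ℝ), K u with hI
  have hIpos : 0 < I := by
    rw [hI]
    have h1 : ∫ u in (1 : ℝ)..l, K u ≤ ∫ u in Ioi (0 : ℝ), K u := by
      rw [intervalIntegral.integral_of_le hl.le]
      apply setIntegral_mono_set hKint
      · filter_upwards with u using hK0 u
      · apply LE.le.eventuallyLE
        intro u hu
        exact lt_trans one_pos hu.1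
    refine lt_of_lt_of_le ?_ h1
    apply intervalIntegral.intervalIntegral_pos_of_pos_on (hKc.intervalIntegrable _ _) _ hl
    intro u hu
    rw [hK]
    apply mul_pos (Real.exp_pos _)
    rw [hψdef]
    apply lt_max_of_lt_right
    apply mul_pos
    · rw [sub_pos, ha, Real.exp_lt_exp]; linarith [hu.2]
    · rw [sub_pos, hb, Real.exp_lt_exp]; linarith [hu.1]
  have hkar := karamata_cont hfm hM0 hM hA ψ hψc
  -- w -> 1/T
  have hTlim : Tendsto (fun T : ℝ => T⁻¹) atTop (𝓝[>] 0) := tendsto_inv_atTop_nhdsGT_zero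
  have hkarT := hkar.comp hTlim
  have hev := (Metric.tendsto_nhds.mp hkarT) (ε / 3 * I) (by positivity)
  obtain ⟨T2, hT2⟩ := eventually_atTop.mp hev
  have hscale : ∀ T : ℝ, 0 < T → ∫ t in Ioi (0 : ℝ), K (T⁻¹ * t) = T * I := by
    intro T hT
    have h1 := integral_comp_mul_left_Ioi K 0 (inv_pos.mpr hT)
    rw [mul_zero, inv_inv, smul_eq_mul] at h1
    exact h1
  have hKTint : ∀ T : ℝ, 0 < T → IntegrableOn (fun t => K (T⁻¹ * t)) (Ioi 0) := by
    intro T hT
    have h1 := (integrableOn_Ioi_comp_mul_left_iff K 0 (inv_pos.mpr hT)).mpr (by simpa using hKint)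
    exact h1
  have hfKint : ∀ T : ℝ, 0 < T → IntegrableOn (fun t => f t * K (T⁻¹ * t)) (Ioi 0) := by
    intro T hT
    refine Integrable.mono' ((hKTint T hT).const_mul M) ?_ ?_
    · exact (hfm.mul (hKc.measurable.comp (by fun_prop))).aestronglyMeasurable
    · rw [ae_restrict_iff' measurableSet_Ioi]
      filter_upwards with t ht
      rw [norm_mul, Real.norm_eq_abs, Real.norm_eq_abs, abs_of_nonneg (hK0 _)]
      exact mul_le_mul_of_nonneg_right (hM t ht) (hK0 _)
  have havg : ∀ T, T2 ≤ T → 0 < T →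
      |T⁻¹ * (∫ t in Ioi (0 : ℝ), f t * K (T⁻¹ * t)) - c * I| < ε / 3 * I := by
    intro T hT hT0
    have h1 := hT2 T hT
    simp only [Function.comp, Real.dist_eq] at h1
    have h2 : ∀ t, f t * K (T⁻¹ * t)
        = f t * (Real.exp (-T⁻¹ * t) * ψ (Real.exp (-T⁻¹ * t))) := by
      intro t
      simp only [hK]
      have : -1 * (T⁻¹ * t) = -T⁻¹ * t := by ring
      rw [this]
    simp_rw [h2]
    exact h1
  -- support facts
  have hsuppT : ∀ T t : ℝ, 0 < T → K (T⁻¹ * t) ≠ 0 → T ≤ t ∧ t ≤ l * T := by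
    intro T t hT h
    have h1 : T⁻¹ * t ∈ Icc 1 l := by
      by_contra h2
      exact h (hKsupp _ h2)
    rw [mem_Icc, inv_mul_eq_div, le_div_iff₀ hT, div_le_iff₀ hT] at h1
    constructor <;> linarith [h1.1, h1.2]
  have hlow : ∀ T, max T2 t1 ≤ T → c - ε < f T := by
    intro T hT
    have hT2' : T2 ≤ T := (le_max_left _ _).trans hT
    have hT1' : t1 ≤ T := (le_max_right _ _).trans hT
    have hT0 : 0 < T := ht1.trans_le hT1'
    have h1 := (abs_lt.mp (havg T hT2' hT0)).1
    have h2 : ∫ t in Ioi (0 : ℝ), f t * K (T⁻¹ * t) ≤ ∫ t in Ioi (0 : ℝ), (f T + ε / 3) * K (T⁻¹ * t) := by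
      apply setIntegral_mono_on (hfKint T hT0) ((hKTint T hT0).const_mul _) measurableSet_Ioi
      intro t _
      by_cases h3 : K (T⁻¹ * t) = 0
      · rw [h3]; simp
      · obtain ⟨h4, h5⟩ := hsuppT T t hT0 h3
        exact mul_le_mul_of_nonneg_right (hs T hT1' t h4 h5) (hK0 _)
    rw [integral_const_mul, hscale T hT0] at h2
    have h6 := mul_le_mul_of_nonneg_left h2 (inv_pos.mpr hT0).le
    have h7 : T⁻¹ * ((f T + ε / 3) * (T * I)) = (f T + ε / 3) * I := by field_simp
    rw [h7] at h6
    have h8 : (c - 2 * (ε / 3)) * I < f T * I := by nlinarith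
    have h9 := lt_of_mul_lt_mul_right h8 hIpos.le
    linarith
  have hupp : ∀ T, l * max T2 t1 ≤ T → f T < c + ε := by
    intro T hT
    set s := T / l with hsdef
    have hl0 : 0 < l := by linarith
    have hs1 : max T2 t1 ≤ s := by rw [hsdef, le_div_iff₀ hl0]; linarith
    have hT2' : T2 ≤ s := (le_max_left _ _).trans hs1
    have hT1' : t1 ≤ s := (le_max_right _ _).trans hs1
    have hs0 : 0 < s := ht1.trans_le hT1'
    have hls : l * s = T := by rw [hsdef]; field_simp
    have h1 := (abs_lt.mp (havg s hT2' hs0)).2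
    have h2 : ∫ t in Ioi (0 : ℝ), (f T - ε / 3) * K (s⁻¹ * t) ≤ ∫ t in Ioi (0 : ℝ), f t * K (s⁻¹ * t) := by
      apply setIntegral_mono_on ((hKTint s hs0).const_mul _) (hfKint s hs0) measurableSet_Ioi
      intro t _
      by_cases h3 : K (s⁻¹ * t) = 0
      · rw [h3]; simp
      · obtain ⟨h4, h5⟩ := hsuppT s t hs0 h3
        apply mul_le_mul_of_nonneg_right _ (hK0 _)
        have h6 : t ≤ T := by rw [← hls]; exact h5
        have h7 : T ≤ l * t := by rw [← hls]; nlinarith
        have := hs t (hT1'.trans h4) T h6 h7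
        linarith
    rw [integral_const_mul, hscale s hs0] at h2
    have h6 := mul_le_mul_of_nonneg_left h2 (inv_pos.mpr hs0).le
    have h7 : s⁻¹ * ((f T - ε / 3) * (s * I)) = (f T - ε / 3) * I := by field_simp
    rw [h7] at h6
    have h8 : f T * I < (c + 2 * (ε / 3)) * I := by nlinarith
    have h9 := lt_of_mul_lt_mul_right h8 hIpos.le
    linarith
  filter_upwards [eventually_ge_atTop (max T2 t1), eventually_ge_atTop (l * max T2 t1)] with T h1 h2
  rw [Real.dist_eq, abs_lt]
  constructor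
  · linarith [hlow T h1]
  · linarith [hupp T h2]

end Pool.Agent.Helper13.Bsd
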