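import Mathlib
import Pool.Agent.Helper13.Bsd.HLimit
import Pool.Agent.Helper13.Bsd.Tauber
import Pool.Agent.Helper13.Bsd.Doubling

/-!
# The Tauberian characterisation of the asymptotic
-/

namespace Pool.Agent.Helper13.Bsd

open Complex Filter Topology MeasureTheory Set

section

variable (N : ℕ → ℕ) (bad : ℕ → Prop) [DecidablePred bad]

theorem abel_LL_limit (F : ℂ → ℂ) (hFd : Differentiable ℂ F) (hN : ∀ p : ℕ, p.Prime → 1 ≤ N p)
    (hH : ∀ p : ℕ, p.Prime → |(p : ℝ) + 1 - N p| ≤ 14 * Real.sqrt p)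
    (hF : ∀ s : ℂ, 3 / 2 < s.re → HasProd (fun p : Nat.Primes =>
      if bad (p : ℕ) then (1 : ℂ)
      else (1 - (((p : ℕ) : ℂ) + 1 - ((N (p : ℕ) : ℕ) : ℂ)) * ((p : ℕ) : ℂ) ^ (-s)
              + ((p : ℕ) : ℂ) ^ (1 - 2 * s))⁻¹) (F s))
    (hint : ∀ x, 0 < x → LapInt (LL N bad) x) :
    ∃ κ : ℝ, Tendsto (fun w : ℝ => w * (∫ t in Ioi (0 : ℝ), LL N bad t * Real.exp (-w * t))
        - (analyticOrderNatAt F 1) * Real.log (1 / w) - (Hf N bad (w : ℂ)).re) (𝓝[>] 0) (𝓝 κ) := by
  have hid := key_identity N bad F hFd hN hH hF 0 le_rfl hint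
  set r := analyticOrderNatAt F 1 with hr
  have hGd := differentiable_Gf N bad F hFd
  have hFan : AnalyticAt ℂ F 1 := hFd.analyticAt 1
  have hnormG : ∀ x : ℝ, 0 < x → ‖Gf N bad F (x : ℂ)‖
      = Real.exp ((Hf N bad (x : ℂ) + D0 N bad (x : ℂ)).re
        - x * ∫ t in Ioi (0 : ℝ), LL N bad t * Real.exp (-x * t)) := by
    intro x hx
    rw [hid (x : ℂ) (by rw [ofReal_re]; exact hx), norm_exp, re_Lap_ofReal]
    congr 1
    rw [sub_re, ← ofReal_mul, ofReal_re]
  have hFne : ∀ x : ℝ, 0 < x → F (1 + x) ≠ 0 := by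
    intro x hx h0
    have h1 := hnormG x hx
    rw [Gf, h0, zero_mul, norm_zero] at h1
    exact absurd h1.symm (Real.exp_pos _).ne'
  have htend : Tendsto (fun x : ℝ => (1 : ℂ) + x) (𝓝[>] 0) (𝓝 1) := by
    have h1 : Tendsto (fun x : ℝ => (x : ℂ)) (𝓝[>] 0) (𝓝 ((0 : ℝ) : ℂ)) :=
      (continuous_ofReal.tendsto 0).mono_left nhdsWithin_le_nhds
    have h2 := h1.const_add (1 : ℂ)
    simpa using h2
  have hord : analyticOrderAt F 1 ≠ ⊤ := by
    intro h
    rw [analyticOrderAt_eq_top] at h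
    have h1 := htend.eventually h
    have h2 : ∀ᶠ x : ℝ in 𝓝[>] 0, (0 : ℝ) < x := self_mem_nhdsWithin
    obtain ⟨x, hx1, hx2⟩ := (h1.and h2).exists
    exact hFne x hx2 hx1
  obtain ⟨g, hga, hg0, hgeq⟩ := hFan.analyticOrderAt_ne_top.mp hord
  set Pr : ℂ → ℂ := fun w => ∏ p ∈ smallP, if bad p then 1 else 1 - zz N p w with hPr
  have hPrd : Continuous Pr := by
    rw [hPr]
    apply continuous_finsetProd
    intro p _
    split_ifs
    · exact continuous_const
    · exact continuous_const.sub (differentiable_zz N p p.2).continuous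
  have hPr0 : Pr 0 ≠ 0 := by
    rw [hPr]
    apply Finset.prod_ne_zero_iff.mpr
    intro p _
    split_ifs
    · exact one_ne_zero
    · have := one_sub_zz_ne_zero N hN p p.2 0 le_rfl
      simpa using this
  set Q : ℝ → ℝ := fun x => ‖g (1 + x) * Pr x‖ with hQ
  have hofReal : Tendsto (fun x : ℝ => (x : ℂ)) (𝓝[>] 0) (𝓝 ((0 : ℝ) : ℂ)) :=
    (continuous_ofReal.tendsto 0).mono_left nhdsWithin_le_nhds
  have hQlim : Tendsto Q (𝓝[>] 0) (𝓝 ‖g 1 * Pr 0‖) := by
    apply Tendsto.norm
    apply Tendsto.mul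
    · exact hga.continuousAt.tendsto.comp htend
    · have h2 := (hPrd.tendsto ((0 : ℝ) : ℂ)).comp hofReal
      rw [ofReal_zero] at h2
      exact h2
  have hq0 : 0 < ‖g 1 * Pr 0‖ := norm_pos_iff.mpr (mul_ne_zero hg0 hPr0)
  set q0 := ‖g 1 * Pr 0‖ with hq0def
  have hlogQ : Tendsto (fun x => Real.log (Q x)) (𝓝[>] 0) (𝓝 (Real.log q0)) :=
    (Real.continuousAt_log hq0.ne').tendsto.comp hQlim
  have hGeq : ∀ᶠ x : ℝ in 𝓝[>] 0, ‖Gf N bad F (x : ℂ)‖ = x ^ r * Q x := by
    have h1 := htend.eventually hgeq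
    have h2 : ∀ᶠ x : ℝ in 𝓝[>] 0, (0 : ℝ) < x := self_mem_nhdsWithin
    filter_upwards [h1, h2] with x hx1 hx2
    rw [Gf, hx1, hQ]
    have e : (1 : ℂ) + x - 1 = x := by ring
    rw [e, smul_eq_mul]
    simp only [hPr, norm_mul, norm_pow, norm_real, Real.norm_eq_abs, abs_of_pos hx2]
    ring
  have hD0c : Tendsto (fun x : ℝ => (D0 N bad (x : ℂ)).re) (𝓝[>] 0) (𝓝 (D0 N bad ((0 : ℝ) : ℂ)).re) :=
    (continuous_re.tendsto _).comp
      (((differentiable_D0 N bad).continuous.tendsto _).comp hofReal)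
  have hQpos : ∀ᶠ x : ℝ in 𝓝[>] 0, 0 < Q x := hQlim.eventually (lt_mem_nhds hq0)
  refine ⟨(D0 N bad ((0 : ℝ) : ℂ)).re - Real.log q0, ?_⟩
  apply (hD0c.sub hlogQ).congr'
  filter_upwards [hGeq, hQpos, self_mem_nhdsWithin] with w hw2 hw3 hw4
  have hw0 : 0 < w := hw4
  have h4 := hnormG w hw0
  rw [hw2] at h4
  have h5 : Real.log (w ^ r * Q w) = (Hf N bad (w : ℂ) + D0 N bad (w : ℂ)).re
      - w * ∫ t in Ioi (0 : ℝ), LL N bad t * Real.exp (-w * t) := by
    rw [h4, Real.log_exp]
  rw [Real.log_mul (by positivity) hw3.ne', Real.log_pow, add_re] at h5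
  have h6 : Real.log (1 / w) = -Real.log w := by rw [one_div, Real.log_inv]
  rw [h6]
  linarith

theorem abel_fn_limit (F : ℂ → ℂ) (hFd : Differentiable ℂ F) (hN : ∀ p : ℕ, p.Prime → 1 ≤ N p)
    (hH : ∀ p : ℕ, p.Prime → |(p : ℝ) + 1 - N p| ≤ 14 * Real.sqrt p)
    (hF : ∀ s : ℂ, 3 / 2 < s.re → HasProd (fun p : Nat.Primes =>
      if bad (p : ℕ) then (1 : ℂ)
      else (1 - (((p : ℕ) : ℂ) + 1 - ((N (p : ℕ) : ℕ) : ℂ)) * ((p : ℕ) : ℂ) ^ (-s)
              + ((p : ℕ) : ℂ) ^ (1 - 2 * s))⁻¹) (F s))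
    (hfin : {p : Nat.Primes | bad p}.Finite)
    (hint : ∀ x, 0 < x → LapInt (LL N bad) x) :
    ∃ κ : ℝ, Tendsto (fun w : ℝ =>
      w * (∫ t in Ioi (0 : ℝ), fn N bad (analyticOrderNatAt F 1) t * Real.exp (-w * t))
        + S2 N bad w / 2) (𝓝[>] 0) (𝓝 κ) := by
  obtain ⟨κ1, h1⟩ := abel_LL_limit N bad F hFd hN hH hF hint
  obtain ⟨κ2, h2⟩ := H_add_S2_limit N bad hH hfin
  obtain ⟨γ0, h3⟩ := lg_limit
  refine ⟨κ1 + κ2 - (analyticOrderNatAt F 1) * γ0, ?_⟩
  apply ((h1.add h2).sub (h3.const_mul (analyticOrderNatAt F 1 : ℝ))).congr'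
  filter_upwards [self_mem_nhdsWithin] with w hw
  have hw0 : 0 < w := hw
  have h4 : ∫ t in Ioi (0 : ℝ), fn N bad (analyticOrderNatAt F 1) t * Real.exp (-w * t)
      = (∫ t in Ioi (0 : ℝ), LL N bad t * Real.exp (-w * t))
        - (analyticOrderNatAt F 1) * ∫ t in Ioi (0 : ℝ), lg t * Real.exp (-w * t) := by
    rw [← integral_const_mul, ← integral_sub (hint w hw0)]
    · congr 1
      funext t
      rw [fn]
      ring
    · exact Integrable.const_mul (LapInt_lg hw0) _
  rw [h4]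
  ring

end

/-- Abelian theorem. -/
lemma abelian {f : ℝ → ℝ} (hfm : Measurable f) {M : ℝ} (hM : ∀ t, 0 < t → |f t| ≤ M) {c : ℝ}
    (hc : Tendsto f atTop (𝓝 c)) :
    Tendsto (fun w : ℝ => w * ∫ t in Ioi (0 : ℝ), f t * Real.exp (-w * t)) (𝓝[>] 0) (𝓝 c) := by
  have hint : ∀ x, 0 < x → LapInt f x := fun x hx => LapInt_of_bounded hfm hM hx
  have hintneg : ∀ x, 0 < x → LapInt (fun t => -f t) x := fun x hx =>
    LapInt_of_bounded (f := fun t => -f t) hfm.neg (M := M)
      (fun t ht => by rw [abs_neg]; exact hM t ht) hx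
  rw [Metric.tendsto_nhds]
  intro ε hε
  obtain ⟨t1, ht1⟩ := eventually_atTop.mp ((Metric.tendsto_nhds.mp hc) (ε / 2) (by positivity))
  obtain ⟨M1, hM10, h1⟩ := abel_upper hfm hint (c + ε / 2) t1 (by
    intro t ht
    have := (abs_lt.mp (ht1 t ht.le)).2
    linarith)
  obtain ⟨M2, hM20, h2⟩ := abel_upper (f := fun t => -f t) hfm.neg hintneg (-c + ε / 2) t1 (by
    intro t ht
    have := (abs_lt.mp (ht1 t ht.le)).1
    linarith)
  have hev : ∀ᶠ w : ℝ in 𝓝[>] 0, w < ε / (2 * (M1 + M2 + 1)) :=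
    (gt_mem_nhds (by positivity) : ∀ᶠ x : ℝ in 𝓝 0, x < ε / (2 * (M1 + M2 + 1))).filter_mono
      nhdsWithin_le_nhds
  filter_upwards [hev, self_mem_nhdsWithin] with w hw hw0
  have hw0' : 0 < w := hw0
  have h3 := h1 w hw0'
  have h4 := h2 w hw0'
  rw [lt_div_iff₀ (by positivity)] at hw
  have h5 : w * M1 < ε / 2 := by nlinarith
  have h6 : w * M2 < ε / 2 := by nlinarith
  have h7 : w * (∫ t in Ioi (0 : ℝ), -f t * Real.exp (-w * t))
      = -(w * ∫ t in Ioi (0 : ℝ), f t * Real.exp (-w * t)) := by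
    have : ∀ t, -f t * Real.exp (-w * t) = -(f t * Real.exp (-w * t)) := by intro t; ring
    simp_rw [this]
    rw [integral_neg]
    ring
  rw [h7] at h4
  rw [Real.dist_eq, abs_lt]
  constructor <;> linarith

section

variable (W : WeierstrassCurve ℤ) (N : ℕ → ℕ)
    (hNdef : ∀ p : ℕ, N p = 1 + ((Finset.range p ×ˢ Finset.range p).filter
      (fun q : ℕ × ℕ => (p : ℤ) ∣ ((q.2 : ℤ) ^ 2 + W.a₁ * (q.1 : ℤ) * (q.2 : ℤ) + W.a₃ * (q.2 : ℤ)
        - ((q.1 : ℤ) ^ 3 + W.a₂ * (q.1 : ℤ) ^ 2 + W.a₄ * (q.1 : ℤ) + W.a₆)))).card)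

lemma finite_bad (hΔ : W.Δ ≠ 0) : {p : Nat.Primes | badW W p}.Finite := by
  have hinj : Function.Injective (fun p : Nat.Primes => (p : ℕ)) := Subtype.coe_injective
  have h1 : {p : ℕ | (p : ℤ) ∣ W.Δ}.Finite := by
    apply (Set.finite_Iic W.Δ.natAbs).subset
    intro p hp
    have h2 : p ∣ W.Δ.natAbs := Int.natCast_dvd.mp hp
    exact Nat.le_of_dvd (Int.natAbs_pos.mpr hΔ) h2
  exact Set.Finite.preimage (s := {p : ℕ | (p : ℤ) ∣ W.Δ}) (f := fun p : Nat.Primes => (p : ℕ))
    hinj.injOn h1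

include hNdef in
/-- Equivalence on the level of `f`. -/
theorem fn_tendsto_iff (hΔ : W.Δ ≠ 0) (F : ℂ → ℂ) (hFd : Differentiable ℂ F)
    (hF : EulerHyp W N F) :
    (∃ c, Tendsto (fn N (badW W) (analyticOrderNatAt F 1)) atTop (𝓝 c)) ↔
    ((∀ ε > 0, ∃ l : ℝ, 1 < l ∧ ∃ t1 : ℝ, 0 < t1 ∧ ∀ t, t1 ≤ t → ∀ t', t ≤ t' → t' ≤ l * t →
      LL N (badW W) t' ≤ LL N (badW W) t + ε) ∧
      ∃ s, Tendsto (S2 N (badW W)) (𝓝[>] 0) (𝓝 s)) := by
  have hN := hN_of W N hNdef
  have hH := ap_bound W N hNdef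
  set r := analyticOrderNatAt F 1 with hr
  have hfm := measurable_fn N (badW W) r
  constructor
  · rintro ⟨c, hc⟩
    constructor
    · intro ε hε
      set η := ε / 3 with hη
      have hη0 : 0 < η := by positivity
      obtain ⟨t1, ht1⟩ := eventually_atTop.mp ((Metric.tendsto_nhds.mp hc) η hη0)
      refine ⟨Real.exp (η / (r + 1)), Real.one_lt_exp_iff.mpr (by positivity), max t1 1,
        by positivity, ?_⟩
      intro t ht t' h1 h2
      have ht1' : t1 ≤ t := (le_max_left _ _).trans ht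
      have ht01 : 1 ≤ t := (le_max_right _ _).trans ht
      have ht0 : 0 < t := by linarith
      have ht'0 : 0 < t' := by linarith
      have a1 := abs_lt.mp (ht1 t ht1')
      have a2 := abs_lt.mp (ht1 t' (ht1'.trans h1))
      have h3 : Real.log t' ≤ η / (r + 1) + Real.log t := by
        have := Real.log_le_log ht'0 h2
        rwa [Real.log_mul (Real.exp_pos _).ne' ht0.ne', Real.log_exp] at this
      rw [fn, lg_of_one_le ht01] at a1
      rw [fn, lg_of_one_le (ht01.trans h1)] at a2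
      have h4 : (r : ℝ) * (Real.log t' - Real.log t) ≤ η := by
        have h5 : (r : ℝ) * (Real.log t' - Real.log t) ≤ r * (η / (r + 1)) :=
          mul_le_mul_of_nonneg_left (by linarith) (Nat.cast_nonneg r)
        refine h5.trans ?_
        rw [mul_div_assoc', div_le_iff₀ (by positivity)]
        nlinarith
      linarith [a1.1, a1.2, a2.1, a2.2]
    · -- f is bounded
      obtain ⟨t1, ht1⟩ := eventually_atTop.mp ((Metric.tendsto_nhds.mp hc) 1 one_pos)
      obtain ⟨B, hB⟩ := fn_loc W N hNdef r t1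
      have hM : ∀ t, 0 < t → |fn N (badW W) r t| ≤ max B (|c| + 1) := by
        intro t ht
        by_cases h1 : t ≤ t1
        · exact (hB t ht h1).trans (le_max_left _ _)
        · push Not at h1
          have h2 := ht1 t h1.le
          rw [Real.dist_eq] at h2
          have h3 : |fn N (badW W) r t| ≤ |c| + 1 := by
            have : fn N (badW W) r t = c + (fn N (badW W) r t - c) := by ring
            rw [this]
            exact (abs_add_le _ _).trans (by linarith)
          exact h3.trans (le_max_right _ _)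
      have hfi : ∀ x, 0 < x → LapInt (fn N (badW W) r) x := fun x hx =>
        LapInt_of_bounded hfm hM hx
      have hint : ∀ x, 0 < x → LapInt (LL N (badW W)) x := by
        intro x hx
        have h1 := (hfi x hx).sub ((LapInt_lg hx).const_mul (-(r : ℝ)))
        have h2 : (fun t => fn N (badW W) r t - (-(r : ℝ)) * lg t) = LL N (badW W) := by
          funext t
          rw [fn]
          ring
        rwa [h2] at h1
      obtain ⟨κ, hκ⟩ := abel_fn_limit N (badW W) F hFd hN hH hF (finite_bad W hΔ) hint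
      rw [← hr] at hκ
      have hab := abelian hfm hM hc
      refine ⟨2 * (κ - c), ?_⟩
      apply ((hκ.sub hab).const_mul 2).congr
      intro w
      ring
  · rintro ⟨hslow, s, hs⟩
    -- bounded via doubling
    obtain ⟨l, hl, t1, ht1, h1⟩ := hslow 1 one_pos
    have hiter : ∀ n : ℕ, ∀ t, t1 ≤ t → ∀ t', t ≤ t' → t' ≤ l ^ n * t →
        LL N (badW W) t' ≤ LL N (badW W) t + n * 1 := by
      intro n
      induction n with
      | zero =>
        intro t _ t' h2 h3
        have : t' = t := le_antisymm (by simpa using h3) h2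
        rw [this]
        simp
      | succ n ih =>
        intro t ht t' h2 h3
        have ht0 : 0 < t := ht1.trans_le ht
        have hl0 : 0 < l := by linarith
        set m := max t (t' / l) with hm
        have h4 : t ≤ m := le_max_left _ _
        have h5 : m ≤ l ^ n * t := by
          apply max_le
          · have : (1 : ℝ) ≤ l ^ n := one_le_pow₀ hl.le
            nlinarith
          · rw [div_le_iff₀ hl0]
            rw [pow_succ] at h3
            linarith
        have h6 := ih t ht m h4 h5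
        have h7 : m ≤ t' := by
          apply max_le h2
          rw [div_le_iff₀ hl0]
          nlinarith
        have h8 : t' ≤ l * m := by
          have : t' / l ≤ m := le_max_right _ _
          rw [div_le_iff₀ hl0] at this
          linarith
        have h9 := h1 m (ht.trans h4) t' h7 h8
        push_cast
        linarith
    obtain ⟨n, hn⟩ := pow_unbounded_of_one_lt 2 hl
    have hdoub : ∀ t, t1 ≤ t → ∀ t', t ≤ t' → t' ≤ 2 * t →
        LL N (badW W) t' ≤ LL N (badW W) t + n := by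
      intro t ht t' h2 h3
      have := hiter n t ht t' h2 (h3.trans (by nlinarith))
      linarith
    obtain ⟨hint, B, hB⟩ := fn_bounded_of_doubling W N hNdef F hFd hF t1 n ht1
      (Nat.cast_nonneg n) hdoub
    rw [← hr] at hB
    obtain ⟨B1, hB1⟩ := fn_loc W N hNdef r t1
    have hM : ∀ t, 0 < t → |fn N (badW W) r t| ≤ max (max B B1) 0 := by
      intro t ht
      by_cases h2 : t ≤ t1
      · exact (hB1 t ht h2).trans ((le_max_right _ _).trans (le_max_left _ _))
      · push Not at h2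
        exact (hB t h2.le).trans ((le_max_left _ _).trans (le_max_left _ _))
    obtain ⟨κ, hκ⟩ := abel_fn_limit N (badW W) F hFd hN hH hF (finite_bad W hΔ) hint
    rw [← hr] at hκ
    refine ⟨κ - s / 2, ?_⟩
    apply tauber_limit hfm (le_max_right _ _) hM
    · apply (hκ.sub (hs.div_const 2)).congr
      intro w
      ring
    · intro ε hε
      obtain ⟨l', hl', t2, ht2, h2⟩ := hslow ε hε
      refine ⟨l', hl', t2, ht2, ?_⟩
      intro t ht t' h3 h4
      have h5 := h2 t ht t' h3 h4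
      have h6 : (r : ℝ) * lg t ≤ r * lg t' :=
        mul_le_mul_of_nonneg_left (lg_mono h3) (Nat.cast_nonneg r)
      rw [fn, fn]
      linarith

include hNdef in
lemma PE_pos (x : ℝ) : 0 < PE W N x := by
  unfold PE
  apply Finset.prod_pos
  intro p hp
  rw [Finset.mem_filter] at hp
  have hN1 : (1 : ℝ) ≤ N p := by exact_mod_cast hN_of W N hNdef p hp.2.1
  have hp0 : (0 : ℝ) < p := by exact_mod_cast hp.2.1.pos
  positivity

include hNdef in
lemma isEquivalent_iff (r : ℕ) :
    (∃ C : ℝ, C ≠ 0 ∧ Asymptotics.IsEquivalent atTop (PE W N)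
      (fun x : ℝ => C * Real.log x ^ r)) ↔
    ∃ c, Tendsto (fn N (badW W) r) atTop (𝓝 c) := by
  have hlogtend := Real.tendsto_log_atTop
  have hexptend := Real.tendsto_exp_atTop
  have hratio : ∀ t : ℝ, 1 ≤ t → PE W N (Real.exp t) / (Real.log (Real.exp t)) ^ r
      = Real.exp (fn N (badW W) r t) := by
    intro t ht
    rw [PE_exp W N hNdef, Real.log_exp, fn, lg_of_one_le ht, Real.exp_sub, ← Real.log_pow,
      Real.exp_log (by positivity)]
  constructor
  · rintro ⟨C, hC, h⟩
    have hne : ∀ᶠ x : ℝ in atTop, C * Real.log x ^ r ≠ 0 := by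
      filter_upwards [eventually_gt_atTop 1] with x hx
      have := Real.log_pos hx
      exact mul_ne_zero hC (by positivity)
    rw [Asymptotics.isEquivalent_iff_tendsto_one hne] at h
    have h1 : Tendsto (fun x : ℝ => PE W N x / Real.log x ^ r) atTop (𝓝 C) := by
      have h2 := h.const_mul C
      rw [mul_one] at h2
      apply h2.congr'
      filter_upwards [eventually_gt_atTop 1] with x hx
      have := Real.log_pos hx
      simp only [Pi.div_apply]
      field_simp
    have h3 : Tendsto (fun t : ℝ => Real.exp (fn N (badW W) r t)) atTop (𝓝 C) := by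
      apply (h1.comp hexptend).congr'
      filter_upwards [eventually_ge_atTop 1] with t ht
      exact hratio t ht
    have hC0 : 0 ≤ C := ge_of_tendsto' h3 fun t => (Real.exp_pos _).le
    have hCpos : 0 < C := lt_of_le_of_ne hC0 (Ne.symm hC)
    refine ⟨Real.log C, ?_⟩
    have h4 := (Real.continuousAt_log hC).tendsto.comp h3
    apply h4.congr
    intro t
    simp only [Function.comp, Real.log_exp]
  · rintro ⟨c, hc⟩
    refine ⟨Real.exp c, (Real.exp_pos _).ne', ?_⟩
    have hne : ∀ᶠ x : ℝ in atTop, Real.exp c * Real.log x ^ r ≠ 0 := by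
      filter_upwards [eventually_gt_atTop 1] with x hx
      have := Real.log_pos hx
      positivity
    rw [Asymptotics.isEquivalent_iff_tendsto_one hne]
    have h1 : Tendsto (fun x : ℝ => Real.exp (fn N (badW W) r (Real.log x) - c)) atTop (𝓝 1) := by
      have h2 := (hc.comp hlogtend).sub_const c
      rw [sub_self] at h2
      have h3 := (Real.continuous_exp.tendsto 0).comp h2
      rw [Real.exp_zero] at h3
      exact h3
    apply h1.congr'
    filter_upwards [eventually_ge_atTop (Real.exp 1)] with x hx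
    have hx0 : 0 < x := (Real.exp_pos _).trans_le hx
    have hlx : 1 ≤ Real.log x := by rwa [Real.le_log_iff_exp_le hx0]
    have h4 := hratio (Real.log x) hlx
    rw [Real.exp_log hx0] at h4
    rw [Real.exp_sub, ← h4]
    simp only [Pi.div_apply]
    have hlx0 : 0 < Real.log x := by linarith
    field_simp

include hNdef in
lemma slow_iff :
    (∀ ε : ℝ, 0 < ε → ∃ l X : ℝ, 1 < l ∧ ∀ x y : ℝ, X ≤ x → x ≤ y → y ≤ x ^ l →
      PE W N y ≤ (1 + ε) * PE W N x) ↔
    (∀ ε > 0, ∃ l : ℝ, 1 < l ∧ ∃ t1 : ℝ, 0 < t1 ∧ ∀ t, t1 ≤ t → ∀ t', t ≤ t' → t' ≤ l * t →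
      LL N (badW W) t' ≤ LL N (badW W) t + ε) := by
  constructor
  · intro h ε hε
    have hε' : 0 < Real.exp ε - 1 := by
      have := Real.add_one_le_exp ε
      linarith
    obtain ⟨l, X, hl, h1⟩ := h (Real.exp ε - 1) hε'
    refine ⟨l, hl, Real.log (max X (Real.exp 1)), ?_, ?_⟩
    · apply Real.log_pos
      exact lt_of_lt_of_le (by have := Real.add_one_le_exp (1 : ℝ); linarith) (le_max_right _ _)
    · intro t ht t' h2 h3
      have hX : X ≤ Real.exp t := by
        rw [Real.log_le_iff_le_exp (by positivity)] at ht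
        exact (le_max_left _ _).trans ht
      have h4 := h1 (Real.exp t) (Real.exp t') hX (Real.exp_le_exp.mpr h2) (by
        rw [← Real.exp_mul]
        apply Real.exp_le_exp.mpr
        linarith)
      rw [PE_exp W N hNdef, PE_exp W N hNdef] at h4
      have h5 : (1 + (Real.exp ε - 1)) * Real.exp (LL N (badW W) t)
          = Real.exp (LL N (badW W) t + ε) := by
        rw [Real.exp_add]; ring
      rw [h5, Real.exp_le_exp] at h4
      exact h4
  · intro h ε hε
    have hε' : 0 < Real.log (1 + ε) := Real.log_pos (by linarith)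
    obtain ⟨l, hl, t1, ht1, h1⟩ := h (Real.log (1 + ε)) hε'
    refine ⟨l, Real.exp t1, hl, ?_⟩
    intro x y h2 h3 h4
    have hx0 : 0 < x := (Real.exp_pos _).trans_le h2
    have hy0 : 0 < y := hx0.trans_le h3
    have hlx : t1 ≤ Real.log x := by rwa [Real.le_log_iff_exp_le hx0]
    have hlxy : Real.log x ≤ Real.log y := Real.log_le_log hx0 h3
    have hly : Real.log y ≤ l * Real.log x := by
      have := Real.log_le_log hy0 h4
      rwa [Real.log_rpow hx0] at this
    have h5 := h1 _ hlx _ hlxy hly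
    rw [PE_eq W N hNdef y hy0, PE_eq W N hNdef x hx0]
    calc Real.exp (LL N (badW W) (Real.log y)) ≤ Real.exp (LL N (badW W) (Real.log x)
          + Real.log (1 + ε)) := Real.exp_le_exp.mpr h5
      _ = (1 + ε) * Real.exp (LL N (badW W) (Real.log x)) := by
          rw [Real.exp_add, Real.exp_log (by linarith)]
          ring

include hNdef in
/-- The Tauberian characterisation of the Birch and Swinnerton-Dyer asymptotic. -/
theorem tauberian_criterion (hΔ : W.Δ ≠ 0) (F : ℂ → ℂ) (hFd : Differentiable ℂ F)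
    (hF : EulerHyp W N F) :
    (∃ C : ℝ, C ≠ 0 ∧ Asymptotics.IsEquivalent atTop (PE W N)
      (fun x : ℝ => C * Real.log x ^ (analyticOrderNatAt F 1))) ↔
    ((∀ ε : ℝ, 0 < ε → ∃ l X : ℝ, 1 < l ∧ ∀ x y : ℝ, X ≤ x → x ≤ y → y ≤ x ^ l →
      PE W N y ≤ (1 + ε) * PE W N x) ∧
    ∃ s, Tendsto (S2 N (badW W)) (𝓝[>] 0) (𝓝 s)) := by
  rw [isEquivalent_iff W N hNdef, fn_tendsto_iff W N hNdef hΔ F hFd hF, slow_iff W N hNdef]

end

end Pool.Agent.Helper13.Bsd
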