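import Pool.Agent.Helper13.Bsd.Main

/-!
# Three pieces of the frame for the original Birch and Swinnerton-Dyer product

* growth: `|log P_E(e^t)| ≤ A e^{t/2}`;
* the local factors do not vanish in `Re w ≥ 0`;
* behaviour of `G` at `0`.
-/

namespace Pool.Agent.Helper13.Bsd

open Complex Filter Topology MeasureTheory Set

/-! ### Non-vanishing of the local factors -/

lemma quad_ne_zero (α β : ℝ) (X : ℂ) (hα : |α| ≤ 1) (hβ0 : 0 < β) (hβ : β < 1) (hX : ‖X‖ ≤ 1) :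
    1 - ((α : ℂ) * X - (β : ℂ) * X ^ 2) ≠ 0 := by
  intro h
  have hsq : X.re ^ 2 + X.im ^ 2 ≤ 1 := by
    have h1 := Complex.normSq_apply X
    have h2 := Complex.sq_norm X
    nlinarith [norm_nonneg X]
  have hre := congrArg Complex.re h
  have him := congrArg Complex.im h
  simp [pow_two] at hre him
  have hα' := abs_le.mp hα
  by_cases hi : X.im = 0
  · rw [hi] at hre hsq
    have hx : |X.re| ≤ 1 := by
      rw [abs_le]; constructor <;> nlinarith
    have hx' := abs_le.mp hx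
    have h1 : α * X.re ≤ 1 := by
      calc α * X.re ≤ |α * X.re| := le_abs_self _
        _ = |α| * |X.re| := abs_mul _ _
        _ ≤ 1 * 1 := by gcongr
        _ = 1 := one_mul 1
    by_cases hr : X.re = 0
    · rw [hr] at hre
      norm_num at hre
    · have : 0 < X.re ^ 2 := by positivity
      nlinarith [mul_pos hβ0 this]
  · have h1 : α = 2 * β * X.re := by
      have h2 : X.im * (α - 2 * β * X.re) = 0 := by linear_combination -him
      rcases mul_eq_zero.mp h2 with h3 | h3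
      · exact absurd h3 hi
      · linarith
    rw [h1] at hre
    nlinarith [sq_nonneg X.re, sq_nonneg X.im]

lemma N_le (W : WeierstrassCurve ℤ) (N : ℕ → ℕ)
    (hNdef : ∀ p : ℕ, N p = 1 + ((Finset.range p ×ˢ Finset.range p).filter
      (fun q : ℕ × ℕ => (p : ℤ) ∣ ((q.2 : ℤ) ^ 2 + W.a₁ * (q.1 : ℤ) * (q.2 : ℤ) + W.a₃ * (q.2 : ℤ)
        - ((q.1 : ℤ) ^ 3 + W.a₂ * (q.1 : ℤ) ^ 2 + W.a₄ * (q.1 : ℤ) + W.a₆)))).card)
    (p : ℕ) (hp : p.Prime) : N p ≤ 2 * p + 1 := by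
  rw [hNdef p]
  set s := (Finset.range p ×ˢ Finset.range p).filter
      (fun q : ℕ × ℕ => (p : ℤ) ∣ ((q.2 : ℤ) ^ 2 + W.a₁ * (q.1 : ℤ) * (q.2 : ℤ) + W.a₃ * (q.2 : ℤ)
        - ((q.1 : ℤ) ^ 3 + W.a₂ * (q.1 : ℤ) ^ 2 + W.a₄ * (q.1 : ℤ) + W.a₆))) with hs
  have hpz : Prime (p : ℤ) := Nat.prime_iff_prime_int.mp hp
  have key : ∀ a ∈ s.image Prod.fst, (s.filter (fun q => q.1 = a)).card ≤ 2 := by
    intro a _
    by_contra hcon
    push Not at hcon
    rw [Finset.two_lt_card] at hcon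
    obtain ⟨q1, h1, q2, h2, q3, h3, h12, h13, h23⟩ := hcon
    rw [Finset.mem_filter, hs, Finset.mem_filter, Finset.mem_product, Finset.mem_range,
      Finset.mem_range] at h1 h2 h3
    obtain ⟨⟨⟨-, l1⟩, d1⟩, e1⟩ := h1
    obtain ⟨⟨⟨-, l2⟩, d2⟩, e2⟩ := h2
    obtain ⟨⟨⟨-, l3⟩, d3⟩, e3⟩ := h3
    obtain ⟨x1, y1⟩ := q1
    obtain ⟨x2, y2⟩ := q2
    obtain ⟨x3, y3⟩ := q3
    simp only at *
    subst e1 e2 e3
    have hne : ∀ u v : ℕ, u < p → v < p → u ≠ v → ¬ (p : ℤ) ∣ ((u : ℤ) - v) := by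
      intro u v hu hv huv hd
      apply huv
      have h4 : (u : ℤ) ≡ v [ZMOD p] := by
        rw [Int.modEq_iff_dvd]
        have : (v : ℤ) - u = -((u : ℤ) - v) := by ring
        rw [this]
        exact (dvd_neg).mpr hd
      have h5 : u ≡ v [MOD p] := by exact_mod_cast h4
      exact Nat.ModEq.eq_of_lt_of_lt h5 hu hv
    have k12 : (p : ℤ) ∣ ((y1 : ℤ) - y2) * (y1 + y2 + W.a₁ * x3 + W.a₃) := by
      have h6 := dvd_sub d1 d2
      have e6 : ((y1 : ℤ) - y2) * (y1 + y2 + W.a₁ * x3 + W.a₃)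
          = ((y1 : ℤ) ^ 2 + W.a₁ * (x3 : ℤ) * y1 + W.a₃ * y1
              - ((x3 : ℤ) ^ 3 + W.a₂ * (x3 : ℤ) ^ 2 + W.a₄ * x3 + W.a₆))
            - ((y2 : ℤ) ^ 2 + W.a₁ * (x3 : ℤ) * y2 + W.a₃ * y2
              - ((x3 : ℤ) ^ 3 + W.a₂ * (x3 : ℤ) ^ 2 + W.a₄ * x3 + W.a₆)) := by ring
      rw [e6]
      exact h6
    have k13 : (p : ℤ) ∣ ((y1 : ℤ) - y3) * (y1 + y3 + W.a₁ * x3 + W.a₃) := by
      have h6 := dvd_sub d1 d3
      have e6 : ((y1 : ℤ) - y3) * (y1 + y3 + W.a₁ * x3 + W.a₃)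
          = ((y1 : ℤ) ^ 2 + W.a₁ * (x3 : ℤ) * y1 + W.a₃ * y1
              - ((x3 : ℤ) ^ 3 + W.a₂ * (x3 : ℤ) ^ 2 + W.a₄ * x3 + W.a₆))
            - ((y3 : ℤ) ^ 2 + W.a₁ * (x3 : ℤ) * y3 + W.a₃ * y3
              - ((x3 : ℤ) ^ 3 + W.a₂ * (x3 : ℤ) ^ 2 + W.a₄ * x3 + W.a₆)) := by ring
      rw [e6]
      exact h6
    have m12 := (hpz.dvd_mul.mp k12).resolve_left (hne y1 y2 l1 l2 (fun h => h12 (by rw [h])))
    have m13 := (hpz.dvd_mul.mp k13).resolve_left (hne y1 y3 l1 l3 (fun h => h13 (by rw [h])))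
    have m23 : (p : ℤ) ∣ ((y2 : ℤ) - y3) := by
      have h6 := dvd_sub m12 m13
      have e6 : ((y2 : ℤ) - y3) = (y1 + y2 + W.a₁ * x3 + W.a₃) - (y1 + y3 + W.a₁ * x3 + W.a₃) := by ring
      rw [e6]
      exact h6
    exact hne y2 y3 l2 l3 (fun h => h23 (by rw [h])) m23
  have h1 := Finset.card_le_mul_card_image s 2 key
  have h2 : (s.image Prod.fst).card ≤ p := by
    calc (s.image Prod.fst).card ≤ (Finset.range p).card := by
          apply Finset.card_le_card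
          intro a ha
          rw [Finset.mem_image] at ha
          obtain ⟨q, hq, rfl⟩ := ha
          rw [hs, Finset.mem_filter, Finset.mem_product] at hq
          exact hq.1.1
      _ = p := Finset.card_range p
  omega

section

variable (N : ℕ → ℕ) (bad : ℕ → Prop) [DecidablePred bad]

lemma one_sub_zz_ne_zero' (hN : ∀ p : ℕ, p.Prime → 1 ≤ N p) (hN2 : ∀ p : ℕ, p.Prime → N p ≤ 2 * p + 1)
    (p : ℕ) (hp : p.Prime) (w : ℂ) (hw : 0 ≤ w.re) : 1 - zz N p w ≠ 0 := by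
  have hp2 : (2 : ℝ) ≤ (p : ℝ) := by exact_mod_cast hp.two_le
  have hp0 : (0 : ℝ) < p := by linarith
  have h1 : (1 : ℝ) ≤ N p := by exact_mod_cast hN p hp
  have h2 : (N p : ℝ) ≤ 2 * p + 1 := by exact_mod_cast hN2 p hp
  apply quad_ne_zero (alp N p) ((p : ℝ)⁻¹) _ ?_ (by positivity) (inv_lt_one_of_one_lt₀ (by linarith))
    (norm_X_le_one p hp w hw)
  rw [alp, abs_div, abs_of_pos hp0, div_le_one hp0, abs_le]
  constructor <;> linarith

lemma Gf_eq_zero_iff (hN : ∀ p : ℕ, p.Prime → 1 ≤ N p) (hN2 : ∀ p : ℕ, p.Prime → N p ≤ 2 * p + 1)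
    (F : ℂ → ℂ) (w : ℂ) (hw : 0 ≤ w.re) : Gf N bad F w = 0 ↔ F (1 + w) = 0 := by
  rw [Gf, mul_eq_zero, or_iff_left]
  apply Finset.prod_ne_zero_iff.mpr
  intro p _
  split_ifs
  · exact one_ne_zero
  · exact one_sub_zz_ne_zero' N hN hN2 p p.2 w hw

/-! ### Growth -/

lemma ell_sqrt_bound (hN : ∀ p : ℕ, p.Prime → 1 ≤ N p)
    (hH : ∀ p : ℕ, p.Prime → |(p : ℝ) + 1 - N p| ≤ 14 * Real.sqrt p) (p : ℕ) (hp : p.Prime) :
    |ell N p| ≤ 65536 * (Real.sqrt p)⁻¹ := by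
  have hp0 : (0 : ℝ) < p := by exact_mod_cast hp.pos
  have hs : 0 < Real.sqrt p := Real.sqrt_pos.mpr hp0
  by_cases hbig : p < 1024
  · have h1 := ell_bound N hN hH p hp
    have h2 : (p : ℝ) ≤ 1024 := by exact_mod_cast hbig.le
    have h3 : Real.sqrt p ≤ 32 := by
      rw [Real.sqrt_le_left (by norm_num)]
      linarith
    have h4 : 1 / 32 ≤ (Real.sqrt p)⁻¹ := by
      rw [one_div]
      exact inv_anti₀ hs h3
    linarith
  · obtain ⟨h1, h2, h3⟩ := delta_facts p hp hbig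
    have h4 := alp_bound N hH p hp
    set δ := (Real.sqrt p)⁻¹ with hδ
    rw [ell_eq N p hp, h3]
    have h5 := abs_le.mp h4
    have hδ2 : δ ^ 2 ≤ δ / 32 := by nlinarith
    have hδ20 : 0 ≤ δ ^ 2 := by positivity
    have hpos : 1 / 2 ≤ 1 - alp N p + δ ^ 2 := by linarith
    rw [abs_le]
    constructor
    · have h6 := Real.one_sub_inv_le_log_of_pos (by linarith : 0 < 1 - alp N p + δ ^ 2)
      have h7 : (1 - alp N p + δ ^ 2)⁻¹ ≤ 1 + 30 * δ := by
        rw [inv_le_comm₀ (by linarith) (by linarith)]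
        rw [inv_le_iff_one_le_mul₀ (by linarith)]
        nlinarith
      linarith
    · have h6 := Real.log_le_sub_one_of_pos (by linarith : 0 < 1 - alp N p + δ ^ 2)
      linarith

lemma sum_inv_sqrt_le' (n : ℕ) : ∑ m ∈ Finset.range (n + 1), (Real.sqrt m)⁻¹ ≤ 2 * Real.sqrt n := by
  induction n with
  | zero => simp
  | succ n ih =>
    rw [Finset.sum_range_succ]
    have hn0 : (0 : ℝ) ≤ n := by positivity
    have h1 : 0 ≤ Real.sqrt n := Real.sqrt_nonneg _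
    have h2 : Real.sqrt n ^ 2 = n := Real.sq_sqrt hn0
    have h3 : Real.sqrt ((n + 1 : ℕ) : ℝ) ^ 2 = n + 1 := by
      rw [Real.sq_sqrt (by positivity)]; push_cast; ring
    have h4 : 0 < Real.sqrt ((n + 1 : ℕ) : ℝ) := Real.sqrt_pos.mpr (by positivity)
    set a := Real.sqrt n
    set b := Real.sqrt ((n + 1 : ℕ) : ℝ)
    have hab : a ≤ b := by
      apply le_of_sq_le_sq _ h4.le
      linarith
    have h5 : b⁻¹ ≤ 2 * (b - a) := by
      rw [inv_le_iff_one_le_mul₀ h4]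
      nlinarith [sq_nonneg (b - a)]
    linarith

lemma sum_inv_sqrt_le (n : ℕ) : ∑ m ∈ Finset.range n, (Real.sqrt m)⁻¹ ≤ 2 * Real.sqrt n := by
  refine le_trans ?_ (sum_inv_sqrt_le' n)
  rw [Finset.sum_range_succ]
  have : 0 ≤ (Real.sqrt n)⁻¹ := by positivity
  linarith

lemma LL_growth (hN : ∀ p : ℕ, p.Prime → 1 ≤ N p)
    (hH : ∀ p : ℕ, p.Prime → |(p : ℝ) + 1 - N p| ≤ 14 * Real.sqrt p) :
    ∃ A : ℝ, 0 ≤ A ∧ ∀ t, 0 < t → |LL N bad t| ≤ A * Real.exp (1 / 2 * t) := by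
  refine ⟨65536 * (2 * 2), by norm_num, fun t ht => ?_⟩
  have h1 : |LL N bad t| ≤ 65536 * (2 * Real.sqrt (⌈Real.exp t⌉₊ : ℝ)) := by
    unfold LL LLs
    refine (Finset.abs_sum_le_sum_abs _ _).trans ?_
    calc ∑ p ∈ (Finset.range ⌈Real.exp t⌉₊).filter (fun p : ℕ => Nat.Prime p ∧ ¬ bad p), |ell N p|
        ≤ ∑ p ∈ (Finset.range ⌈Real.exp t⌉₊).filter (fun p : ℕ => Nat.Prime p ∧ ¬ bad p),
            (65536 * (Real.sqrt p)⁻¹) := by
          apply Finset.sum_le_sum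
          intro p hp
          rw [Finset.mem_filter, Finset.mem_range] at hp
          exact ell_sqrt_bound N hN hH p hp.2.1
      _ ≤ ∑ p ∈ Finset.range ⌈Real.exp t⌉₊, (65536 * (Real.sqrt p)⁻¹) := by
          apply Finset.sum_le_sum_of_subset_of_nonneg (Finset.filter_subset _ _)
          intro i _ _
          positivity
      _ = 65536 * ∑ p ∈ Finset.range ⌈Real.exp t⌉₊, (Real.sqrt p)⁻¹ := by rw [Finset.mul_sum]
      _ ≤ _ := by
          gcongr
          exact sum_inv_sqrt_le _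
  refine h1.trans ?_
  have h2 : (⌈Real.exp t⌉₊ : ℝ) ≤ 2 * Real.exp t := by
    have h3 := (Nat.ceil_lt_add_one (Real.exp_pos t).le).le
    have h4 : 1 ≤ Real.exp t := Real.one_le_exp ht.le
    linarith
  have h5 : Real.exp (1 / 2 * t) ^ 2 = Real.exp t := by
    rw [← Real.exp_nat_mul]
    congr 1
    push_cast
    ring
  have h6 : Real.sqrt (⌈Real.exp t⌉₊ : ℝ) ≤ 2 * Real.exp (1 / 2 * t) := by
    rw [Real.sqrt_le_left (by positivity), mul_pow, h5]
    have := Real.exp_pos t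
    linarith
  linarith

/-! ### Behaviour at `0` -/

lemma one_sub_zz_zero (hN : ∀ p : ℕ, p.Prime → 1 ≤ N p) (p : ℕ) (hp : p.Prime) :
    1 - zz N p 0 = ((Real.exp (ell N p) : ℝ) : ℂ) := by
  have hp0 : (0 : ℝ) < p := by exact_mod_cast hp.pos
  have h1 : (1 : ℝ) ≤ N p := by exact_mod_cast hN p hp
  rw [ell, Real.exp_log (by positivity), zz, alp]
  push_cast
  simp
  have : (p : ℂ) ≠ 0 := by exact_mod_cast hp.ne_zero
  field_simp
  ring

/-- `F(1+w)` has the right leading coefficient. -/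
lemma leading_coeff (F : ℂ → ℂ) (hFd : Differentiable ℂ F) (hord : analyticOrderAt F 1 ≠ ⊤) :
    0 < ‖iteratedDeriv (analyticOrderNatAt F 1) F 1‖ ∧
    Tendsto (fun y : ℝ => ‖F (1 + y)‖ / y ^ (analyticOrderNatAt F 1)) (𝓝[>] 0)
      (𝓝 (‖iteratedDeriv (analyticOrderNatAt F 1) F 1‖ / (analyticOrderNatAt F 1).factorial)) := by
  set r := analyticOrderNatAt F 1 with hr
  have hFan : AnalyticAt ℂ F 1 := hFd.analyticAt 1
  have hord' : analyticOrderAt F 1 = r := (Nat.cast_analyticOrderNatAt hord).symm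
  obtain ⟨hz, hnz⟩ := (analyticOrderAt_eq_nat_iff_iteratedDeriv_eq_zero hFan).mp hord'
  refine ⟨norm_pos_iff.mpr hnz, ?_⟩
  set f : ℂ → ℂ := fun z => F (1 + z) with hf
  have hfd : Differentiable ℂ f := hFd.comp (differentiable_id.const_add 1)
  have hfi : ∀ i, iteratedDeriv i f 0 = iteratedDeriv i F 1 := by
    intro i
    rw [hf, iteratedDeriv_comp_const_add]
    simp
  obtain ⟨Φ, hΦa, hΦ⟩ := (hfd.analyticAt 0).exists_eq_sum_add_pow_mul (r + 1)
  have hform : ∀ z, f z = z ^ r * (iteratedDeriv r F 1 / r.factorial + z * Φ z) := by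
    intro z
    rw [hΦ z, Finset.sum_range_succ, Finset.sum_eq_zero]
    · rw [hfi]
      simp only [smul_eq_mul]
      ring
    · intro i hi
      rw [Finset.mem_range] at hi
      rw [hfi, hz i hi, smul_zero]
  have hcont : Tendsto (fun y : ℝ => ‖iteratedDeriv r F 1 / r.factorial + (y : ℂ) * Φ y‖) (𝓝[>] 0)
      (𝓝 (‖iteratedDeriv r F 1‖ / r.factorial)) := by
    have h1 : Tendsto (fun y : ℝ => (y : ℂ)) (𝓝[>] 0) (𝓝 ((0 : ℝ) : ℂ)) :=
      (continuous_ofReal.tendsto 0).mono_left nhdsWithin_le_nhds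
    rw [ofReal_zero] at h1
    have h2 := hΦa.continuousAt.tendsto.comp h1
    have h3 := ((h1.mul h2).const_add (iteratedDeriv r F 1 / r.factorial)).norm
    rw [zero_mul, add_zero, norm_div, norm_natCast] at h3
    exact h3
  apply hcont.congr'
  have hpos : ∀ᶠ y : ℝ in 𝓝[>] 0, (0 : ℝ) < y := self_mem_nhdsWithin
  filter_upwards [hpos] with y hy
  have h1 := hform (y : ℂ)
  rw [hf] at h1
  simp only at h1
  rw [h1, norm_mul, norm_pow, norm_real, Real.norm_eq_abs, abs_of_pos hy]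
  field_simp

/-- The Euler product forbids `F` to vanish identically near `1`. -/
lemma order_ne_top (F : ℂ → ℂ) (hFd : Differentiable ℂ F) (hN : ∀ p : ℕ, p.Prime → 1 ≤ N p)
    (hH : ∀ p : ℕ, p.Prime → |(p : ℝ) + 1 - N p| ≤ 14 * Real.sqrt p)
    (hF : ∀ s : ℂ, 3 / 2 < s.re → HasProd (fun p : Nat.Primes =>
      if bad (p : ℕ) then (1 : ℂ)
      else (1 - (((p : ℕ) : ℂ) + 1 - ((N (p : ℕ) : ℕ) : ℂ)) * ((p : ℕ) : ℂ) ^ (-s)
              + ((p : ℕ) : ℂ) ^ (1 - 2 * s))⁻¹) (F s)) :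
    analyticOrderAt F 1 ≠ ⊤ := by
  intro h
  rw [analyticOrderAt_eq_top] at h
  have h0 : F = 0 := by
    have h1 : AnalyticOnNhd ℂ F Set.univ := fun z _ => hFd.analyticAt z
    have h2 := h1.eqOn_zero_of_preconnected_of_eventuallyEq_zero isPreconnected_univ (mem_univ 1) h
    funext z
    exact h2 (mem_univ z)
  have h1 := key_identity N bad F hFd hN hH hF 2 (by norm_num) (fun x hx => LapInt_LL N bad hN hH x hx)
    ((3 : ℝ) : ℂ) (by rw [ofReal_re]; norm_num)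
  rw [Gf, h0] at h1
  simp only [Pi.zero_apply, zero_mul] at h1
  exact exp_ne_zero _ h1.symm

theorem Gf_at_zero (F : ℂ → ℂ) (hFd : Differentiable ℂ F) (hord : analyticOrderAt F 1 ≠ ⊤)
    (hN : ∀ p : ℕ, p.Prime → 1 ≤ N p) :
    Tendsto (fun y : ℝ => ‖Gf N bad F (y : ℂ)‖ / y ^ (analyticOrderNatAt F 1)) (𝓝[>] 0)
      (𝓝 (‖iteratedDeriv (analyticOrderNatAt F 1) F 1‖ / (analyticOrderNatAt F 1).factorial *
        Real.exp (∑ p ∈ smallP, if bad p then 0 else ell N p))) := by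
  obtain ⟨-, h1⟩ := leading_coeff F hFd hord
  have hcont : Continuous fun w : ℂ => ∏ p ∈ smallP, if bad p then 1 else 1 - zz N p w := by
    apply continuous_finsetProd
    intro p _
    split_ifs
    · exact continuous_const
    · exact continuous_const.sub (differentiable_zz N p p.2).continuous
  have h2 : Tendsto (fun y : ℝ => (y : ℂ)) (𝓝[>] 0) (𝓝 ((0 : ℝ) : ℂ)) :=
    (continuous_ofReal.tendsto 0).mono_left nhdsWithin_le_nhds
  rw [ofReal_zero] at h2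
  have h3 := ((hcont.tendsto 0).comp h2).norm
  have e3 : ‖∏ p ∈ smallP, if bad (p : ℕ) then 1 else 1 - zz N p 0‖
      = Real.exp (∑ p ∈ smallP, if bad p then 0 else ell N p) := by
    rw [norm_prod, Real.exp_sum]
    apply Finset.prod_congr rfl
    intro p _
    split_ifs
    · simp
    · rw [one_sub_zz_zero N hN p p.2, norm_real, Real.norm_eq_abs, Real.abs_exp]
  rw [e3] at h3
  apply (h1.mul h3).congr
  intro y
  rw [Gf, norm_mul]
  simp only [Function.comp]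
  ring

end

end Pool.Agent.Helper13.Bsd
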