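import Mathlib
import Pool.Agent.Helper13.Bsd.Main

/-!
# Omega results coming from zeros off the line
-/

namespace Pool.Agent.Helper13.Bsd

open Complex Filter Topology MeasureTheory Set

/-- `k1 t = (1 - e^{-t}) / t`. -/
noncomputable def k1 (t : ℝ) : ℝ := (1 - Real.exp (-t)) / t

lemma measurable_k1 : Measurable k1 := by
  unfold k1
  fun_prop

lemma k1_nonneg {t : ℝ} (ht : 0 < t) : 0 ≤ k1 t := by
  unfold k1
  apply div_nonneg _ ht.le
  have : Real.exp (-t) ≤ 1 := Real.exp_le_one_iff.mpr (by linarith)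
  linarith

lemma k1_le_one {t : ℝ} (ht : 0 < t) : k1 t ≤ 1 := by
  unfold k1
  rw [div_le_one ht]
  have := Real.add_one_le_exp (-t)
  linarith

lemma integral_exp_complex (z : ℂ) {t : ℝ} (ht : 0 < t) :
    ∫ v in (0 : ℝ)..1, cexp (-(z + v) * t) = (k1 t : ℂ) * cexp (-z * t) := by
  have ht0 : (t : ℂ) ≠ 0 := by exact_mod_cast ht.ne'
  have hderiv : ∀ v ∈ uIcc (0 : ℝ) 1, HasDerivAt (fun v : ℝ => -(cexp (-(z + v) * t)) / t)
      (cexp (-(z + v) * t)) v := by
    intro v _
    have h1 : HasDerivAt (fun v : ℝ => -(z + (v : ℂ)) * t) (-(t : ℂ)) v := by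
      have h2 : HasDerivAt (fun v : ℝ => (v : ℂ)) 1 v := Complex.ofRealCLM.hasDerivAt
      have h3 := ((h2.const_add z).neg).mul_const (t : ℂ)
      simpa using h3
    have h4 := (h1.cexp.neg).div_const (t : ℂ)
    convert! h4 using 1
    field_simp
  rw [intervalIntegral.integral_eq_sub_of_hasDerivAt hderiv
    (Continuous.intervalIntegrable (by fun_prop) _ _)]
  unfold k1
  push_cast
  have e1 : cexp (-(z + 1) * t) = cexp (-t) * cexp (-z * t) := by
    rw [← exp_add]; congr 1; ring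
  have e2 : cexp (-(z + 0) * t) = cexp (-z * t) := by
    congr 1; ring
  rw [e1, e2]
  field_simp
  ring

lemma LapInt_k1 {θ x : ℝ} (hx : θ < x) : LapInt (fun t => Real.exp (θ * t) * k1 t) x := by
  have h1 := LapInt_exp (a := θ) hx
  unfold LapInt at *
  refine Integrable.mono' h1 ?_ ?_
  · exact (((by fun_prop : Measurable fun t : ℝ => Real.exp (θ * t)).mul measurable_k1).mul
      (by fun_prop)).aestronglyMeasurable
  · rw [ae_restrict_iff' measurableSet_Ioi]
    filter_upwards with t ht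
    have ht' : 0 < t := ht
    rw [norm_mul, norm_mul, Real.norm_eq_abs, Real.norm_eq_abs, Real.norm_eq_abs, Real.abs_exp,
      Real.abs_exp, abs_of_nonneg (k1_nonneg ht')]
    have := k1_le_one ht'
    have h2 := Real.exp_pos (θ * t)
    have h3 := Real.exp_pos (-x * t)
    nlinarith [mul_nonneg (mul_nonneg h2.le h3.le) (sub_nonneg.mpr this)]

lemma Lap_k1 (θ : ℝ) (w : ℂ) (hw : θ < w.re) :
    Lap (fun t => Real.exp (θ * t) * k1 t) w = ∫ v in (0 : ℝ)..1, 1 / (w - θ + v) := by
  have hz : 0 < (w - θ).re := by simp; linarith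
  set z : ℂ := w - θ with hzdef
  have h1 : Lap (fun t => Real.exp (θ * t) * k1 t) w
      = ∫ t in Ioi (0 : ℝ), ∫ v in (0 : ℝ)..1, cexp (-(z + v) * t) := by
    unfold Lap
    apply setIntegral_congr_fun measurableSet_Ioi
    intro t ht
    have ht' : 0 < t := ht
    simp only
    rw [integral_exp_complex z ht', hzdef]
    push_cast
    rw [mul_comm (cexp (θ * t)), mul_assoc, ← exp_add]
    congr 2
    ring
  rw [h1, ← intervalIntegral_integral_swap]
  · apply intervalIntegral.integral_congr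
    intro v hv
    rw [uIcc_of_le zero_le_one] at hv
    simp only
    have hre : (-(z + (v : ℂ))).re < 0 := by
      simp only [neg_re, add_re, ofReal_re]
      linarith [hv.1]
    rw [integral_exp_mul_complex_Ioi hre]
    have hne : z + (v : ℂ) ≠ 0 := by
      intro h0
      rw [h0] at hre
      simp at hre
    rw [ofReal_zero, mul_zero, exp_zero, neg_div_neg_eq]
  · have hb : Integrable (fun p : ℝ × ℝ => (1 : ℝ) * Real.exp (-z.re * p.2))
        ((volume.restrict (uIoc (0 : ℝ) 1)).prod (volume.restrict (Ioi (0 : ℝ)))) := by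
      apply Integrable.mul_prod (f := fun _ : ℝ => (1 : ℝ)) (g := fun t : ℝ => Real.exp (-z.re * t))
      · rw [uIoc_of_le zero_le_one]
        exact integrable_const _
      · exact integrableOn_exp_neg hz
    refine Integrable.mono' hb ?_ ?_
    · apply Measurable.aestronglyMeasurable
      unfold Function.uncurry
      fun_prop
    · rw [Measure.prod_restrict, ae_restrict_iff' (measurableSet_uIoc.prod measurableSet_Ioi)]
      filter_upwards with p hp
      obtain ⟨hp1, hp2⟩ := hp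
      rw [uIoc_of_le zero_le_one] at hp1
      have h2 : 0 < p.2 := hp2
      have h3 : 0 < p.1 := hp1.1
      simp only [Function.uncurry, norm_exp, one_mul]
      rw [Real.exp_le_exp]
      have : (-(z + (p.1 : ℂ)) * (p.2 : ℂ)).re = -(z.re + p.1) * p.2 := by simp
      rw [this]
      nlinarith

lemma norm_Lap_k1_le (θ : ℝ) (w : ℂ) (hw : θ < w.re) (him : w.im ≠ 0) :
    ‖Lap (fun t => Real.exp (θ * t) * k1 t) w‖ ≤ 1 / |w.im| := by
  rw [Lap_k1 θ w hw]
  have : ∀ v ∈ uIoc (0 : ℝ) 1, ‖1 / (w - θ + v)‖ ≤ 1 / |w.im| := by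
    intro v _
    rw [norm_div, norm_one]
    apply one_div_le_one_div_of_le (abs_pos.mpr him)
    have : (w - θ + v).im = w.im := by simp
    rw [← this]
    exact abs_im_le_norm _
  have h2 := intervalIntegral.norm_integral_le_of_norm_le_const this
  simpa using h2

lemma Lap_k1_real (θ x : ℝ) (hx : θ < x) :
    ∫ t in Ioi (0 : ℝ), (Real.exp (θ * t) * k1 t) * Real.exp (-x * t)
      = Real.log ((x - θ + 1) / (x - θ)) := by
  have h1 := Lap_k1 θ (x : ℂ) (by simpa using hx)
  rw [re_Lap_ofReal] at h1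
  have h2 : ∫ v in (0 : ℝ)..1, 1 / ((x : ℂ) - θ + v) = ((∫ v in (0 : ℝ)..1, 1 / (x - θ + v) : ℝ) : ℂ) := by
    rw [← intervalIntegral.integral_ofReal]
    congr 1
    funext v
    push_cast
    rfl
  rw [h2] at h1
  have h3 : ∫ t in Ioi (0 : ℝ), (Real.exp (θ * t) * k1 t) * Real.exp (-x * t)
      = ∫ v in (0 : ℝ)..1, 1 / (x - θ + v) := by exact_mod_cast h1
  rw [h3]
  have h4 := intervalIntegral.integral_comp_add_left (a := (0 : ℝ)) (b := 1)
    (fun v : ℝ => 1 / v) (x - θ)
  rw [h4, add_zero, integral_one_div_of_pos (by linarith) (by linarith)]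

section

variable (N : ℕ → ℕ) (bad : ℕ → Prop) [DecidablePred bad]

theorem omega_core (F : ℂ → ℂ) (hFd : Differentiable ℂ F) (hN : ∀ p : ℕ, p.Prime → 1 ≤ N p)
    (hH : ∀ p : ℕ, p.Prime → |(p : ℝ) + 1 - N p| ≤ 14 * Real.sqrt p)
    (hF : ∀ s : ℂ, 3 / 2 < s.re → HasProd (fun p : Nat.Primes =>
      if bad (p : ℕ) then (1 : ℂ)
      else (1 - (((p : ℕ) : ℂ) + 1 - ((N (p : ℕ) : ℕ) : ℂ)) * ((p : ℕ) : ℂ) ^ (-s)
              + ((p : ℕ) : ℂ) ^ (1 - 2 * s))⁻¹) (F s))
    (θ γ : ℝ) (hθ : 0 < θ) (m : ℕ) (CG : ℝ) (hCG : 0 < CG)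
    (hord : ∀ᶠ δ : ℝ in 𝓝[>] 0, ‖Gf N bad F ((θ + δ : ℝ) + γ * I)‖ ≤ CG * δ ^ m)
    (ε : ℝ) (hε : ε = 1 ∨ ε = -1)
    (hreal : ε = 1 ∨ ∀ x : ℝ, θ ≤ x → Gf N bad F (x : ℂ) ≠ 0)
    (κ : ℝ) (hκ0 : 0 ≤ κ) (hκ : κ * ‖(θ : ℂ) + γ * I‖ < m) (t0 : ℝ)
    (h : ∀ t, t0 < t → ε * LL N bad t ≤ κ * (Real.exp (θ * t) * k1 t)) : False := by
  have hLm := measurable_LL N bad
  set g : ℝ → ℝ := fun t => κ * (Real.exp (θ * t) * k1 t) with hg
  have hg1m : Measurable (fun t => Real.exp (θ * t) * k1 t) :=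
    (by fun_prop : Measurable fun t : ℝ => Real.exp (θ * t)).mul measurable_k1
  have hgm : Measurable g := hg1m.const_mul κ
  have hgi : ∀ x, θ < x → LapInt g x := fun x hx => (LapInt_k1 hx).const_mul κ
  have hint : ∀ x, θ < x → LapInt (LL N bad) x := by
    apply lapInt_continue N bad F hFd hN hH hF θ hθ.le g hgm hgi ε hε t0
    · intro t ht
      have := h t ht
      simp only [hg]
      linarith
    · rcases hreal with h | h
      · exact Or.inl h
      · exact Or.inr fun x hx => h x hx.le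
  have hid := key_identity N bad F hFd hN hH hF θ hθ.le hint
  have hGd := differentiable_Gf N bad F hFd
  have hHD : DifferentiableOn ℂ (fun w => Hf N bad w + D0 N bad w) {w : ℂ | 0 < w.re} :=
    (differentiableOn_Hf N bad hH).add (differentiable_D0 N bad).differentiableOn
  have hopen0 : IsOpen {w : ℂ | 0 < w.re} := isOpen_lt continuous_const continuous_re
  -- the function b
  set b : ℝ → ℝ := fun t => g t - ε * LL N bad t with hb
  have hbm : Measurable b := hgm.sub (hLm.const_mul ε)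
  have hbint : ∀ x, θ < x → LapInt b x := fun x hx => (hgi x hx).sub ((hint x hx).const_mul ε)
  set ind : ℝ → ℝ := (Iic t0).indicator (fun t => |b t|) with hind
  have habsb : ∀ x, θ < x → LapInt (fun t => |b t|) x := by
    intro x hx
    have hf := hbint x hx
    unfold LapInt at *
    refine hf.norm.congr ?_
    filter_upwards with t
    rw [norm_mul, Real.norm_eq_abs, Real.norm_eq_abs, Real.abs_exp]
  have hindint : ∀ x, LapInt ind x := fun x =>
    (habsb (θ + 1) (by linarith)).indicator_Iic hbm.abs t0 x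
  have hindnn : ∀ t, 0 ≤ ind t := fun t => indicator_nonneg (fun _ _ => abs_nonneg _) t
  set B := ∫ t in Ioi (0 : ℝ), ind t * Real.exp (-0 * t) with hB
  have hB0 : 0 ≤ B :=
    setIntegral_nonneg measurableSet_Ioi fun t _ => mul_nonneg (hindnn t) (Real.exp_pos _).le
  have hindB : ∀ x, 0 < x → ∫ t in Ioi (0 : ℝ), ind t * Real.exp (-x * t) ≤ B := by
    intro x hx
    apply setIntegral_mono_on (hindint x) (hindint 0) measurableSet_Ioi
    intro t ht
    have ht' : 0 < t := ht
    apply mul_le_mul_of_nonneg_left _ (hindnn t)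
    rw [Real.exp_le_exp]
    nlinarith
  have hbabs : ∀ t, |b t| ≤ b t + 2 * ind t := by
    intro t
    by_cases ht : t ∈ Iic t0
    · rw [hind, indicator_of_mem ht]
      have := neg_abs_le (b t)
      linarith
    · rw [hind, indicator_of_notMem ht]
      have h1 : t0 < t := by simpa using ht
      have h2 := h t h1
      have h3 : 0 ≤ b t := by simp only [hb, hg]; linarith
      rw [abs_of_nonneg h3]
      linarith
  have hlow : ∀ t, -ind t ≤ b t := by
    intro t
    have h1 := hbabs t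
    by_cases ht : t ∈ Iic t0
    · rw [hind, indicator_of_mem ht]
      exact neg_abs_le (b t)
    · rw [hind, indicator_of_notMem ht]
      have h1 : t0 < t := by simpa using ht
      have h2 := h t h1
      have h3 : 0 ≤ b t := by simp only [hb, hg]; linarith
      linarith
  -- real integrals
  set J : ℝ → ℝ := fun x => ∫ t in Ioi (0 : ℝ), LL N bad t * Real.exp (-x * t) with hJ
  have hbx : ∀ x, θ < x → ∫ t in Ioi (0 : ℝ), b t * Real.exp (-x * t)
      = κ * Real.log ((x - θ + 1) / (x - θ)) - ε * J x := by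
    intro x hx
    have h1 : ∀ t, b t * Real.exp (-x * t) = κ * ((Real.exp (θ * t) * k1 t) * Real.exp (-x * t))
        - ε * (LL N bad t * Real.exp (-x * t)) := by
      intro t
      simp only [hb, hg]
      ring
    simp_rw [h1]
    rw [integral_sub, integral_const_mul, integral_const_mul, Lap_k1_real θ x hx]
    · exact Integrable.const_mul (LapInt_k1 hx) _
    · exact Integrable.const_mul (hint x hx) _
  have hbw : ∀ w : ℂ, θ < w.re → ‖Lap b w‖
      ≤ (κ * Real.log ((w.re - θ + 1) / (w.re - θ)) - ε * J w.re) + 2 * B := by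
    intro w hw
    have hw0 : 0 < w.re := hθ.trans hw
    calc ‖Lap b w‖ ≤ ∫ t in Ioi (0 : ℝ), ‖(b t : ℂ) * cexp (-w * t)‖ := norm_integral_le_integral_norm _
      _ = ∫ t in Ioi (0 : ℝ), |b t| * Real.exp (-w.re * t) := by
          congr 1
          funext t
          rw [norm_mul, norm_real, norm_exp, Real.norm_eq_abs]
          simp
      _ ≤ ∫ t in Ioi (0 : ℝ), (b t * Real.exp (-w.re * t) + 2 * (ind t * Real.exp (-w.re * t))) := by
          apply setIntegral_mono_on (habsb _ hw)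
            ((hbint _ hw).add (Integrable.const_mul (hindint _) 2)) measurableSet_Ioi
          intro t _
          have h1 := mul_le_mul_of_nonneg_right (hbabs t) (Real.exp_pos (-w.re * t)).le
          have h2 : (b t + 2 * ind t) * Real.exp (-w.re * t)
              = b t * Real.exp (-w.re * t) + 2 * (ind t * Real.exp (-w.re * t)) := by ring
          rw [h2] at h1
          exact h1
      _ = (∫ t in Ioi (0 : ℝ), b t * Real.exp (-w.re * t))
          + 2 * ∫ t in Ioi (0 : ℝ), ind t * Real.exp (-w.re * t) := by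
          rw [integral_add (hbint _ hw) (Integrable.const_mul (hindint _) 2), integral_const_mul]
      _ ≤ _ := by
          rw [hbx _ hw]
          have := hindB w.re hw0
          linarith
  -- norm of G on the vertical point and on the real axis
  have hnormG : ∀ w : ℂ, θ < w.re → ‖Gf N bad F w‖
      = Real.exp ((Hf N bad w + D0 N bad w).re - (w * Lap (LL N bad) w).re) := by
    intro w hw
    rw [hid w hw, norm_exp, sub_re]
  have hnormGx : ∀ x : ℝ, θ < x → ‖Gf N bad F (x : ℂ)‖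
      = Real.exp ((Hf N bad (x : ℂ) + D0 N bad (x : ℂ)).re - x * J x) := by
    intro x hx
    rw [hnormG (x : ℂ) (by rw [ofReal_re]; exact hx), re_Lap_ofReal, ← ofReal_mul, ofReal_re]
  -- limits
  have htendw : Tendsto (fun δ : ℝ => ((θ + δ : ℝ) : ℂ) + γ * I) (𝓝[>] 0) (𝓝 ((θ : ℂ) + γ * I)) := by
    have h1 : Continuous (fun δ : ℝ => ((θ + δ : ℝ) : ℂ) + γ * I) := by fun_prop
    have h2 := (h1.tendsto 0).mono_left (nhdsWithin_le_nhds (s := Ioi (0 : ℝ)))
    simpa using h2
  have htendx : Tendsto (fun δ : ℝ => ((θ + δ : ℝ) : ℂ)) (𝓝[>] 0) (𝓝 (θ : ℂ)) := by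
    have h1 : Continuous (fun δ : ℝ => ((θ + δ : ℝ) : ℂ)) := by fun_prop
    have h2 := (h1.tendsto 0).mono_left (nhdsWithin_le_nhds (s := Ioi (0 : ℝ)))
    simpa using h2
  have hre0 : ((θ : ℂ) + γ * I).re = θ := by simp
  have hre0' : ((θ : ℂ)).re = θ := by simp
  have hcw : ContinuousAt (fun w => Hf N bad w + D0 N bad w) ((θ : ℂ) + γ * I) :=
    (hHD.differentiableAt (hopen0.mem_nhds (by show 0 < ((θ : ℂ) + γ * I).re; rw [hre0]; exact hθ))).continuousAt
  have hcx : ContinuousAt (fun w => Hf N bad w + D0 N bad w) (θ : ℂ) :=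
    (hHD.differentiableAt (hopen0.mem_nhds (by show 0 < (θ : ℂ).re; rw [hre0']; exact hθ))).continuousAt
  set A1 := ‖Hf N bad ((θ : ℂ) + γ * I) + D0 N bad ((θ : ℂ) + γ * I)‖ + 1 with hA1
  set A2 := ‖Hf N bad (θ : ℂ) + D0 N bad (θ : ℂ)‖ + 1 with hA2
  have ev1 : ∀ᶠ δ : ℝ in 𝓝[>] 0, ‖Hf N bad (((θ + δ : ℝ) : ℂ) + γ * I)
      + D0 N bad (((θ + δ : ℝ) : ℂ) + γ * I)‖ < A1 :=
    ((hcw.tendsto.comp htendw).norm).eventually (gt_mem_nhds (by rw [hA1]; linarith))
  have ev2 : ∀ᶠ δ : ℝ in 𝓝[>] 0, ‖Hf N bad ((θ + δ : ℝ) : ℂ) + D0 N bad ((θ + δ : ℝ) : ℂ)‖ < A2 :=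
    ((hcx.tendsto.comp htendx).norm).eventually (gt_mem_nhds (by rw [hA2]; linarith))
  -- control of - ε J on the real axis
  have ev3 : ∃ C1 : ℝ, 0 ≤ C1 ∧ ∀ᶠ δ : ℝ in 𝓝[>] 0, -ε * J (θ + δ) ≤ C1 := by
    have hpos : ∀ᶠ δ : ℝ in 𝓝[>] 0, (0 : ℝ) < δ := self_mem_nhdsWithin
    have hGx : Tendsto (fun δ : ℝ => ‖Gf N bad F ((θ + δ : ℝ) : ℂ)‖) (𝓝[>] 0)
        (𝓝 ‖Gf N bad F (θ : ℂ)‖) :=
      ((hGd.continuous.tendsto (θ : ℂ)).comp htendx).norm
    rcases hε with hε1 | hε1
    · -- upper bound of ‖G‖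
      set A3 := ‖Gf N bad F (θ : ℂ)‖ + 1 with hA3
      have ev4 : ∀ᶠ δ : ℝ in 𝓝[>] 0, ‖Gf N bad F ((θ + δ : ℝ) : ℂ)‖ < A3 :=
        hGx.eventually (gt_mem_nhds (by rw [hA3]; linarith))
      refine ⟨(A2 + |Real.log A3|) / θ, by positivity, ?_⟩
      filter_upwards [ev2, ev4, hpos] with δ h1 h2 h3
      rw [hnormGx (θ + δ) (by linarith)] at h2
      have h4 := Real.log_lt_log (Real.exp_pos _) h2
      rw [Real.log_exp] at h4
      have h5 := (abs_le.mp ((abs_re_le_norm _).trans h1.le)).1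
      have h6 := le_abs_self (Real.log A3)
      rw [hε1]
      have h7 : -((θ + δ) * J (θ + δ)) ≤ A2 + |Real.log A3| := by linarith
      rw [le_div_iff₀ hθ]
      by_cases hJs : 0 ≤ J (θ + δ)
      · have h8 : 0 ≤ A2 + |Real.log A3| := by positivity
        nlinarith
      · push Not at hJs
        nlinarith
    · -- lower bound of ‖G‖
      have hGθ : Gf N bad F (θ : ℂ) ≠ 0 := by
        rcases hreal with h' | h'
        · rw [h'] at hε1; norm_num at hε1
        · exact h' θ le_rfl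
      have hGpos : 0 < ‖Gf N bad F (θ : ℂ)‖ := norm_pos_iff.mpr hGθ
      set A3 := ‖Gf N bad F (θ : ℂ)‖ / 2 with hA3
      have hA3pos : 0 < A3 := by positivity
      have ev4 : ∀ᶠ δ : ℝ in 𝓝[>] 0, A3 < ‖Gf N bad F ((θ + δ : ℝ) : ℂ)‖ :=
        hGx.eventually (lt_mem_nhds (by rw [hA3]; linarith))
      refine ⟨(A2 + |Real.log A3|) / θ, by positivity, ?_⟩
      filter_upwards [ev2, ev4, hpos] with δ h1 h2 h3
      rw [hnormGx (θ + δ) (by linarith)] at h2
      have h4 := Real.log_lt_log hA3pos h2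
      rw [Real.log_exp] at h4
      have h5 := (abs_le.mp ((abs_re_le_norm _).trans h1.le)).2
      have h6 := neg_abs_le (Real.log A3)
      rw [hε1]
      have h7 : (θ + δ) * J (θ + δ) ≤ A2 + |Real.log A3| := by linarith
      rw [le_div_iff₀ hθ]
      by_cases hJs : 0 ≤ J (θ + δ)
      · nlinarith
      · push Not at hJs
        have h8 : 0 ≤ A2 + |Real.log A3| := by positivity
        nlinarith
  obtain ⟨C1, hC10, ev3⟩ := ev3
  -- the log comparison
  have hlogb : ∀ δ : ℝ, 0 < δ → δ < 1 → Real.log ((θ + δ - θ + 1) / (θ + δ - θ))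
      ≤ Real.log (1 / δ) + 1 := by
    intro δ h1 h2
    have e : (θ + δ - θ + 1) / (θ + δ - θ) = (1 / δ) * (1 + δ) := by
      have : θ + δ - θ = δ := by ring
      rw [this]
      field_simp
      ring
    rw [e, Real.log_mul (by positivity) (by positivity)]
    have := Real.log_le_sub_one_of_pos (show 0 < 1 + δ by linarith)
    linarith
  set Cg : ℝ := if γ = 0 then 0 else κ * (1 / |γ|) with hCg
  have hCg0 : 0 ≤ Cg := by
    rw [hCg]
    split_ifs
    · exact le_rfl
    · positivity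
  have hγε : γ = 0 → ε = 1 := by
    intro hγ
    rcases hreal with h' | h'
    · exact h'
    · exfalso
      -- G(θ) = 0
      have h1 : Tendsto (fun δ : ℝ => CG * δ ^ m) (𝓝[>] 0) (𝓝 0) := by
        have hm0 : m ≠ 0 := by
          rintro rfl
          have : 0 ≤ κ * ‖(θ : ℂ) + γ * I‖ := by positivity
          simp at hκ
          linarith
        have h2 : Continuous (fun δ : ℝ => CG * δ ^ m) := by fun_prop
        have h3 := (h2.tendsto 0).mono_left (nhdsWithin_le_nhds (s := Ioi (0 : ℝ)))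
        simpa [hm0] using h3
      have h4 : Tendsto (fun δ : ℝ => ‖Gf N bad F ((θ + δ : ℝ) + γ * I)‖) (𝓝[>] 0)
          (𝓝 ‖Gf N bad F ((θ : ℂ) + γ * I)‖) :=
        ((hGd.continuous.tendsto _).comp htendw).norm
      have h5 := le_of_tendsto_of_tendsto h4 h1 hord
      have h6 : Gf N bad F ((θ : ℂ) + γ * I) = 0 := norm_le_zero_iff.mp h5
      rw [hγ] at h6
      simp only [ofReal_zero, zero_mul, add_zero] at h6
      exact h' θ le_rfl h6
  -- main inequality
  have main : ∀ᶠ δ : ℝ in 𝓝[>] 0, m * Real.log (1 / δ) - (|Real.log CG| + A1)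
      ≤ ‖((θ + δ : ℝ) : ℂ) + γ * I‖ * (κ * Real.log (1 / δ) + (κ + C1 + 2 * B + Cg)) := by
    have hpos : ∀ᶠ δ : ℝ in 𝓝[>] 0, (0 : ℝ) < δ := self_mem_nhdsWithin
    have hlt1 : ∀ᶠ δ : ℝ in 𝓝[>] 0, δ < 1 :=
      (gt_mem_nhds one_pos : ∀ᶠ x : ℝ in 𝓝 0, x < 1).filter_mono nhdsWithin_le_nhds
    filter_upwards [hpos, hlt1, ev1, ev3, hord] with δ h1 h2 h3 h4 h5
    set w : ℂ := ((θ + δ : ℝ) : ℂ) + γ * I with hw
    have hwre : w.re = θ + δ := by rw [hw]; simp
    have hwim : w.im = γ := by rw [hw]; simp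
    have hwθ : θ < w.re := by rw [hwre]; linarith
    rw [hnormG w hwθ] at h5
    have h6 := Real.log_le_log (Real.exp_pos _) h5
    rw [Real.log_exp, Real.log_mul hCG.ne' (by positivity), Real.log_pow] at h6
    have h7 := (abs_le.mp ((abs_re_le_norm _).trans h3.le)).1
    have h8 := le_abs_self (Real.log CG)
    have h9 : Real.log (1 / δ) = -Real.log δ := by rw [one_div, Real.log_inv]
    have h10 : m * Real.log (1 / δ) - (|Real.log CG| + A1) ≤ (w * Lap (LL N bad) w).re := by
      rw [h9]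
      linarith
    refine h10.trans ?_
    have hlog := hlogb δ h1 h2
    have hlog0 : 0 ≤ Real.log (1 / δ) := Real.log_nonneg (by rw [le_div_iff₀ h1]; linarith)
    by_cases hγ : γ = 0
    · -- real case
      have hε1 := hγε hγ
      have hwr : w = ((θ + δ : ℝ) : ℂ) := by rw [hw, hγ]; simp
      rw [hwr, re_Lap_ofReal, ← ofReal_mul, ofReal_re, norm_real, Real.norm_eq_abs,
        abs_of_pos (by linarith : 0 < θ + δ)]
      apply mul_le_mul_of_nonneg_left _ (by linarith)
      have h11 := hbx (θ + δ) (by linarith)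
      have h12 : -B ≤ ∫ t in Ioi (0 : ℝ), b t * Real.exp (-(θ + δ) * t) := by
        have h13 : ∫ t in Ioi (0 : ℝ), -(ind t * Real.exp (-(θ + δ) * t))
            ≤ ∫ t in Ioi (0 : ℝ), b t * Real.exp (-(θ + δ) * t) := by
          apply setIntegral_mono_on (Integrable.neg (hindint _)) (hbint _ (by linarith))
            measurableSet_Ioi
          intro t _
          have h14 := mul_le_mul_of_nonneg_right (hlow t) (Real.exp_pos (-(θ + δ) * t)).le
          show -(ind t * Real.exp (-(θ + δ) * t)) ≤ b t * Real.exp (-(θ + δ) * t)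
          linarith
        rw [integral_neg] at h13
        have := hindB (θ + δ) (by linarith)
        linarith
      rw [h11, hε1] at h12
      have h15 : J (θ + δ) ≤ κ * (Real.log (1 / δ) + 1) + B := by
        have := mul_le_mul_of_nonneg_left hlog hκ0
        linarith
      show J (θ + δ) ≤ _
      linarith
    · -- complex case
      have h11 : (w * Lap (LL N bad) w).re ≤ ‖w‖ * ‖Lap (LL N bad) w‖ := by
        rw [← norm_mul]
        exact (le_abs_self _).trans (abs_re_le_norm _)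
      refine h11.trans ?_
      apply mul_le_mul_of_nonneg_left _ (norm_nonneg _)
      have hLapg : Lap g w = (κ : ℂ) * Lap (fun t => Real.exp (θ * t) * k1 t) w := by
        rw [hg, Lap_const_mul]
      have hLapb : Lap b w = Lap g w - ε * Lap (LL N bad) w := by
        have h2' : LapInt (fun t => ε * LL N bad t) w.re := (hint w.re hwθ).const_mul ε
        rw [hb, Lap_sub hgm (hLm.const_mul ε) (hgi w.re hwθ) h2', Lap_const_mul (LL N bad) ε w]
      have hnL : ‖Lap (LL N bad) w‖ ≤ ‖Lap g w‖ + ‖Lap b w‖ := by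
        have h12 : (ε : ℂ) * Lap (LL N bad) w = Lap g w - Lap b w := by rw [hLapb]; ring
        have h13 : ‖(ε : ℂ) * Lap (LL N bad) w‖ = ‖Lap (LL N bad) w‖ := by
          rw [norm_mul, norm_real, Real.norm_eq_abs]
          rcases hε with h' | h' <;> rw [h'] <;> simp
        rw [← h13, h12]
        exact norm_sub_le _ _
      have hng : ‖Lap g w‖ ≤ Cg := by
        rw [hLapg, norm_mul, norm_real, Real.norm_eq_abs, abs_of_nonneg hκ0, hCg, if_neg hγ]
        apply mul_le_mul_of_nonneg_left _ hκ0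
        have := norm_Lap_k1_le θ w hwθ (by rw [hwim]; exact hγ)
        rwa [hwim] at this
      have hnb := hbw w hwθ
      rw [hwre] at hnb
      have := mul_le_mul_of_nonneg_left hlog hκ0
      linarith
  -- contradiction
  have hlogtop : Tendsto (fun δ : ℝ => Real.log (1 / δ)) (𝓝[>] 0) atTop := by
    have h1 : Tendsto (fun δ : ℝ => 1 / δ) (𝓝[>] 0) atTop := by
      simpa [one_div] using tendsto_inv_nhdsGT_zero (𝕜 := ℝ)
    exact Real.tendsto_log_atTop.comp h1
  have hnormw : Tendsto (fun δ : ℝ => ‖((θ + δ : ℝ) : ℂ) + γ * I‖ * κ) (𝓝[>] 0)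
      (𝓝 (‖(θ : ℂ) + γ * I‖ * κ)) := (htendw.norm).mul_const κ
  set m' := (m + κ * ‖(θ : ℂ) + γ * I‖) / 2 with hm'
  have ev5 : ∀ᶠ δ : ℝ in 𝓝[>] 0, ‖((θ + δ : ℝ) : ℂ) + γ * I‖ * κ < m' :=
    hnormw.eventually (gt_mem_nhds (by rw [hm']; linarith))
  have ev6 : ∀ᶠ δ : ℝ in 𝓝[>] 0, ‖((θ + δ : ℝ) : ℂ) + γ * I‖ < ‖(θ : ℂ) + γ * I‖ + 1 :=
    htendw.norm.eventually (gt_mem_nhds (by linarith))
  set K2 := (|Real.log CG| + A1) + (‖(θ : ℂ) + γ * I‖ + 1) * (κ + C1 + 2 * B + Cg) with hK2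
  have hmm' : 0 < m - m' := by rw [hm']; linarith
  have ev7 : ∀ᶠ δ : ℝ in 𝓝[>] 0, K2 / (m - m') + 1 < Real.log (1 / δ) :=
    hlogtop.eventually (eventually_gt_atTop _)
  have ev8 : ∀ᶠ δ : ℝ in 𝓝[>] 0, 0 < Real.log (1 / δ) :=
    hlogtop.eventually (eventually_gt_atTop _)
  obtain ⟨δ, h1, h2, h3, h4, h5⟩ := (main.and (ev5.and (ev6.and (ev7.and ev8)))).exists
  have h6 : ‖((θ + δ : ℝ) : ℂ) + γ * I‖ * (κ * Real.log (1 / δ) + (κ + C1 + 2 * B + Cg))
      ≤ m' * Real.log (1 / δ) + (‖(θ : ℂ) + γ * I‖ + 1) * (κ + C1 + 2 * B + Cg) := by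
    have h7 : 0 ≤ κ + C1 + 2 * B + Cg := by positivity
    have h8 := mul_le_mul_of_nonneg_right h2.le h5.le
    have h9 := mul_le_mul_of_nonneg_right h3.le h7
    linarith
  have h10 : (m - m') * Real.log (1 / δ) ≤ K2 := by
    rw [hK2]
    linarith
  have h11 : K2 < (m - m') * Real.log (1 / δ) := by
    have h12 : K2 / (m - m') < Real.log (1 / δ) := by linarith
    rw [div_lt_iff₀ hmm'] at h12
    linarith
  linarith

end

end Pool.Agent.Helper13.Bsd
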