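import Mathlib
import Pool.Agent.Helper13.Bsd.Omega

/-!
# Omega theorem for `P_E(x)`
-/

namespace Pool.Agent.Helper13.Bsd

open Complex Filter Topology MeasureTheory Set

section

variable (W : WeierstrassCurve ℤ) (N : ℕ → ℕ)
    (hNdef : ∀ p : ℕ, N p = 1 + ((Finset.range p ×ˢ Finset.range p).filter
      (fun q : ℕ × ℕ => (p : ℤ) ∣ ((q.2 : ℤ) ^ 2 + W.a₁ * (q.1 : ℤ) * (q.2 : ℤ) + W.a₃ * (q.2 : ℤ)
        - ((q.1 : ℤ) ^ 3 + W.a₂ * (q.1 : ℤ) ^ 2 + W.a₄ * (q.1 : ℤ) + W.a₆)))).card)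

include hNdef in
theorem omega_aux (F : ℂ → ℂ) (hFd : Differentiable ℂ F) (hF : EulerHyp W N F)
    (ρ : ℂ) (hρ : 1 < ρ.re) (κ : ℝ) (hκ0 : 0 ≤ κ) (hκ : κ * ‖ρ - 1‖ < analyticOrderNatAt F ρ)
    (ε : ℝ) (hε : ε = 1 ∨ ε = -1) (hreal : ε = 1 ∨ ∀ σ : ℝ, ρ.re ≤ σ → F (σ : ℂ) ≠ 0)
    (t0 : ℝ) (h : ∀ t, t0 < t → ε * LL N (badW W) t ≤ κ * (Real.exp ((ρ.re - 1) * t) / t)) :
    False := by
  have hN := hN_of W N hNdef
  have hH := ap_bound W N hNdef
  set m := analyticOrderNatAt F ρ with hm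
  set θ := ρ.re - 1 with hθdef
  set γ := ρ.im with hγdef
  have hθ : 0 < θ := by rw [hθdef]; linarith
  have hρ1 : ρ - 1 = (θ : ℂ) + γ * I := by
    apply Complex.ext
    · simp [hθdef]
    · simp [hγdef]
  have hρ2 : ρ = 1 + ((θ : ℂ) + γ * I) := by rw [← hρ1]; ring
  have hnpos : 0 < ‖ρ - 1‖ := by
    rw [norm_pos_iff, sub_ne_zero]
    rintro rfl
    simp at hρ
  have hmpos : 0 < (m : ℝ) := lt_of_le_of_lt (by positivity) hκ
  set κ' := (κ + m / ‖ρ - 1‖) / 2 with hκ'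
  have hκm : κ < m / ‖ρ - 1‖ := by rw [lt_div_iff₀ hnpos]; exact hκ
  have hκκ' : κ < κ' := by rw [hκ']; linarith
  have hκ'm : κ' * ‖ρ - 1‖ < m := by
    have : κ' < m / ‖ρ - 1‖ := by rw [hκ']; linarith
    rwa [lt_div_iff₀ hnpos] at this
  have hκ'0 : 0 < κ' := lt_of_le_of_lt hκ0 hκκ'
  -- order
  have hFan : AnalyticAt ℂ F ρ := hFd.analyticAt ρ
  have hord : analyticOrderAt F ρ ≠ ⊤ := by
    intro h0
    have : m = 0 := by rw [hm, analyticOrderNatAt, h0]; rfl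
    rw [this] at hmpos
    simp at hmpos
  obtain ⟨g, hga, hg0, hgeq⟩ := hFan.analyticOrderAt_ne_top.mp hord
  set Pr : ℂ → ℂ := fun w => ∏ p ∈ smallP, if badW W p then 1 else 1 - zz N p w with hPr
  have hPrd : Continuous Pr := by
    rw [hPr]
    apply continuous_finsetProd
    intro p _
    split_ifs
    · exact continuous_const
    · exact continuous_const.sub (differentiable_zz N p p.2).continuous
  have htendw : Tendsto (fun δ : ℝ => ((θ + δ : ℝ) : ℂ) + γ * I) (𝓝[>] 0) (𝓝 ((θ : ℂ) + γ * I)) := by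
    have h1 : Continuous (fun δ : ℝ => ((θ + δ : ℝ) : ℂ) + γ * I) := by fun_prop
    have h2 := (h1.tendsto 0).mono_left (nhdsWithin_le_nhds (s := Ioi (0 : ℝ)))
    simpa using h2
  have htendρ : Tendsto (fun δ : ℝ => 1 + (((θ + δ : ℝ) : ℂ) + γ * I)) (𝓝[>] 0) (𝓝 ρ) := by
    rw [hρ2]
    exact htendw.const_add 1
  set CG := ‖g ρ * Pr ((θ : ℂ) + γ * I)‖ + 1 with hCG
  have hCGpos : 0 < CG := by positivity
  have hlim : Tendsto (fun δ : ℝ => ‖g (1 + (((θ + δ : ℝ) : ℂ) + γ * I))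
      * Pr (((θ + δ : ℝ) : ℂ) + γ * I)‖) (𝓝[>] 0) (𝓝 ‖g ρ * Pr ((θ : ℂ) + γ * I)‖) := by
    apply Tendsto.norm
    apply Tendsto.mul
    · exact hga.continuousAt.tendsto.comp htendρ
    · exact (hPrd.tendsto _).comp htendw
  have hev1 : ∀ᶠ δ : ℝ in 𝓝[>] 0, ‖g (1 + (((θ + δ : ℝ) : ℂ) + γ * I))
      * Pr (((θ + δ : ℝ) : ℂ) + γ * I)‖ < CG :=
    hlim.eventually (gt_mem_nhds (by rw [hCG]; linarith))
  have hordG : ∀ᶠ δ : ℝ in 𝓝[>] 0, ‖Gf N (badW W) F ((θ + δ : ℝ) + γ * I)‖ ≤ CG * δ ^ m := by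
    have hpos : ∀ᶠ δ : ℝ in 𝓝[>] 0, (0 : ℝ) < δ := self_mem_nhdsWithin
    filter_upwards [hev1, htendρ.eventually hgeq, hpos] with δ h1 h2 h3
    rw [Gf, h2]
    have e : (1 + (((θ + δ : ℝ) : ℂ) + γ * I)) - ρ = (δ : ℂ) := by
      rw [hρ2]; push_cast; ring
    rw [e, smul_eq_mul, mul_assoc, norm_mul, norm_pow, norm_real, Real.norm_eq_abs, abs_of_pos h3,
      mul_comm CG]
    exact mul_le_mul_of_nonneg_left h1.le (by positivity)
  -- the final comparison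
  have hexp : Tendsto (fun t : ℝ => κ' * (1 - Real.exp (-t))) atTop (𝓝 (κ' * (1 - 0))) :=
    ((Real.tendsto_exp_atBot.comp tendsto_neg_atTop_atBot).const_sub 1).const_mul κ'
  have hev2 : ∀ᶠ t : ℝ in atTop, κ < κ' * (1 - Real.exp (-t)) :=
    hexp.eventually (lt_mem_nhds (by linarith))
  obtain ⟨t2, ht2⟩ := eventually_atTop.mp hev2
  refine omega_core N (badW W) F hFd hN hH hF θ γ hθ m CG hCGpos hordG ε hε ?_ κ' hκ'0.le
    (by rw [← hρ1]; exact hκ'm) (max t0 (max t2 1)) ?_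
  · rcases hreal with h' | h'
    · exact Or.inl h'
    · right
      intro x hx
      apply Gf_ne_zero_of W N hNdef F (by linarith)
      have := h' (1 + x) (by rw [hθdef] at hx; linarith)
      push_cast at this
      exact this
  · intro t ht
    have h1 : t0 < t := (le_max_left _ _).trans_lt ht
    have h2 : t2 < t := ((le_max_left _ _).trans (le_max_right _ _)).trans_lt ht
    have h3 : 1 < t := ((le_max_right _ _).trans (le_max_right _ _)).trans_lt ht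
    have h4 := ht2 t h2.le
    refine (h t h1).trans ?_
    rw [k1]
    have h5 : 0 < Real.exp (θ * t) / t := by positivity
    calc κ * (Real.exp (θ * t) / t) ≤ (κ' * (1 - Real.exp (-t))) * (Real.exp (θ * t) / t) := by
          gcongr
      _ = _ := by ring

include hNdef in
theorem omega_pm (F : ℂ → ℂ) (hFd : Differentiable ℂ F) (hF : EulerHyp W N F)
    (ρ : ℂ) (hρ : 1 < ρ.re) (κ : ℝ) (hκ0 : 0 ≤ κ) (hκ : κ * ‖ρ - 1‖ < analyticOrderNatAt F ρ) :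
    (∃ᶠ x : ℝ in atTop, Real.exp (κ * (x ^ (ρ.re - 1) / Real.log x)) ≤ PE W N x) ∧
    ((∀ σ : ℝ, ρ.re ≤ σ → F (σ : ℂ) ≠ 0) →
      ∃ᶠ x : ℝ in atTop, PE W N x ≤ Real.exp (-(κ * (x ^ (ρ.re - 1) / Real.log x)))) := by
  have hrpow : ∀ t : ℝ, (Real.exp t) ^ (ρ.re - 1) = Real.exp ((ρ.re - 1) * t) := by
    intro t
    rw [← Real.exp_mul]
    congr 1
    ring
  constructor
  · intro hcon
    obtain ⟨x1, hx1⟩ := eventually_atTop.mp hcon
    apply omega_aux W N hNdef F hFd hF ρ hρ κ hκ0 hκ 1 (Or.inl rfl) (Or.inl rfl)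
      (Real.log (max x1 1))
    intro t ht
    have h3 : max x1 1 < Real.exp t := (Real.log_lt_iff_lt_exp (by positivity)).mp ht
    have h4 := hx1 _ ((le_max_left _ _).trans h3.le)
    rw [not_le, PE_exp W N hNdef, Real.exp_lt_exp, hrpow, Real.log_exp] at h4
    linarith
  · intro hreal hcon
    obtain ⟨x1, hx1⟩ := eventually_atTop.mp hcon
    apply omega_aux W N hNdef F hFd hF ρ hρ κ hκ0 hκ (-1) (Or.inr rfl) (Or.inr hreal)
      (Real.log (max x1 1))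
    intro t ht
    have h3 : max x1 1 < Real.exp t := (Real.log_lt_iff_lt_exp (by positivity)).mp ht
    have h4 := hx1 _ ((le_max_left _ _).trans h3.le)
    rw [not_le, PE_exp W N hNdef, Real.exp_lt_exp, hrpow, Real.log_exp] at h4
    linarith

end

end Pool.Agent.Helper13.Bsd
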